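import Pool.Agent.helper50.NPP.Main

/-! The characterisation of `3`-connected signed graphs with the negative pair property. -/

namespace NPP

open SimpleGraph

variable {V : Type*} [Fintype V] [DecidableEq V] {G : SimpleGraph V}

theorem three_neighbors (hG : KConn 3 G) (a : V) : 3 ≤ ((nb G a).erase a).card := by
  have ha : a ∈ nb G a := mem_nb.2 (Or.inl rfl)
  rw [Finset.card_erase_of_mem ha]
  rcases grow hG (S := {a}) (Finset.singleton_nonempty a) with h | h
  · rw [Finset.singleton_biUnion] at h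
    rw [h, Finset.card_univ]
    have := hG.1
    omega
  · rw [Finset.singleton_biUnion, Finset.card_singleton] at h
    omega

/-- two neighbours of `a` with the same value -/
theorem two_neighbors (hG : KConn 3 G) (a : V) (φ : V → ℤˣ) :
    ∃ x y, x ≠ y ∧ G.Adj a x ∧ G.Adj a y ∧ φ x = φ y := by
  obtain ⟨x, hx, y, hy, hxy, h⟩ := Finset.exists_ne_map_eq_of_card_lt_of_maps_to
    (s := (nb G a).erase a) (t := (Finset.univ : Finset ℤˣ)) (f := φ) (by
      have := three_neighbors hG a
      have h2 : (Finset.univ : Finset ℤˣ).card = 2 := by decide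
      omega) (fun x _ => Finset.mem_univ _)
  rw [Finset.mem_erase, mem_nb] at hx hy
  exact ⟨x, y, hxy, hx.2.resolve_left hx.1, hy.2.resolve_left hy.1, h⟩

/-- a negative circle avoids each vertex -/
theorem avoid_vertex (hG : KConn 3 G) {σ : Sym2 V → ℤˣ} (h : NegPairProperty G σ) (a : V) :
    ∃ (u : V) (c : G.Walk u u), c.IsCycle ∧ a ∉ c.support ∧ wsign σ c = -1 := by
  by_contra hcon
  push Not at hcon
  obtain ⟨θ, hθ⟩ := exists_switching (G := G) σ (fun g => a ∉ g) (fun u c hc hD =>
    units_of_ne (hcon u c hc (support_avoid hc hD)))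
  obtain ⟨x, y, hxy, hax, hay, heq⟩ := two_neighbors hG a (fun z => σ s(a, z) * θ z)
  have hef : s(a, x) ≠ s(a, y) := by
    intro h
    rw [Sym2.congr_right] at h
    exact hxy h
  obtain ⟨u, c, hc, h1, h2, hneg⟩ := h s(a, x) hax s(a, y) hay hef
  have := wsign_circle (σ := σ) (θ := θ) hef (fun p q hpq _ _ h3 =>
    hθ p q hpq (h3 a (by simp) (by simp))) hc h1 h2
  rw [this, ends_mk, ends_mk] at hneg
  have e1 : σ s(a, x) * σ s(a, y) * (θ a * θ x * (θ a * θ y)) =
      (σ s(a, x) * θ x) * (σ s(a, y) * θ y) * (θ a * θ a) := by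
    simp only [mul_comm, mul_left_comm, mul_assoc]
  rw [e1, heq, Int.units_mul_self, Int.units_mul_self] at hneg
  exact absurd hneg (by decide)

/-- **Theorem 3** (the negative pair property of `3`-connected signed graphs) -/
theorem negPairProperty_iff (hG : KConn 3 G) (σ : Sym2 V → ℤˣ) :
    NegPairProperty G σ ↔
      (∀ a : V, ∃ (u : V) (c : G.Walk u u), c.IsCycle ∧ a ∉ c.support ∧ wsign σ c = -1) ∧
      (∀ e ∈ G.edgeSet, ∀ f ∈ G.edgeSet, e ≠ f →
        ∃ (u : V) (c : G.Walk u u), c.IsCycle ∧ e ∉ c.edges ∧ f ∉ c.edges ∧ wsign σ c = -1) := by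
  constructor
  · intro h
    refine ⟨avoid_vertex hG h, ?_⟩
    intro e he f hf hef
    by_contra hcon
    push Not at hcon
    obtain ⟨θ, hθ⟩ := exists_switching (G := G) σ (fun g => g ≠ e ∧ g ≠ f) (fun u c hc hD =>
      units_of_ne (hcon u c hc (fun h' => (hD e h').1 rfl) (fun h' => (hD f h').2 rfl)))
    -- if `e` or `f` is switched to `+`, then an end of the other one meets all negative circles
    have key : ∀ e ∈ G.edgeSet, ∀ f ∈ G.edgeSet,
        (∀ x y, G.Adj x y → s(x, y) ≠ e ∧ s(x, y) ≠ f → σ s(x, y) = θ x * θ y) →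
        σ e * ends θ e = -1 := by
      intro e he f hf hθ
      by_contra hpos
      have hpos' := units_of_ne hpos
      obtain ⟨a, ha⟩ : ∃ a, a ∈ f := by
        induction f using Sym2.ind with
        | _ a b => exact ⟨a, by simp⟩
      obtain ⟨u, c, hc, hac, hneg⟩ := avoid_vertex hG h a
      have hfc : f ∉ c.edges := fun h' =>
        hac (Walk.mem_support_iff_exists_mem_edges.2 (Or.inr ⟨f, h', ha⟩))
      have := wsign_of_switching (σ := σ) (θ := θ) c (by
        rintro g hg x y rfl
        have hadj := c.adj_of_mem_edges hg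
        by_cases hge : s(x, y) = e
        · rw [← hge, ends_mk] at hpos'
          exact (units_mul_eq_one hpos').symm
        · exact hθ x y hadj ⟨hge, fun h' => hfc (h' ▸ hg)⟩)
      rw [this, Int.units_mul_self] at hneg
      exact absurd hneg (by decide)
    have k1 := key e he f hf hθ
    have k2 := key f hf e he (fun x y hxy h' => hθ x y hxy ⟨h'.2, h'.1⟩)
    obtain ⟨u, c, hc, h1, h2, hneg⟩ := h e he f hf hef
    have := wsign_circle (σ := σ) (θ := θ) hef (fun p q hpq h3 h4 _ => hθ p q hpq ⟨h3, h4⟩) hc h1 h2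
    rw [this, mul_mul_mul_comm, k1, k2] at hneg
    exact absurd hneg (by decide)
  · rintro ⟨h1, h2⟩ e he f hf hef
    by_contra hneg
    have hall : ∀ (u : V) (c : G.Walk u u), c.IsCycle → e ∈ c.edges → f ∈ c.edges →
        wsign σ c = 1 := by
      intro u c hc hec hfc
      exact units_of_ne fun h => hneg ⟨u, c, hc, hec, hfc, h⟩
    have h3 := (same_sign_iff hG σ hef he hf).1 (fun u c u' c' a1 a2 a3 a4 a5 a6 => by
      rw [hall u c a1 a2 a3, hall u' c' a4 a5 a6])
    by_cases hcom : ∃ a ∈ e, a ∈ f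
    · obtain ⟨a, hae, haf⟩ := hcom
      obtain ⟨u, c, hc, hac, hs⟩ := h1 a
      have hmem : ∀ g ∈ c.edges, a ∉ g := fun g hg hag =>
        hac (Walk.mem_support_iff_exists_mem_edges.2 (Or.inr ⟨g, hg, hag⟩))
      have := h3 u c hc (fun h => hmem e h hae) (fun h => hmem f h haf) (by
        intro b hbe hbf
        by_cases hab : a = b
        · rw [← hab]; exact hac
        · exact absurd (((Sym2.mem_and_mem_iff hab).1 ⟨hae, hbe⟩).trans
            ((Sym2.mem_and_mem_iff hab).1 ⟨haf, hbf⟩).symm) hef)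
      rw [this] at hs
      exact absurd hs (by decide)
    · obtain ⟨u, c, hc, hec, hfc, hs⟩ := h2 e he f hf hef
      have := h3 u c hc hec hfc (fun a ha ha' => absurd ⟨a, ha, ha'⟩ hcom)
      rw [this] at hs
      exact absurd hs (by decide)

theorem wsign_single {g : Sym2 V} {u v : V} (p : G.Walk u v) (hn : p.edges.Nodup) (hg : g ∈ p.edges) :
    wsign (fun h => if h = g then -1 else 1) p = -1 := by
  unfold wsign
  have h1 : (p.edges.map fun h => if h = g then (-1 : ℤˣ) else 1).prod =
      ∏ h ∈ p.edges.toFinset, if h = g then (-1 : ℤˣ) else 1 := by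
    rw [List.prod_toFinset _ hn]
  rw [h1, Finset.prod_ite_eq' _ _ (fun _ => (-1 : ℤˣ))]
  simp [hg]

/-- **Theorem 4** One negative edge never suffices in a `3`-connected graph. -/
theorem one_negative_edge (hG : KConn 3 G) {g : Sym2 V} (hg : g ∈ G.edgeSet) :
    Unbalanced G (fun h => if h = g then -1 else 1) ∧
      ¬ NegPairProperty G (fun h => if h = g then -1 else 1) := by
  constructor
  · -- a second edge and a circle through both
    obtain ⟨a, ha⟩ : ∃ a, a ∈ g := by
      induction g using Sym2.ind with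
      | _ a b => exact ⟨a, by simp⟩
    obtain ⟨x, y, hxy, hax, hay, -⟩ := two_neighbors hG a (fun z => if s(a, z) = g then 1 else 1)
    have hex : ∃ f ∈ G.edgeSet, f ≠ g := by
      by_cases h : s(a, x) = g
      · refine ⟨s(a, y), hay, ?_⟩
        rw [← h]
        intro h'
        rw [Sym2.congr_right] at h'
        exact hxy h'.symm
      · exact ⟨s(a, x), hax, h⟩
    obtain ⟨f, hf, hfg⟩ := hex
    by_contra hcon
    -- all circles are positive
    have hpos : ∀ (u : V) (c : G.Walk u u), c.IsCycle → g ∉ c.edges := by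
      intro u c hc hgc
      exact hcon ⟨u, c, hc, wsign_single c hc.edges_nodup hgc⟩
    obtain ⟨l₁, l₂, hL⟩ := exists_lk (by norm_num) hG (not_isDiag hg) (not_isDiag hf)
    obtain ⟨a, b, c, d, hab, p, hcd, q, h1, h2, h3, -⟩ := cycle_of_lk (fun _ => 1) hfg.symm hg hf hL
    exact hpos _ _ h3 (by simp [h1])
  · intro h
    obtain ⟨a, ha⟩ : ∃ a, a ∈ g := by
      induction g using Sym2.ind with
      | _ a b => exact ⟨a, by simp⟩
    obtain ⟨u, c, hc, hac, hneg⟩ := avoid_vertex hG h a
    have hgc : g ∉ c.edges := fun h' =>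
      hac (Walk.mem_support_iff_exists_mem_edges.2 (Or.inr ⟨g, h', ha⟩))
    have : wsign (fun h => if h = g then (-1 : ℤˣ) else 1) c = 1 := by
      unfold wsign
      apply List.prod_eq_one
      intro s hs
      rw [List.mem_map] at hs
      obtain ⟨h', hh', rfl⟩ := hs
      rw [if_neg]
      rintro rfl
      exact hgc hh'
    rw [this] at hneg
    exact absurd hneg (by decide)

end NPP
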