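import Pool.Agent.helper50.NPP.Lists

/-! Potentials from closed chains and from permutations. -/

namespace NPP

variable {V : Type*}

theorem exists_dup {l : List V} (h : ¬ l.Nodup) : ∃ A x B D, l = A ++ x :: (B ++ x :: D) := by
  induction l with
  | nil => exact absurd List.nodup_nil h
  | cons a t ih =>
    by_cases ha : a ∈ t
    · obtain ⟨B, D, rfl⟩ := List.append_of_mem ha
      exact ⟨[], a, B, D, rfl⟩
    · have ht : ¬ t.Nodup := fun ht => h (List.nodup_cons.2 ⟨ha, ht⟩)
      obtain ⟨A, x, B, D, rfl⟩ := ih ht
      exact ⟨a :: A, x, B, D, rfl⟩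

theorem csign_of_cchain {r : V → V → Prop} {w : V → V → ℤˣ}
    (h : ∀ C, Cyc r C → csign w C = 1) : ∀ C, CChain r C → csign w C = 1 := by
  have key : ∀ n, ∀ C : List V, C.length ≤ n → CChain r C → csign w C = 1 := by
    intro n
    induction n with
    | zero =>
      intro C hC _
      have : C = [] := List.length_eq_zero_iff.1 (by omega)
      subst this
      rfl
    | succ n ih =>
      intro C hlen hC
      by_cases hnd : C.Nodup
      · by_cases hne : C = []
        · subst hne; rfl
        · exact h C ⟨hnd, hne, hC⟩
      · obtain ⟨A, x, B, D, rfl⟩ := exists_dup hnd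
        have h1 := cchain_append_comm hC
        have h2 : ((x :: B) ++ x :: ((D ++ A) ++ [x])).IsChain r := by
          simp only [List.cons_append, cchain_cons] at h1
          simpa using h1
        rw [List.isChain_split] at h2
        rw [csign_append_comm]
        have e1 : csign w (x :: (B ++ x :: D) ++ A) = csign w (x :: B) * csign w (x :: (D ++ A)) := by
          have := lsign_split w (x :: B) x ((D ++ A) ++ [x])
          simp only [List.cons_append, csign_cons] at this ⊢
          simpa using this
        rw [e1]
        simp only [List.length_append, List.length_cons] at hlen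
        have i1 := ih (x :: B) (by simp only [List.length_cons]; omega) (by rw [cchain_cons]; exact h2.1)
        have i2 := ih (x :: (D ++ A)) (by simp only [List.length_cons, List.length_append]; omega)
          (by rw [cchain_cons]; simpa using h2.2)
        rw [i1, i2, one_mul]
  intro C hC
  exact key C.length C le_rfl hC

theorem exists_chain_of_reach {r : V → V → Prop} (hr : ∀ x, r x x) {x y : V}
    (h : Relation.ReflTransGen r x y) : ∃ m, (x :: m ++ [y]).IsChain r := by
  induction h with
  | refl => exact ⟨[], by simpa using hr x⟩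
  | @tail b c hb hbc ih =>
    obtain ⟨m, hm⟩ := ih
    refine ⟨m ++ [b], ?_⟩
    have e1 : x :: (m ++ [b]) ++ [c] = (x :: m) ++ b :: [c] := by simp
    rw [e1, List.isChain_split]
    exact ⟨by simpa using hm, by simpa using hbc⟩

/-- the relation of mutual reachability -/
def mutualSetoid (r : V → V → Prop) : Setoid V where
  r x y := Relation.ReflTransGen r x y ∧ Relation.ReflTransGen r y x
  iseqv := ⟨fun _ => ⟨.refl, .refl⟩, fun h => ⟨h.2, h.1⟩,
    fun h h' => ⟨h.1.trans h'.1, h'.2.trans h.2⟩⟩

theorem exists_potential {r : V → V → Prop} (hr : ∀ x, r x x) {w : V → V → ℤˣ}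
    (h : ∀ C, Cyc r C → csign w C = 1) :
    ∃ θ : V → ℤˣ, ∀ i j, r i j → Relation.ReflTransGen r j i → w i j = θ i * θ j := by
  have hall := csign_of_cchain h
  have hroot : ∀ x : V, ∃ m, ((Quotient.mk (mutualSetoid r) x).out :: m ++ [x]).IsChain r := by
    intro x
    have : (mutualSetoid r).r (Quotient.mk (mutualSetoid r) x).out x := Quotient.mk_out (s := mutualSetoid r) x
    exact exists_chain_of_reach hr this.1
  choose m hm using hroot
  refine ⟨fun x => lsign w ((Quotient.mk (mutualSetoid r) x).out :: m x ++ [x]), ?_⟩
  intro i j hij hji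
  have hq : Quotient.mk (mutualSetoid r) i = Quotient.mk (mutualSetoid r) j :=
    Quotient.sound ⟨Relation.ReflTransGen.single hij, hji⟩
  have hback : (mutualSetoid r).r (Quotient.mk (mutualSetoid r) j).out j := Quotient.mk_out (s := mutualSetoid r) j
  obtain ⟨b, hb⟩ := exists_chain_of_reach hr hback.2
  set ρ := (Quotient.mk (mutualSetoid r) j).out with hρ
  have hmi := hm i
  have hmj := hm j
  rw [hq] at hmi
  -- first closed chain
  have c1 : csign w (ρ :: m j ++ j :: b) = 1 := by
    apply hall
    simp only [List.cons_append, cchain_cons]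
    have e1 : ρ :: (m j ++ j :: b ++ [ρ]) = (ρ :: m j) ++ j :: (b ++ [ρ]) := by simp
    rw [e1, List.isChain_split]
    exact ⟨by simpa using hmj, by simpa using hb⟩
  have c2 : csign w (ρ :: m i ++ i :: j :: b) = 1 := by
    apply hall
    simp only [List.cons_append, cchain_cons]
    have e1 : ρ :: (m i ++ i :: j :: b ++ [ρ]) = (ρ :: m i) ++ i :: j :: (b ++ [ρ]) := by simp
    rw [e1, List.isChain_split]
    refine ⟨by simpa using hmi, ?_⟩
    rw [List.isChain_cons_cons]
    exact ⟨hij, by simpa using hb⟩
  have e1 : csign w (ρ :: m j ++ j :: b) = lsign w (ρ :: m j ++ [j]) * lsign w (j :: b ++ [ρ]) := by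
    have := lsign_split w (ρ :: m j) j (b ++ [ρ])
    simp only [List.cons_append, csign_cons] at this ⊢
    simpa using this
  have e2 : csign w (ρ :: m i ++ i :: j :: b) =
      lsign w (ρ :: m i ++ [i]) * (w i j * lsign w (j :: b ++ [ρ])) := by
    have := lsign_split w (ρ :: m i) i (j :: b ++ [ρ])
    simp only [List.cons_append, csign_cons] at this ⊢
    simpa using this
  rw [e1] at c1
  rw [e2] at c2
  beta_reduce
  rw [hq, ← hρ]
  rw [← c1] at c2
  have e3 : lsign w (ρ :: m i ++ [i]) * w i j = lsign w (ρ :: m j ++ [j]) := by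
    rw [← mul_assoc] at c2
    exact mul_right_cancel c2
  rw [← e3, ← mul_assoc, Int.units_mul_self, one_mul]

/-- the sign of a list along a function -/
theorem lsign_of_fun (w : V → V → ℤˣ) (π : V → V) (l : List V) (z : V)
    (h : (l ++ [z]).IsChain (fun x y => y = π x)) :
    lsign w (l ++ [z]) = (l.map fun i => w i (π i)).prod := by
  induction l with
  | nil => simp
  | cons a t ih =>
    cases t with
    | nil =>
      simp only [List.nil_append, List.cons_append, List.isChain_cons_cons] at h
      simp [h.1]
    | cons b t =>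
      simp only [List.cons_append, List.isChain_cons_cons] at h ih ⊢
      rw [lsign_cons_cons, ih h.2]
      simp [h.1]

theorem csign_of_fun (w : V → V → ℤˣ) (π : V → V) (C : List V)
    (h : CChain (fun x y => y = π x) C) :
    csign w C = (C.map fun i => w i (π i)).prod := by
  rcases C with _ | ⟨a, C⟩
  · rfl
  · exact lsign_of_fun w π (a :: C) a h

theorem cchain_formPerm [DecidableEq V] {C : List V} (hnd : C.Nodup) :
    CChain (fun x y => y = C.formPerm x) C := by
  rcases C with _ | ⟨a, C⟩
  · simp [CChain]
  rw [cchain_cons, List.isChain_iff_getElem]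
  intro i hi
  have hlen : (a :: C ++ [a]).length = (a :: C).length + 1 := by simp
  have hi' : i < (a :: C).length := by omega
  have e1 : (a :: C ++ [a])[i] = (a :: C)[i] := List.getElem_append_left hi'
  rw [e1, List.formPerm_apply_getElem _ hnd]
  by_cases h2 : i + 1 < (a :: C).length
  · have e2 : (a :: C ++ [a])[i+1] = (a :: C)[i+1] := List.getElem_append_left h2
    rw [e2]
    congr 1
    exact (Nat.mod_eq_of_lt h2).symm
  · have h3 : i + 1 = (a :: C).length := by omega
    have e2 : (a :: C ++ [a])[i+1] = a := by
      rw [List.getElem_append_right (by omega)]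
      simp
    rw [e2]
    have : (i + 1) % (a :: C).length = 0 := by rw [h3]; exact Nat.mod_self _
    simp only [this]
    rfl

/-- Potentials from permutations. -/
theorem exists_potential_of_perm [Fintype V] [DecidableEq V] {r : V → V → Prop}
    (hr : ∀ x, r x x) {w : V → V → ℤˣ} (hw : ∀ x, w x x = 1)
    (h : ∀ π : Equiv.Perm V, (∀ i, r i (π i)) → ∏ i, w i (π i) = 1) :
    ∃ θ : V → ℤˣ, ∀ π : Equiv.Perm V, (∀ i, r i (π i)) → ∀ i, w i (π i) = θ i * θ (π i) := by
  obtain ⟨θ, hθ⟩ := exists_potential hr (w := w) (by
    intro C hC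
    have h1 := cchain_formPerm hC.nd
    rw [csign_of_fun w _ C h1]
    have hval : ∀ i, r i (C.formPerm i) := by
      intro i
      by_cases hi : i ∈ C
      · obtain ⟨A, B, rfl⟩ := List.append_of_mem hi
        have h2 : CChain (fun x y => y = (A ++ i :: B).formPerm x) (i :: B ++ A) :=
          cchain_append_comm h1
        have h3 : CChain r (i :: B ++ A) := cchain_append_comm hC.ch
        simp only [List.cons_append, cchain_cons] at h2 h3
        rcases hBA : B ++ A with _ | ⟨z, t⟩
        · rw [hBA] at h2 h3
          simp only [List.nil_append, List.isChain_cons_cons] at h2 h3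
          rw [← h2.1]; exact h3.1
        · rw [hBA] at h2 h3
          simp only [List.cons_append, List.isChain_cons_cons] at h2 h3
          rw [← h2.1]; exact h3.1
      · rw [List.formPerm_apply_of_notMem hi]
        exact hr i
    have h2 := h _ hval
    rw [← List.prod_toFinset _ hC.nd]
    rw [← h2]
    apply Finset.prod_subset (Finset.subset_univ _)
    intro x _ hx
    rw [List.mem_toFinset] at hx
    rw [List.formPerm_apply_of_notMem hx]
    exact hw x)
  refine ⟨θ, fun π hπ i => hθ i (π i) (hπ i) ?_⟩
  -- reach `i` from `π i`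
  have hpow : ∀ n : ℕ, Relation.ReflTransGen r (π i) ((π ^ n) (π i)) := by
    intro n
    induction n with
    | zero => exact .refl
    | succ n ih =>
      refine ih.tail ?_
      rw [pow_succ', Equiv.Perm.mul_apply]
      exact hπ _
  have h3 := hpow (orderOf π - 1)
  have h4 : (π ^ (orderOf π - 1)) (π i) = i := by
    rw [← Equiv.Perm.mul_apply, ← pow_succ, Nat.sub_add_cancel (orderOf_pos π), pow_orderOf_eq_one]
    rfl
  rwa [h4] at h3

end NPP
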