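import Pool.Agent.helper50.NPP.Linkage
import Pool.Agent.helper50.NPP.Potential

/-! Covers: permutations which encode a linkage and disjoint cycles. -/

namespace NPP

variable {V : Type*}

/-- weight of an arc of a cover -/
noncomputable def cw (w : V → V → ℤˣ) (f : Sym2 V) (u v : V) : ℤˣ := by
  classical exact if u ∈ f ∨ u = v then 1 else w u v

theorem cw_mem (w : V → V → ℤˣ) {f : Sym2 V} {u : V} (h : u ∈ f) (v : V) : cw w f u v = 1 := by
  simp [cw, h]

theorem cw_self (w : V → V → ℤˣ) (f : Sym2 V) (u : V) : cw w f u u = 1 := by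
  simp [cw]

theorem cw_of (w : V → V → ℤˣ) {f : Sym2 V} {u v : V} (h : u ∉ f) (h' : u ≠ v) :
    cw w f u v = w u v := by
  simp [cw, h, h']

structure Cover (K : V → V → Prop) (e f : Sym2 V) (τ : Equiv.Perm V) : Prop where
  inF : ∀ v ∈ f, τ v ∈ e
  outF : ∀ v, v ∉ f → τ v = v ∨ K v (τ v)

/-- the product of the weights of a cover along a path of it -/
theorem prod_cw_path (w : V → V → ℤˣ) (f : Sym2 V) (τ : Equiv.Perm V) {l : List V} {y : V}
    (hl : l.getLast? = some y) (hy : y ∈ f) (hnd : l.Nodup)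
    (hch : l.IsChain (fun a b => b = τ a ∧ a ∉ f)) :
    (l.map fun v => cw w f v (τ v)).prod = lsign w l := by
  induction l with
  | nil => simp
  | cons a t ih =>
    cases t with
    | nil =>
      simp only [List.getLast?_singleton, Option.some.injEq] at hl
      subst hl
      simp [cw_mem w hy]
    | cons b t =>
      rw [List.isChain_cons_cons] at hch
      rw [List.nodup_cons] at hnd
      rw [List.getLast?_cons_cons] at hl
      have hab : a ≠ b := by
        rintro rfl
        exact hnd.1 (by simp)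
      rw [List.map_cons, List.prod_cons, ih hl hnd.2 hch.2, lsign_cons_cons, ← hch.1.1,
        cw_of w hch.1.2 hab]

variable [Fintype V] [DecidableEq V]

/-- the part of a cover outside its linkage -/
theorem prod_rest {K : V → V → Prop} {w : V → V → ℤˣ} {f : Sym2 V} (τ : Equiv.Perm V) :
    ∀ n, ∀ S : Finset V, S.card ≤ n → (∀ v ∈ S, τ v ∈ S) → (∀ v ∈ S, v ∉ f) →
      (∀ v ∈ S, τ v = v ∨ K v (τ v)) →
      (∀ C, Cyc K C → (∀ x ∈ C, x ∈ S) → csign w C = 1) →
      ∏ v ∈ S, cw w f v (τ v) = 1 := by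
  intro n
  induction n with
  | zero =>
    intro S hS _ _ _ _
    have : S = ∅ := Finset.card_eq_zero.1 (by omega)
    subst this
    simp
  | succ n ih =>
    intro S hS hcl hf hK hHC
    rcases S.eq_empty_or_nonempty with rfl | ⟨v, hv⟩
    · simp
    by_cases hfix : τ v = v
    · -- a fixed point
      rw [← Finset.mul_prod_erase S _ hv]
      have h1 : cw w f v (τ v) = 1 := by rw [hfix]; exact cw_self w f v
      rw [h1, one_mul]
      apply ih
      · rw [Finset.card_erase_of_mem hv]; omega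
      · intro u hu
        rw [Finset.mem_erase] at hu ⊢
        refine ⟨?_, hcl u hu.2⟩
        intro h
        exact hu.1 (τ.injective (h.trans hfix.symm))
      · intro u hu
        exact hf u (Finset.mem_of_mem_erase hu)
      · intro u hu
        exact hK u (Finset.mem_of_mem_erase hu)
      · intro C hC hCS
        exact hHC C hC fun x hx => Finset.mem_of_mem_erase (hCS x hx)
    · have hsupp : v ∈ τ.support := Equiv.Perm.mem_support.2 hfix
      have hmem : ∀ x, x ∈ τ.toList v ↔ τ.SameCycle v x := by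
        intro x
        rw [Equiv.Perm.mem_toList_iff]
        simp [hsupp]
      have hCS : ∀ x ∈ τ.toList v, x ∈ S := by
        intro x hx
        rw [hmem] at hx
        obtain ⟨k, hk⟩ := hx.exists_pow_eq'
        rw [← hk.2]
        clear hk
        induction k with
        | zero => exact hv
        | succ k ihk =>
          rw [pow_succ', Equiv.Perm.mul_apply]
          exact hcl _ ihk
      have hC0 : CChain (fun x y => y = τ x) (τ.toList v) := by
        have h1 := cchain_formPerm (Equiv.Perm.nodup_toList τ v)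
        rw [Equiv.Perm.formPerm_toList] at h1
        unfold CChain at h1 ⊢
        refine h1.imp_of_mem_imp ?_
        intro a b ha _ hab
        have ha' : a ∈ τ.toList v := by
          rcases List.mem_append.1 ha with h | h
          · exact h
          · rw [Option.mem_toList] at h
            exact List.mem_of_head? h
        rw [hab]
        exact ((hmem a).1 ha').cycleOf_apply
      have hne : τ.toList v ≠ [] := by
        rw [Ne, Equiv.Perm.toList_eq_nil_iff]
        exact fun h => h hsupp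
      have hCyc : Cyc K (τ.toList v) := by
        refine ⟨Equiv.Perm.nodup_toList τ v, hne, ?_⟩
        unfold CChain at hC0 ⊢
        refine hC0.imp_of_mem_imp ?_
        intro a b ha _ hab
        have ha' : a ∈ τ.toList v := by
          rcases List.mem_append.1 ha with h | h
          · exact h
          · rw [Option.mem_toList] at h
            exact List.mem_of_head? h
        rw [hab]
        rcases hK a (hCS a ha') with h | h
        · exfalso
          have h2 := (hmem a).1 ha'
          have h3 : a ∈ τ.support := h2.mem_support_iff.1 hsupp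
          exact Equiv.Perm.mem_support.1 h3 h
        · exact h
      have hsub : (τ.toList v).toFinset ⊆ S := by
        intro x hx
        exact hCS x (List.mem_toFinset.1 hx)
      rw [← Finset.prod_sdiff hsub]
      have h1 : ∏ x ∈ (τ.toList v).toFinset, cw w f x (τ x) = 1 := by
        rw [List.prod_toFinset _ (Equiv.Perm.nodup_toList τ v)]
        rw [← hHC _ hCyc hCS, csign_of_fun w _ _ hC0]
        congr 1
        apply List.map_congr_left
        intro a ha
        refine cw_of w (hf a (hCS a ha)) ?_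
        have h3 : a ∈ τ.support := ((hmem a).1 ha).mem_support_iff.1 hsupp
        exact fun h => Equiv.Perm.mem_support.1 h3 h.symm
      rw [h1, mul_one]
      have hvm : v ∈ (τ.toList v).toFinset := by
        rw [List.mem_toFinset, hmem]
      apply ih
      · have := Finset.card_sdiff_of_subset hsub
        have h3 : 0 < (τ.toList v).toFinset.card := Finset.card_pos.2 ⟨v, hvm⟩
        omega
      · intro u hu
        rw [Finset.mem_sdiff, List.mem_toFinset, hmem] at hu ⊢
        refine ⟨hcl u hu.1, ?_⟩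
        rw [Equiv.Perm.sameCycle_apply_right]
        exact hu.2
      · intro u hu
        exact hf u (Finset.mem_sdiff.1 hu).1
      · intro u hu
        exact hK u (Finset.mem_sdiff.1 hu).1
      · intro C hC hCS'
        exact hHC C hC fun x hx => (Finset.mem_sdiff.1 (hCS' x hx)).1

/-- the path which follows `τ` from `x` to the first vertex of `Y` -/
theorem exists_trail (τ : Equiv.Perm V) (Y : V → Prop) {x : V} (hx : Y (τ⁻¹ x)) :
    ∃ n : ℕ, Y ((τ ^ n) x) ∧ ∀ m < n, ¬ Y ((τ ^ m) x) := by
  have h : ∃ n : ℕ, Y ((τ ^ n) x) := by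
    refine ⟨orderOf τ - 1, ?_⟩
    have : τ ^ (orderOf τ - 1) = τ⁻¹ := by
      rw [eq_inv_iff_mul_eq_one, ← pow_succ, Nat.sub_add_cancel (orderOf_pos τ), pow_orderOf_eq_one]
    rw [this]
    exact hx
  classical
  exact ⟨Nat.find h, Nat.find_spec h, fun m hm => Nat.find_min h hm⟩

/-- the list `x, τ x, …, τ ^ n x` -/
def trail (τ : Equiv.Perm V) (n : ℕ) (x : V) : List V := (List.range (n + 1)).map fun i => (τ ^ i) x

theorem trail_getElem (τ : Equiv.Perm V) (n : ℕ) (x : V) (i : ℕ) (hi : i < (trail τ n x).length) :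
    (trail τ n x)[i] = (τ ^ i) x := by
  simp [trail]

theorem trail_length (τ : Equiv.Perm V) (n : ℕ) (x : V) : (trail τ n x).length = n + 1 := by
  simp [trail]

theorem mem_trail {τ : Equiv.Perm V} {n : ℕ} {x v : V} : v ∈ trail τ n x ↔ ∃ i ≤ n, (τ ^ i) x = v := by
  simp [trail, Nat.lt_succ_iff]

theorem trail_head? (τ : Equiv.Perm V) (n : ℕ) (x : V) : (trail τ n x).head? = some x := by
  rw [List.head?_eq_getElem?, List.getElem?_eq_getElem (by rw [trail_length]; omega), trail_getElem]
  simp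

theorem trail_getLast? (τ : Equiv.Perm V) (n : ℕ) (x : V) :
    (trail τ n x).getLast? = some ((τ ^ n) x) := by
  rw [List.getLast?_eq_getElem?, List.getElem?_eq_getElem (by rw [trail_length]; omega),
    trail_getElem, trail_length]
  simp

theorem trail_chain {τ : Equiv.Perm V} {Y : V → Prop} {n : ℕ} {x : V}
    (hn : ∀ m < n, ¬ Y ((τ ^ m) x)) : (trail τ n x).IsChain (fun a b => b = τ a ∧ ¬ Y a) := by
  rw [List.isChain_iff_getElem]
  intro i hi
  rw [trail_getElem, trail_getElem]
  rw [trail_length] at hi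
  refine ⟨?_, hn i (by omega)⟩
  rw [pow_succ', Equiv.Perm.mul_apply]

theorem trail_nodup {τ : Equiv.Perm V} {Y : V → Prop} {n : ℕ} {x : V} (hx : Y (τ⁻¹ x))
    (hn : ∀ m < n, ¬ Y ((τ ^ m) x)) : (trail τ n x).Nodup := by
  unfold trail
  refine List.Nodup.map_on ?_ List.nodup_range
  have key : ∀ i j, i < j → j ≤ n → (τ ^ i) x ≠ (τ ^ j) x := by
    intro i j hij hj h
    obtain ⟨k, rfl⟩ := Nat.exists_eq_add_of_lt hij
    have e1 : τ ^ (i + k + 1) = τ ^ i * (τ * τ ^ k) := by
      rw [← pow_succ', ← pow_add]; congr 1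
    rw [e1, Equiv.Perm.mul_apply, Equiv.Perm.mul_apply] at h
    have h2 := (τ ^ i).injective h
    have h3 : τ⁻¹ x = (τ ^ k) x := by
      rw [Equiv.Perm.inv_eq_iff_eq]; exact h2
    exact hn k (by omega) (h3 ▸ hx)
  intro i hi j hj hij
  rw [List.mem_range] at hi hj
  rcases lt_trichotomy i j with h | h | h
  · exact absurd hij (key i j h (by omega))
  · exact h
  · exact absurd hij.symm (key j i h (by omega))

theorem trail_disjoint {τ : Equiv.Perm V} {Y : V → Prop} {n n' : ℕ} {x x' : V} (hx : Y (τ⁻¹ x))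
    (hx' : Y (τ⁻¹ x')) (hne : x ≠ x')
    (hn : ∀ m < n, ¬ Y ((τ ^ m) x)) (hn' : ∀ m < n', ¬ Y ((τ ^ m) x')) :
    List.Disjoint (trail τ n x) (trail τ n' x') := by
  have key : ∀ (n' : ℕ) (x x' : V), Y (τ⁻¹ x) → x ≠ x' →
      (∀ m < n', ¬ Y ((τ ^ m) x')) → ∀ i j, i ≤ j → j ≤ n' → (τ ^ i) x ≠ (τ ^ j) x' := by
    intro n' x x' hx hne hn' i j hij hj h
    obtain ⟨k, rfl⟩ := Nat.exists_eq_add_of_le hij
    rw [pow_add, Equiv.Perm.mul_apply] at h
    have h2 := (τ ^ i).injective h
    rcases k with _ | k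
    · exact hne (by simpa using h2)
    · rw [pow_succ', Equiv.Perm.mul_apply] at h2
      have h3 : τ⁻¹ x = (τ ^ k) x' := by
        rw [Equiv.Perm.inv_eq_iff_eq]; exact h2
      exact hn' k (by omega) (h3 ▸ hx)
  intro v hv hv'
  rw [mem_trail] at hv hv'
  obtain ⟨i, hi, hiv⟩ := hv
  obtain ⟨j, hj, hjv⟩ := hv'
  rcases le_total i j with h | h
  · exact key n' x x' hx hne hn' i j h hj (hiv.trans hjv.symm)
  · exact key n x' x hx' hne.symm hn j i h hi (hjv.trans hiv.symm)

theorem Cover.inv_mem {K : V → V → Prop} {e f : Sym2 V} (hf : ¬ f.IsDiag)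
    {τ : Equiv.Perm V} (hτ : Cover K e f τ) {x : V} (hx : x ∈ e) : τ⁻¹ x ∈ f := by
  induction f using Sym2.ind with
  | _ c d =>
    have hcd : c ≠ d := by simpa using hf
    have h1 := hτ.inF c (by simp)
    have h2 := hτ.inF d (by simp)
    have h3 : e = s(τ c, τ d) := ((Sym2.mem_and_mem_iff (fun h => hcd (τ.injective h))).1 ⟨h1, h2⟩)
    rw [h3, Sym2.mem_iff] at hx
    rcases hx with rfl | rfl <;> simp

/-- a cover contains a linkage; the rest of it is closed -/
theorem cover_prod {K : V → V → Prop} {w : V → V → ℤˣ} {e f : Sym2 V} (he : ¬ e.IsDiag)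
    (hf : ¬ f.IsDiag) {s0 : ℤˣ} (hc : LConst K w e f s0)
    (hHC : ∀ l₁ l₂ C, Lk K e f l₁ l₂ → Cyc K C → (∀ x ∈ C, x ∉ l₁ ∧ x ∉ l₂) → csign w C = 1)
    {τ : Equiv.Perm V} (hτ : Cover K e f τ) : ∏ v, cw w f v (τ v) = s0 := by
  obtain ⟨a, b, rfl⟩ : ∃ a b, e = s(a, b) := by
    induction e using Sym2.ind with
    | _ a b => exact ⟨a, b, rfl⟩
  have hab : a ≠ b := by simpa using he
  have ha := hτ.inv_mem hf (x := a) (by simp)
  have hb := hτ.inv_mem hf (x := b) (by simp)
  obtain ⟨n, hn, hn'⟩ := exists_trail τ (· ∈ f) ha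
  obtain ⟨m, hm, hm'⟩ := exists_trail τ (· ∈ f) hb
  set l₁ := trail τ n a with hl₁
  set l₂ := trail τ m b with hl₂
  have nd1 : l₁.Nodup := trail_nodup (Y := (· ∈ f)) ha hn'
  have nd2 : l₂.Nodup := trail_nodup (Y := (· ∈ f)) hb hm'
  have hdis : l₁.Disjoint l₂ := trail_disjoint (Y := (· ∈ f)) ha hb hab hn' hm'
  have ch1 : l₁.IsChain (fun a b => b = τ a ∧ a ∉ f) := trail_chain (Y := (· ∈ f)) hn'
  have ch2 : l₂.IsChain (fun a b => b = τ a ∧ a ∉ f) := trail_chain (Y := (· ∈ f)) hm'
  have hfeq : f = s((τ ^ n) a, (τ ^ m) b) := by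
    refine (Sym2.mem_and_mem_iff ?_).1 ⟨hn, hm⟩
    intro h
    exact hdis (mem_trail.2 ⟨n, le_rfl, rfl⟩) (mem_trail.2 ⟨m, le_rfl, h.symm⟩)
  have chK : ∀ l : List V, l.Nodup → l.IsChain (fun a b => b = τ a ∧ a ∉ f) → l.IsChain K := by
    intro l
    induction l with
    | nil => simp
    | cons x t ih =>
      intro hnd hch
      cases t with
      | nil => simp
      | cons y t =>
        rw [List.isChain_cons_cons] at hch ⊢
        rw [List.nodup_cons] at hnd
        refine ⟨?_, ih hnd.2 hch.2⟩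
        rcases hτ.outF x hch.1.2 with h | h
        · exfalso
          apply hnd.1
          rw [hch.1.1, h]
          simp
        · rw [hch.1.1]; exact h
  have hLk : Lk K s(a, b) f l₁ l₂ := by
    refine ⟨chK _ nd1 ch1, chK _ nd2 ch2, ?_, ⟨a, b, trail_head? _ _ _, trail_head? _ _ _, rfl⟩,
      ⟨_, _, trail_getLast? _ _ _, trail_getLast? _ _ _, hfeq.symm⟩⟩
    exact List.Nodup.append nd1 nd2 hdis
  have hs := hc _ _ hLk
  rw [← hs]
  rw [← prod_cw_path w f τ (trail_getLast? _ _ _) hn nd1 ch1,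
    ← prod_cw_path w f τ (trail_getLast? _ _ _) hm nd2 ch2]
  rw [← List.prod_toFinset _ nd1, ← List.prod_toFinset _ nd2]
  have hdF : Disjoint l₁.toFinset l₂.toFinset := by
    rw [Finset.disjoint_left]
    intro x hx hx'
    exact hdis (List.mem_toFinset.1 hx) (List.mem_toFinset.1 hx')
  rw [← Finset.prod_union hdF]
  have hsub : l₁.toFinset ∪ l₂.toFinset ⊆ Finset.univ := Finset.subset_univ _
  rw [← Finset.prod_sdiff hsub]
  have hmem : ∀ v, v ∈ Finset.univ \ (l₁.toFinset ∪ l₂.toFinset) ↔ v ∉ l₁ ∧ v ∉ l₂ := by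
    intro v
    simp
  have hfl : ∀ v ∈ f, v ∈ l₁ ∨ v ∈ l₂ := by
    intro v hv
    rw [hfeq, Sym2.mem_iff] at hv
    rcases hv with rfl | rfl
    · exact Or.inl (mem_trail.2 ⟨n, le_rfl, rfl⟩)
    · exact Or.inr (mem_trail.2 ⟨m, le_rfl, rfl⟩)
  have hpred : ∀ (k : ℕ) (x v : V), x ∈ s(a, b) → τ v ∈ trail τ k x → v ∉ f → v ∈ trail τ k x := by
    intro k x v hx hv hvf
    rw [mem_trail] at hv ⊢
    obtain ⟨i, hi, hiv⟩ := hv
    rcases i with _ | i
    · exfalso
      apply hvf
      have : v = τ⁻¹ x := by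
        rw [Equiv.Perm.eq_inv_iff_eq]
        simpa using hiv.symm
      rw [this]
      exact hτ.inv_mem hf hx
    · rw [pow_succ', Equiv.Perm.mul_apply] at hiv
      exact ⟨i, by omega, τ.injective hiv⟩
  have hrest : ∏ v ∈ Finset.univ \ (l₁.toFinset ∪ l₂.toFinset), cw w f v (τ v) = 1 := by
    refine prod_rest (K := K) τ _ _ le_rfl ?_ ?_ ?_ ?_
    · intro v hv
      rw [hmem] at hv ⊢
      have hvf : v ∉ f := fun h => (hfl v h).elim hv.1 hv.2
      exact ⟨fun h => hv.1 (hpred n a v (by simp) h hvf), fun h => hv.2 (hpred m b v (by simp) h hvf)⟩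
    · intro v hv hvf
      rw [hmem] at hv
      exact (hfl v hvf).elim hv.1 hv.2
    · intro v hv
      rw [hmem] at hv
      exact hτ.outF v fun h => (hfl v h).elim hv.1 hv.2
    · intro C hC hCS
      exact hHC _ _ C hLk hC fun x hx => (hmem x).1 (hCS x hx)
  rw [hrest, one_mul]

end NPP
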