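import Mathlib

/-! The negative pair property of signed graphs: definitions. A signed graph is a simple graph `G`
with a sign `σ e` in `ℤˣ = {1, -1}` for each edge `e`. -/

namespace NPP

open SimpleGraph

variable {V : Type*}

/-- The sign of a walk: the product of the signs of its edges. -/
def wsign {G : SimpleGraph V} (σ : Sym2 V → ℤˣ) {u v : V} (p : G.Walk u v) : ℤˣ :=
  (p.edges.map σ).prod

/-- Some negative circle of the signed graph `(G, σ)` contains both `e` and `f`. -/
def NegPair (G : SimpleGraph V) (σ : Sym2 V → ℤˣ) (e f : Sym2 V) : Prop :=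
  ∃ (u : V) (c : G.Walk u u), c.IsCycle ∧ e ∈ c.edges ∧ f ∈ c.edges ∧ wsign σ c = -1

/-- The negative pair property of the signed graph `(G, σ)`: any two edges lie together in some
negative circle. -/
def NegPairProperty (G : SimpleGraph V) (σ : Sym2 V → ℤˣ) : Prop :=
  ∀ e ∈ G.edgeSet, ∀ f ∈ G.edgeSet, e ≠ f → NegPair G σ e f

/-- The signed graph `(G, σ)` is unbalanced: it has a negative circle. -/
def Unbalanced (G : SimpleGraph V) (σ : Sym2 V → ℤˣ) : Prop :=
  ∃ (u : V) (c : G.Walk u u), c.IsCycle ∧ wsign σ c = -1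

/-- `G` is `k`-connected: it has more than `k` vertices, and it stays connected when fewer than
`k` vertices are deleted. -/
def KConn [Fintype V] (k : ℕ) (G : SimpleGraph V) : Prop :=
  k + 1 ≤ Fintype.card V ∧ ∀ S : Finset V, S.card < k → (G.induce {v | v ∉ S}).Connected

/-- The vertex `v` is unavoidable for `e` and `f`: every circle which contains `e` and `f` passes
through `v`. -/
def Unavoidable (G : SimpleGraph V) (e f : Sym2 V) (v : V) : Prop :=
  ∀ (u : V) (c : G.Walk u u), c.IsCycle → e ∈ c.edges → f ∈ c.edges → v ∈ c.support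

/-- The vertices `v` and `w` separate `e` from `f`: every walk from an end of `e` to an end of `f`
meets `{v, w}`. -/
def Separates (G : SimpleGraph V) (e f : Sym2 V) (v w : V) : Prop :=
  ∀ a ∈ e, ∀ b ∈ f, ∀ p : G.Walk a b, v ∈ p.support ∨ w ∈ p.support

/-- Some circle through `e` and `f` traverses the edge `uv` from `u` to `v`, when the two arcs
between `e` and `f` into which it is cut by `e` and `f` are oriented from `e` to `f`. (The circle is
written as `e = ab`, the arc `p` from `b` to `c`, `f = cd`, and the other arc `q` from `d` to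
`a`.) -/
def Traversed (G : SimpleGraph V) (e f : Sym2 V) (u v : V) : Prop :=
  ∃ (a b c d : V) (hab : G.Adj a b) (p : G.Walk b c) (hcd : G.Adj c d) (q : G.Walk d a),
    s(a, b) = e ∧ s(c, d) = f ∧ (Walk.cons hab (p.append (Walk.cons hcd q))).IsCycle ∧
      ∃ D ∈ p.darts, D.fst = u ∧ D.snd = v

/-- The closed walk `c` is one-sided for `e` and `f`: every edge of `c` is traversed, in one of its
two directions, by a circle through `e` and `f`; and for every unavoidable vertex `x` all edges
`xy` of `c` are traversed from `x` to `y`, or all of them are traversed from `y` to `x`. -/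
def OneSided (G : SimpleGraph V) (e f : Sym2 V) {u : V} (c : G.Walk u u) : Prop :=
  (∀ x y, s(x, y) ∈ c.edges → Traversed G e f x y ∨ Traversed G e f y x) ∧
  ∀ x, Unavoidable G e f x →
    (∀ y, s(x, y) ∈ c.edges → Traversed G e f x y) ∨
    (∀ y, s(x, y) ∈ c.edges → Traversed G e f y x)

/-- A certificate that no negative circle contains `e` and `f`. -/
structure Certificate [Fintype V] (G : SimpleGraph V) (σ : Sym2 V → ℤˣ) (e f : Sym2 V)
    (α β : V → ℤˣ) : Prop where
  one_f : ∀ v ∈ f, α v = 1
  one_e : ∀ v ∈ e, β v = 1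
  eq_avoidable : ∀ v, ¬ Unavoidable G e f v → α v = β v
  arc : ∀ u v, Traversed G e f u v → σ s(u, v) = α u * β v
  prod : σ e * σ f * ∏ v, (α v * β v) = 1

/-- `(A, B)` is a separation of `G` with `A ∩ B = {x, y}`. -/
structure TwoSep (G : SimpleGraph V) (A B : Set V) (x y : V) : Prop where
  ne : x ≠ y
  inter : A ∩ B = {x, y}
  union : A ∪ B = Set.univ
  edge : ∀ u v, G.Adj u v → (u ∈ A ∧ v ∈ A) ∨ (u ∈ B ∧ v ∈ B)

/-- The edges `e` and `f` lie on different sides of the separation `(A, B)`. -/
def SeparatedBy (x y : V) (A B : Set V) (e f : Sym2 V) : Prop :=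
  (∀ v ∈ e, v ∈ A) ∧ (∀ v ∈ f, v ∈ B) ∧ e ≠ s(x, y) ∧ f ≠ s(x, y)

/-- The edges `e` and `f` lie in one piece: no `2`-separation of `G` has `e` and `f` on different
sides. -/
def SamePiece (G : SimpleGraph V) (e f : Sym2 V) : Prop :=
  ∀ (A B : Set V) (x y : V), TwoSep G A B x y → ¬ SeparatedBy x y A B e f

/-- Some circle contains `e`, `f` and `g`. -/
def OnCircle (G : SimpleGraph V) (e f g : Sym2 V) : Prop :=
  ∃ (u : V) (c : G.Walk u u), c.IsCycle ∧ e ∈ c.edges ∧ f ∈ c.edges ∧ g ∈ c.edges

/-- The side `A` of a `2`-separation forces the sign `s`: it contains an edge `e ≠ xy` such that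
all paths from `x` to `y` inside `A` through `e` have the sign `s`. -/
def Forces (G : SimpleGraph V) (σ : Sym2 V → ℤˣ) (A : Set V) (x y : V) (s : ℤˣ) : Prop :=
  ∃ e ∈ G.edgeSet, (∀ v ∈ e, v ∈ A) ∧ e ≠ s(x, y) ∧
    ∀ p : G.Walk x y, p.IsPath → (∀ v ∈ p.support, v ∈ A) → e ∈ p.edges → wsign σ p = s

end NPP
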