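import Pool.Agent.helper50.NPP.Split

/-! Connectivity of complete graphs, and `k`-connected graphs with one negative edge. -/

namespace NPP

open SimpleGraph

variable {V : Type*} [Fintype V] [DecidableEq V] {G : SimpleGraph V}

omit [DecidableEq V] in
theorem KConn.mono {j k : ℕ} (hjk : j ≤ k) (h : KConn k G) : KConn j G :=
  ⟨by have := h.1; omega, fun S hS => h.2 S (by omega)⟩

theorem kConn_complete (k : ℕ) : KConn k (⊤ : SimpleGraph (Fin (k + 1))) := by
  refine ⟨by simp, fun S hS => ?_⟩
  have hne : ∃ v : Fin (k + 1), v ∉ S := by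
    by_contra h
    push Not at h
    have : S = Finset.univ := Finset.eq_univ_iff_forall.2 h
    rw [this, Finset.card_univ, Fintype.card_fin] at hS
    omega
  obtain ⟨v, hv⟩ := hne
  haveI : Nonempty {v : Fin (k + 1) | v ∉ S} := ⟨⟨v, hv⟩⟩
  have : (⊤ : SimpleGraph (Fin (k + 1))).induce {v | v ∉ S} = ⊤ := by
    ext a b
    simp [Subtype.ext_iff]
  rw [this]
  exact connected_top

end NPP
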