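import Pool.Agent.helper50.NPP.Pair

/-! Three-connected graphs: covers through a given arc, and three spurs. -/

namespace NPP

variable {V : Type*} [Fintype V] [DecidableEq V]

/-- closed neighbourhood -/
noncomputable def nb (G : SimpleGraph V) (u : V) : Finset V := by
  classical exact Finset.univ.filter fun v => v = u ∨ G.Adj u v

theorem mem_nb {G : SimpleGraph V} {u v : V} : v ∈ nb G u ↔ v = u ∨ G.Adj u v := by
  simp [nb]

theorem grow {k : ℕ} {G : SimpleGraph V} (hG : KConn k G) {S : Finset V} (hS : S.Nonempty) :
    S.biUnion (nb G) = Finset.univ ∨ S.card + k ≤ (S.biUnion (nb G)).card := by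
  by_contra hcon
  push Not at hcon
  obtain ⟨h1, h2⟩ := hcon
  obtain ⟨x, hx⟩ := hS
  obtain ⟨z, hz⟩ : ∃ z, z ∉ S.biUnion (nb G) := by
    by_contra h
    push Not at h
    exact h1 (Finset.eq_univ_iff_forall.2 h)
  have hsub : S ⊆ S.biUnion (nb G) := by
    intro v hv
    rw [Finset.mem_biUnion]
    exact ⟨v, hv, mem_nb.2 (Or.inl rfl)⟩
  set T := S.biUnion (nb G) \ S with hT
  have hTc : T.card < k := by
    rw [hT, Finset.card_sdiff_of_subset hsub]
    have := Finset.card_le_card hsub
    omega
  have hconn := hG.2 T hTc
  have hxT : x ∉ T := by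
    rw [hT, Finset.mem_sdiff]
    exact fun h => h.2 hx
  have hzT : z ∉ T := by
    rw [hT, Finset.mem_sdiff]
    exact fun h => hz h.1
  obtain ⟨p⟩ := hconn.preconnected ⟨x, hxT⟩ ⟨z, hzT⟩
  obtain ⟨d, -, hd1, hd2⟩ := p.exists_boundary_dart {v | v.1 ∈ S} hx (fun h => hz (hsub h))
  have hadj : G.Adj d.fst.1 d.snd.1 := d.adj
  exact d.snd.2 (Finset.mem_sdiff.2
    ⟨Finset.mem_biUnion.2 ⟨d.fst.1, hd1, mem_nb.2 (Or.inr hadj)⟩, hd2⟩)

/-- a permutation which moves along edges, except that it maps `Y` into `X` -/
theorem exists_perm_of_sets {k : ℕ} {G : SimpleGraph V} (hG : KConn k G) {X Y : Finset V}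
    (hXY : Y.card ≤ X.card) (hY : Y.card ≤ k) :
    ∃ τ : Equiv.Perm V, (∀ y ∈ Y, τ y ∈ X) ∧ ∀ v, v ∉ Y → τ v = v ∨ G.Adj v (τ v) := by
  obtain ⟨g, hg, hgt⟩ := (Finset.all_card_le_biUnion_card_iff_exists_injective
    (fun i => if i ∈ Y then X else nb G i)).1 (by
      intro S
      by_cases h0 : (S.filter fun i => i ∉ Y).Nonempty
      · have hsub : (S.filter fun i => i ∉ Y).biUnion (nb G) ⊆
            S.biUnion fun i => if i ∈ Y then X else nb G i := by
          intro v hv
          rw [Finset.mem_biUnion] at hv ⊢
          obtain ⟨i, hi, hv⟩ := hv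
          rw [Finset.mem_filter] at hi
          exact ⟨i, hi.1, by rw [if_neg hi.2]; exact hv⟩
        refine le_trans ?_ (Finset.card_le_card hsub)
        rcases grow hG h0 with h | h
        · rw [h]; exact Finset.card_le_univ S
        · refine le_trans ?_ h
          have h1 := Finset.card_filter_add_card_filter_not (s := S) (fun i => i ∈ Y)
          have h2 : (S.filter fun i => i ∈ Y).card ≤ Y.card := by
            apply Finset.card_le_card
            intro v hv
            exact (Finset.mem_filter.1 hv).2
          omega
      · rcases S.eq_empty_or_nonempty with rfl | ⟨i, hi⟩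
        · simp
        · rw [Finset.not_nonempty_iff_eq_empty, Finset.filter_eq_empty_iff] at h0
          have hSY : S ⊆ Y := fun v hv => by
            by_contra h
            exact h0 hv h
          have hsub : X ⊆ S.biUnion fun i => if i ∈ Y then X else nb G i := by
            intro v hv
            rw [Finset.mem_biUnion]
            exact ⟨i, hi, by rw [if_pos (hSY hi)]; exact hv⟩
          exact (Finset.card_le_card hSY).trans (hXY.trans (Finset.card_le_card hsub)))
  refine ⟨Equiv.ofBijective g (Finite.injective_iff_bijective.1 hg), ?_, ?_⟩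
  · intro y hy
    have := hgt y
    rw [if_pos hy] at this
    exact this
  · intro v hv
    have := hgt v
    rw [if_neg hv] at this
    exact mem_nb.1 this

/-- a cover through a given arc -/
theorem exists_cover_arc {G : SimpleGraph V} (hG : KConn 3 G) {e f : Sym2 V} (he : ¬ e.IsDiag)
    (hf : ¬ f.IsDiag) {u v : V} (hu : u ∉ f) (hv : v ∉ e) (huv : v = u ∨ G.Adj u v) :
    ∃ τ : Equiv.Perm V, Cover G.Adj e f τ ∧ τ u = v := by
  classical
  obtain ⟨a, b, rfl⟩ : ∃ a b, e = s(a, b) := by
    induction e using Sym2.ind with
    | _ a b => exact ⟨a, b, rfl⟩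
  obtain ⟨c, d, rfl⟩ : ∃ a b, f = s(a, b) := by
    induction f using Sym2.ind with
    | _ a b => exact ⟨a, b, rfl⟩
  have hab : a ≠ b := by simpa using he
  have hcd : c ≠ d := by simpa using hf
  set t : V → Finset V := fun i =>
    if i = u then {v} else if i = c ∨ i = d then {a, b} else (nb G i).erase v with ht
  have hvab : v ∉ ({a, b} : Finset V) := by
    simp only [Sym2.mem_iff] at hv
    simpa using hv
  have htv : ∀ i, i ≠ u → v ∉ t i := by
    intro i hi
    simp only [ht]
    rw [if_neg hi]
    split_ifs
    · exact hvab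
    · simp
  have hall1 : ∀ S : Finset V, u ∉ S → S.card ≤ (S.biUnion t).card := by
    intro S huS
    by_cases h0 : (S.filter fun i => ¬ (i = c ∨ i = d)).Nonempty
    · have hsub : ((S.filter fun i => ¬ (i = c ∨ i = d)).biUnion (nb G)).erase v ⊆
          S.biUnion t := by
        intro z hz
        rw [Finset.mem_erase, Finset.mem_biUnion] at hz
        rw [Finset.mem_biUnion]
        obtain ⟨hzv, i, hi, hz⟩ := hz
        rw [Finset.mem_filter] at hi
        refine ⟨i, hi.1, ?_⟩
        simp only [ht]
        rw [if_neg (fun h : i = u => huS (h ▸ hi.1)), if_neg hi.2, Finset.mem_erase]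
        exact ⟨hzv, hz⟩
      refine le_trans ?_ (Finset.card_le_card hsub)
      rcases grow hG h0 with h | h
      · rw [h, Finset.card_erase_of_mem (Finset.mem_univ v)]
        have h1 : S ⊆ Finset.univ.erase u := by
          intro z hz
          rw [Finset.mem_erase]
          exact ⟨fun h => huS (h ▸ hz), Finset.mem_univ z⟩
        have h2 := Finset.card_le_card h1
        rw [Finset.card_erase_of_mem (Finset.mem_univ u)] at h2
        exact h2
      · have h1 := Finset.card_filter_add_card_filter_not (s := S) (fun i => i = c ∨ i = d)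
        have h2 : (S.filter fun i => i = c ∨ i = d).card ≤ 2 := by
          refine le_trans (Finset.card_le_card (t := {c, d}) ?_) Finset.card_le_two
          intro z hz
          simpa using (Finset.mem_filter.1 hz).2
        have h3 := Finset.pred_card_le_card_erase
          (s := (S.filter fun i => ¬ (i = c ∨ i = d)).biUnion (nb G)) (a := v)
        omega
    · rcases S.eq_empty_or_nonempty with rfl | ⟨i, hi⟩
      · simp
      · rw [Finset.not_nonempty_iff_eq_empty, Finset.filter_eq_empty_iff] at h0
        have hScd : ∀ z ∈ S, z = c ∨ z = d := fun z hz => by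
          have := h0 hz
          tauto
        have hS2 : S ⊆ {c, d} := fun z hz => by simpa using hScd z hz
        have hsub : ({a, b} : Finset V) ⊆ S.biUnion t := by
          intro z hz
          rw [Finset.mem_biUnion]
          refine ⟨i, hi, ?_⟩
          simp only [ht]
          rw [if_neg (fun h : i = u => huS (h ▸ hi)), if_pos (hScd i hi)]
          exact hz
        have h1 := Finset.card_le_card hS2
        have h2 := Finset.card_le_card hsub
        rw [Finset.card_pair hab] at h2
        rw [Finset.card_pair hcd] at h1
        omega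
  obtain ⟨g, hg, hgt⟩ := (Finset.all_card_le_biUnion_card_iff_exists_injective t).1 (by
      intro S
      by_cases huS : u ∈ S
      · have h1 := hall1 (S.erase u) (by simp)
        have h2 : insert v ((S.erase u).biUnion t) ⊆ S.biUnion t := by
          intro z hz
          rw [Finset.mem_insert, Finset.mem_biUnion] at hz
          rw [Finset.mem_biUnion]
          rcases hz with rfl | ⟨i, hi, hz⟩
          · exact ⟨u, huS, by simp [ht]⟩
          · exact ⟨i, Finset.mem_of_mem_erase hi, hz⟩
        have h3 := Finset.card_le_card h2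
        rw [Finset.card_insert_of_notMem] at h3
        · rw [Finset.card_erase_of_mem huS] at h1
          have h4 : 0 < S.card := Finset.card_pos.2 ⟨u, huS⟩
          omega
        · rw [Finset.mem_biUnion]
          rintro ⟨i, hi, hz⟩
          exact htv i (Finset.ne_of_mem_erase hi) hz
      · exact hall1 S huS)
  have hgu : g u = v := by
    have := hgt u
    simpa [ht] using this
  refine ⟨Equiv.ofBijective g (Finite.injective_iff_bijective.1 hg), ⟨?_, ?_⟩, hgu⟩
  · intro y hy
    have h1 := hgt y
    have hyu : y ≠ u := fun h => hu (h ▸ hy)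
    rw [Sym2.mem_iff] at hy
    simp only [ht] at h1
    rw [if_neg hyu, if_pos hy] at h1
    simpa using h1
  · intro y hy
    by_cases hyu : y = u
    · subst hyu
      show g y = y ∨ G.Adj y (g y)
      rw [hgu]
      exact huv
    · have h1 := hgt y
      rw [Sym2.mem_iff] at hy
      simp only [ht] at h1
      rw [if_neg hyu, if_neg hy, Finset.mem_erase] at h1
      exact mem_nb.1 h1.2

end NPP
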