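import Pool.Agent.helper50.NPP.Walks

/-! Switching functions of balanced parts. -/

namespace NPP

open SimpleGraph

variable {V : Type*} {G : SimpleGraph V}

theorem edges_of_chain {D : Sym2 V → Prop} {u v : V} (p : G.Walk u v)
    (h : p.support.IsChain fun x y => D s(x, y)) : ∀ g ∈ p.edges, D g := by
  induction p with
  | nil => simp
  | @cons u v w hadj p ih =>
    rw [Walk.support_cons, ← Walk.cons_tail_support p, List.isChain_cons_cons,
      Walk.cons_tail_support] at h
    intro g hg
    rw [Walk.edges_cons, List.mem_cons] at hg
    rcases hg with rfl | hg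
    · exact h.1
    · exact ih h.2 g hg

theorem lsign_congr {w w' : V → V → ℤˣ} (hww : ∀ x y, x ≠ y → w x y = w' x y) :
    ∀ l : List V, l.Nodup → lsign w l = lsign w' l := by
  intro l
  induction l with
  | nil => intro _; rfl
  | cons a t ih =>
    intro hn
    cases t with
    | nil => rfl
    | cons b t =>
      rw [List.nodup_cons] at hn
      rw [lsign_cons_cons, lsign_cons_cons, ih hn.2, hww a b]
      rintro rfl
      exact hn.1 (by simp)

/-- If every circle of `G` all of whose edges satisfy `D` is positive, then the edges which satisfy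
`D` have a switching function. -/
theorem exists_switching (σ : Sym2 V → ℤˣ) (D : Sym2 V → Prop)
    (h : ∀ (u : V) (c : G.Walk u u), c.IsCycle → (∀ g ∈ c.edges, D g) → wsign σ c = 1) :
    ∃ θ : V → ℤˣ, ∀ x y, G.Adj x y → D s(x, y) → σ s(x, y) = θ x * θ y := by
  classical
  set w : V → V → ℤˣ := fun x y => if x = y then 1 else σ s(x, y) with hw
  have hwne : ∀ x y, x ≠ y → w x y = σ s(x, y) := fun x y hxy => by simp [hw, hxy]
  have hwe : ∀ x, w x x = 1 := fun x => by simp [hw]
  obtain ⟨θ, hθ⟩ := exists_potential (r := fun x y => x = y ∨ (G.Adj x y ∧ D s(x, y)))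
    (fun x => Or.inl rfl) (w := w) (by
      intro C hC
      rcases C with _ | ⟨x, _ | ⟨y, _ | ⟨z, C⟩⟩⟩
      · exact absurd rfl hC.ne
      · rw [csign_cons]
        simp [hwe]
      · rw [csign_cons]
        have hnd := hC.nd
        have hxy : x ≠ y := by
          intro h
          simp [h] at hnd
        simp only [List.cons_append, List.nil_append, lsign_cons_cons, lsign_single, mul_one]
        rw [hwne x y hxy, hwne y x hxy.symm, Sym2.eq_swap, Int.units_mul_self]
      · have hnd := hC.nd
        have hch := hC.ch
        rw [cchain_cons] at hch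
        set L := x :: y :: z :: C with hL
        obtain ⟨ℓ, hℓ⟩ : ∃ ℓ, L.getLast? = some ℓ := by
          rw [hL]; simp [List.getLast?_cons]
        have hℓm : ℓ ∈ L := List.mem_of_getLast? hℓ
        have hch' := List.isChain_append.1 hch
        have hlast := hch'.2.2 ℓ hℓ x (by simp)
        have hℓx : ℓ ≠ x := by
          rintro rfl
          have h1 : (y :: z :: C).getLast? = some ℓ := by
            rw [hL, List.getLast?_cons_cons] at hℓ; exact hℓ
          rw [hL, List.nodup_cons] at hnd
          exact hnd.1 (List.mem_of_getLast? h1)
        have hadjl : G.Adj ℓ x ∧ D s(ℓ, x) := hlast.resolve_left hℓx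
        have hchain : L.IsChain fun x y => G.Adj x y ∧ D s(x, y) := by
          rw [List.isChain_iff_forall_rel_of_append_cons_cons]
          intro a b A B hAB
          have h1 := hch'.1
          have hAB' : L = A ++ a :: b :: B := hAB
          rw [List.isChain_iff_forall_rel_of_append_cons_cons] at h1
          rcases h1 hAB' with h2 | h2
          · exfalso
            subst h2
            rw [hAB'] at hnd
            have h3 := (List.nodup_append.1 hnd).2.1
            rw [List.nodup_cons] at h3
            exact h3.1 (by simp)
          · exact h2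
        obtain ⟨p, hp⟩ := exists_walk_of_list (G := G) (l := L) (x := x) (y := ℓ) rfl hℓ
          (hchain.imp fun _ _ h => h.1)
        have hpath : p.IsPath := by rw [Walk.isPath_def, hp]; exact hnd
        have hcyc : (Walk.cons hadjl.1 p).IsCycle := by
          rw [Walk.cons_isCycle_iff]
          refine ⟨hpath, fun hmem => ?_⟩
          rw [Sym2.eq_swap] at hmem
          have h1 := hpath.length_eq_one_of_mem_edges hmem
          have h2 := Walk.length_support p
          rw [hp, hL] at h2
          simp only [List.length_cons] at h2
          omega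
        have hD : ∀ g ∈ (Walk.cons hadjl.1 p).edges, D g := by
          intro g hg
          rw [Walk.edges_cons, List.mem_cons] at hg
          rcases hg with rfl | hg
          · exact hadjl.2
          · exact edges_of_chain p (by rw [hp]; exact hchain.imp fun _ _ h => h.2) g hg
        have hpos := h _ _ hcyc hD
        rw [wsign_cons, wsign_eq, hp] at hpos
        rw [csign_cons]
        have e1 : lsign w (x :: (y :: z :: C) ++ [x]) = lsign w L * w ℓ x := by
          obtain ⟨L', hL'⟩ : ∃ L', L = L' ++ [ℓ] := by
            rcases List.eq_nil_or_concat L with h0 | ⟨L', b, h0⟩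
            · simp [hL] at h0
            · refine ⟨L', ?_⟩
              rw [List.concat_eq_append] at h0
              rw [h0, List.getLast?_append] at hℓ
              simp only [List.getLast?_singleton, Option.some_or, Option.some.injEq] at hℓ
              rw [h0, hℓ]
          have e2 : x :: (y :: z :: C) ++ [x] = L' ++ ℓ :: [x] := by
            have : x :: (y :: z :: C) ++ [x] = L ++ [x] := rfl
            rw [this, hL']; simp
          rw [e2, lsign_split, ← hL']
          simp
        rw [e1, lsign_congr (w := w) (w' := fun x y => σ s(x, y)) hwne L hnd, hwne ℓ x hℓx, mul_comm]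
        exact hpos)
  refine ⟨θ, fun x y hxy hD => ?_⟩
  rw [← hwne x y hxy.ne]
  refine hθ x y (Or.inr ⟨hxy, hD⟩) (.single (Or.inr ⟨hxy.symm, ?_⟩))
  rw [Sym2.eq_swap]; exact hD

/-- the sign of a walk whose edges are switched to `+` -/
theorem wsign_of_switching {σ : Sym2 V → ℤˣ} {θ : V → ℤˣ} {u v : V} (p : G.Walk u v)
    (h : ∀ g ∈ p.edges, ∀ x y, g = s(x, y) → σ g = θ x * θ y) : wsign σ p = θ u * θ v := by
  induction p with
  | nil => rw [wsign_nil, Int.units_mul_self]
  | @cons u v w hadj p ih =>
    rw [wsign_cons, ih (fun g hg => h g (by rw [Walk.edges_cons]; exact List.mem_cons_of_mem _ hg)),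
      h s(u, v) (by simp) u v rfl]
    calc θ u * θ v * (θ v * θ w) = θ u * (θ v * θ v) * θ w := by simp only [mul_assoc]
      _ = _ := by rw [Int.units_mul_self, mul_one]

end NPP
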