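import Pool.Agent.helper50.NPP.Lists

/-! Linkages and rerouting. -/

namespace NPP

variable {V : Type*}

/-- `l₁` and `l₂` are disjoint paths of `G` which join the two ends of `e` to the two ends of `f`. -/
structure Lk (r : V → V → Prop) (e f : Sym2 V) (l₁ l₂ : List V) : Prop where
  c1 : l₁.IsChain r
  c2 : l₂.IsChain r
  nd : (l₁ ++ l₂).Nodup
  hd : ∃ x1 x2, l₁.head? = some x1 ∧ l₂.head? = some x2 ∧ s(x1, x2) = e
  lt : ∃ y1 y2, l₁.getLast? = some y1 ∧ l₂.getLast? = some y2 ∧ s(y1, y2) = f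

theorem Lk.swap {r : V → V → Prop} {e f : Sym2 V} {l₁ l₂ : List V} (h : Lk r e f l₁ l₂) :
    Lk r e f l₂ l₁ := by
  obtain ⟨x1, x2, h1, h2, h3⟩ := h.hd
  obtain ⟨y1, y2, g1, g2, g3⟩ := h.lt
  exact ⟨h.c2, h.c1, by rw [List.nodup_append_comm]; exact h.nd,
    ⟨x2, x1, h2, h1, by rw [Sym2.eq_swap]; exact h3⟩, ⟨y2, y1, g2, g1, by rw [Sym2.eq_swap]; exact g3⟩⟩

theorem Lk.mono {r r' : V → V → Prop} (hr : ∀ x y, r x y → r' x y) {e f : Sym2 V} {l₁ l₂ : List V}
    (h : Lk r e f l₁ l₂) : Lk r' e f l₁ l₂ :=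
  ⟨h.c1.imp (fun _ _ => hr _ _), h.c2.imp (fun _ _ => hr _ _), h.nd, h.hd, h.lt⟩

/-- all linkages have the same sign -/
def LConst (r : V → V → Prop) (w : V → V → ℤˣ) (e f : Sym2 V) (s0 : ℤˣ) : Prop :=
  ∀ l₁ l₂, Lk r e f l₁ l₂ → lsign w l₁ * lsign w l₂ = s0

theorem nodup_mid {A M B l : List V} (h : l.Nodup) (e : l = A ++ (M ++ B)) : M.Nodup := by
  subst e
  exact (List.nodup_append.1 (List.nodup_append.1 h).2.1).1

theorem chain_mid {r : V → V → Prop} {A M B l : List V} (h : l.IsChain r)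
    (e : l = A ++ (M ++ B)) : M.IsChain r := by
  subst e
  exact (List.isChain_append.1 (List.isChain_append.1 h).2.1).1

theorem disj_mid {A M B N D l : List V} (h : l.Nodup) (e : l = A ++ (M ++ (B ++ (N ++ D)))) :
    M.Disjoint N := by
  subst e
  intro x hx hx'
  have := (List.nodup_append.1 (List.nodup_append.1 h).2.1).2.2 x hx x (by simp [hx'])
  exact this rfl

/-- a spur from `VL` to `C` -/
structure Spur (r : V → V → Prop) (VL C : V → Prop) (a : V) (m : List V) (q : V) : Prop where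
  ch : (a :: m ++ [q]).IsChain r
  nd : (a :: m ++ [q]).Nodup
  ha : VL a
  hq : C q
  hm : ∀ x ∈ m, ¬ VL x ∧ ¬ C x

theorem disj_reverse_right {a q : V} {m N : List V} (h : N.Disjoint (q :: m ++ [a])) :
    N.Disjoint (a :: m.reverse ++ [q]) := by
  intro x hx hx'
  refine h hx ?_
  simp only [List.cons_append, List.mem_cons, List.mem_append, List.mem_reverse,
    List.not_mem_nil, or_false] at hx' ⊢
  tauto

theorem spur_mid {r : V → V → Prop} {VL C : V → Prop} {A B l m : List V} {a q : V}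
    (hch : l.IsChain r) (hnd : l.Nodup) (e : l = A ++ a :: (m ++ q :: B)) (ha : VL a) (hq : C q)
    (hm : ∀ x ∈ m, ¬ VL x ∧ ¬ C x) : Spur r VL C a m q :=
  ⟨chain_mid (A := A) (B := B) hch (by rw [e]; simp),
    nodup_mid (A := A) (B := B) hnd (by rw [e]; simp), ha, hq, hm⟩

theorem spur_mid_rev {r : V → V → Prop} (hr : ∀ x y, r x y → r y x) {VL C : V → Prop}
    {A B l m : List V} {a q : V}
    (hch : l.IsChain r) (hnd : l.Nodup) (e : l = A ++ q :: (m ++ a :: B)) (ha : VL a) (hq : C q)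
    (hm : ∀ x ∈ m, ¬ VL x ∧ ¬ C x) : Spur r VL C a m.reverse q := by
  have h1 : (q :: m ++ [a]).IsChain r := chain_mid (A := A) (B := B) hch (by rw [e]; simp)
  have h2 : (q :: m ++ [a]).Nodup := nodup_mid (A := A) (B := B) hnd (by rw [e]; simp)
  refine ⟨?_, ?_, ha, hq, ?_⟩
  · have h3 : (q :: m ++ [a]).reverse.IsChain r := by
      rw [List.isChain_reverse]
      exact h1.imp (fun a b h => hr _ _ h)
    simpa using h3
  · have h3 : (q :: m ++ [a]).reverse.Nodup := List.nodup_reverse.2 h2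
    simpa using h3
  · intro x hx
    exact hm x (by simpa using hx)

/-- a spur at the beginning of a path which starts in `VL` and meets `C` -/
theorem front_spur {r : V → V → Prop} {VL C : V → Prop} {R : List V} (hch : R.IsChain r)
    (hnd : R.Nodup) {x : V} (hx : R.head? = some x) (hxV : VL x) (hCV : ∀ z, C z → ¬ VL z)
    (hz : ∃ z ∈ R, C z) :
    ∃ F1 a F2 q E2, R = F1 ++ ((a :: F2 ++ [q]) ++ E2) ∧ Spur r VL C a F2 q := by
  obtain ⟨E1, q, E2, hE, hq, hE1⟩ := exists_first hz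
  have hxE : x ∈ E1 := by
    rcases E1 with _ | ⟨a, E1⟩
    · exfalso
      rw [hE] at hx
      simp only [List.nil_append, List.head?_cons, Option.some.injEq] at hx
      exact hCV q hq (hx ▸ hxV)
    · rw [hE] at hx
      simp only [List.cons_append, List.head?_cons, Option.some.injEq] at hx
      simp [hx]
  obtain ⟨F1, a, F2, hF, ha, hF2⟩ := exists_last (P := VL) ⟨x, hxE, hxV⟩
  refine ⟨F1, a, F2, q, E2, by rw [hE, hF]; simp, ?_⟩
  refine spur_mid (A := F1) (B := E2) hch hnd (by rw [hE, hF]; simp) ha hq ?_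
  intro y hy
  exact ⟨hF2 y hy, hE1 y (by rw [hF]; simp [hy])⟩

theorem back_spur {r : V → V → Prop} (hr : ∀ x y, r x y → r y x) {VL C : V → Prop} {R : List V}
    (hch : R.IsChain r)
    (hnd : R.Nodup) {x : V} (hx : R.getLast? = some x) (hxV : VL x) (hCV : ∀ z, C z → ¬ VL z)
    (hz : ∃ z ∈ R, C z) :
    ∃ F1 a F2 q E2, R = F1 ++ ((q :: F2 ++ [a]) ++ E2) ∧ Spur r VL C a F2.reverse q := by
  have hch' : R.reverse.IsChain r := by
    rw [List.isChain_reverse]
    exact hch.imp (fun a b h => hr _ _ h)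
  obtain ⟨F1, a, F2, q, E2, hR, hS⟩ := front_spur hch' (List.nodup_reverse.2 hnd)
    (by rw [List.head?_reverse]; exact hx) hxV hCV (by simpa using hz)
  refine ⟨E2.reverse, a, F2.reverse, q, F1.reverse, ?_, by simpa using hS⟩
  have := congrArg List.reverse hR
  simpa using this

/-- the segment of a path around a pair of consecutive vertices of `C` -/
theorem exists_segment {r : V → V → Prop} (hr : ∀ x y, r x y → r y x) {VL C : V → Prop}
    {R A' B' : List V} {p q : V} (hch : R.IsChain r) (hnd : R.Nodup)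
    (hRR : R = A' ++ p :: q :: B') (hp : C p) (hq : C q) (hCV : ∀ z, C z → ¬ VL z)
    {x y : V} (hx : R.head? = some x) (hy : R.getLast? = some y) (hxV : VL x) (hyV : VL y) :
    ∃ A s X q1 M q2 Y t B, R = A ++ ((s :: X ++ [q1]) ++ (M ++ ((q2 :: Y ++ [t]) ++ B))) ∧
      Spur r VL C s X q1 ∧ Spur r VL C t Y.reverse q2 := by
  have hxA : x ∈ A' := by
    rcases A' with _ | ⟨a, A'⟩
    · exfalso
      rw [hRR] at hx
      simp only [List.nil_append, List.head?_cons, Option.some.injEq] at hx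
      exact hCV p hp (hx ▸ hxV)
    · rw [hRR] at hx
      simp only [List.cons_append, List.head?_cons, Option.some.injEq] at hx
      simp [hx]
  have hyB : y ∈ B' := by
    rcases List.eq_nil_or_concat B' with rfl | ⟨B'', b, rfl⟩
    · exfalso
      rw [hRR] at hy
      simp only [List.getLast?_append, List.getLast?_cons_cons, List.getLast?_singleton,
        Option.some_or, Option.some.injEq] at hy
      exact hCV q hq (hy ▸ hyV)
    · rw [hRR, List.concat_eq_append] at hy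
      have : (A' ++ p :: q :: (B'' ++ [b])).getLast? = some b := by
        have e1 : A' ++ p :: q :: (B'' ++ [b]) = (A' ++ p :: q :: B'') ++ [b] := by simp
        rw [e1, List.getLast?_append]
        simp
      have h2 : y = b := by
        have h3 := hy.symm.trans this
        exact Option.some.inj h3
      simp [h2]
  obtain ⟨A1, s, A2, hA', hs, hA2⟩ := exists_last (P := VL) ⟨x, hxA, hxV⟩
  obtain ⟨B1, t, B2, hB', ht, hB1⟩ := exists_first (P := VL) ⟨y, hyB, hyV⟩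
  obtain ⟨X1, q1, X2, hX, hq1, hX1⟩ := exists_first (P := C) (l := A2 ++ [p])
    ⟨p, by simp, hp⟩
  obtain ⟨Y1, q2, Y2, hY, hq2, hY2⟩ := exists_last (P := C) (l := q :: B1)
    ⟨q, by simp, hq⟩
  have hR1 : R = A1 ++ ((s :: X1 ++ [q1]) ++ ((X2 ++ Y1) ++ ((q2 :: Y2 ++ [t]) ++ B2))) := by
    have : R = A1 ++ s :: ((A2 ++ [p]) ++ (q :: B1) ++ t :: B2) := by
      rw [hRR, hA', hB']; simp
    rw [this, hX, hY]; simp
  refine ⟨A1, s, X1, q1, X2 ++ Y1, q2, Y2, t, B2, hR1, ?_, ?_⟩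
  · refine spur_mid (A := A1) (B := (X2 ++ Y1) ++ ((q2 :: Y2 ++ [t]) ++ B2)) hch hnd
      (by rw [hR1]; simp) hs hq1 ?_
    intro x hx'
    refine ⟨?_, hX1 x hx'⟩
    have : x ∈ A2 ++ [p] := by rw [hX]; simp [hx']
    rcases List.mem_append.1 this with h | h
    · exact hA2 x h
    · rw [List.mem_singleton] at h
      exact h ▸ hCV p hp
  · refine spur_mid_rev hr (A := A1 ++ ((s :: X1 ++ [q1]) ++ (X2 ++ Y1))) (B := B2) hch hnd
      (by rw [hR1]; simp) ht hq2 ?_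
    intro x hx'
    refine ⟨?_, hY2 x hx'⟩
    have : x ∈ q :: B1 := by rw [hY]; simp [hx']
    rcases List.mem_cons.1 this with h | h
    · exact h ▸ hCV q hq
    · exact hB1 x h

section
variable {r : V → V → Prop} (hr : ∀ x y, r x y → r y x) {w : V → V → ℤˣ}
  (hw : ∀ x y, w x y = w y x) {e f : Sym2 V} {s0 : ℤˣ} (hc : LConst r w e f s0)

include hr hw hc

theorem csign_of_two_arcs {A B R C : List V} {q1 q2 : V} (hC : Cyc r C) (h1 : q1 ∈ C) (h2 : q2 ∈ C)
    (hne : q1 ≠ q2)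
    (hL : ∀ Z : List V, (q1 :: Z ++ [q2]).IsChain r → (q1 :: Z ++ [q2]).Nodup →
      (∀ z ∈ Z, z ∈ C) → Lk r e f (A ++ (q1 :: Z ++ [q2]) ++ B) R) :
    csign w C = 1 := by
  obtain ⟨X, Y, hXY, hs, hp⟩ := hC.two h1 h2 hne w
  have hnd := hXY.nd
  have hch := hXY.ch
  have key : ∀ Z : List V, lsign w (A ++ (q1 :: Z ++ [q2]) ++ B) =
      lsign w (A ++ [q1]) * lsign w (q1 :: Z ++ [q2]) * lsign w (q2 :: B) := by
    intro Z
    have e1 : A ++ (q1 :: Z ++ [q2]) ++ B = A ++ q1 :: (Z ++ q2 :: B) := by simp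
    rw [e1, lsign_split, mul_assoc]
    congr 1
    have := lsign_split w (q1 :: Z) q2 B
    simpa using this
  have hch' : (q1 :: X ++ q2 :: (Y ++ [q1])).IsChain r := by
    have : (q1 :: (X ++ q2 :: Y) ++ [q1]).IsChain r := hch
    simpa using this
  rw [List.isChain_split] at hch'
  have hmem : ∀ z, z ∈ q1 :: X ++ q2 :: Y → z ∈ C := fun z hz => hp.mem_iff.1 hz
  have L1 := hL X (by simpa using hch'.1) (by
    refine List.Nodup.sublist ?_ hnd
    simp) (fun z hz => hmem z (by simp [hz]))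
  have L2 := hL Y.reverse (by
    have := hch'.2
    have h3 : (q2 :: (Y ++ [q1])).reverse.IsChain r := by
      rw [List.isChain_reverse]
      exact this.imp (fun a b h => hr _ _ h)
    simpa using h3) (by
    have h3 : (q2 :: (Y ++ [q1])).Nodup := by
      have : (X ++ q2 :: Y ++ [q1]).Nodup := by
        rw [List.nodup_append_comm]
        simpa using hnd
      refine List.Nodup.sublist ?_ this
      simp
    have h4 := List.nodup_reverse.2 h3
    simpa using h4) (fun z hz => hmem z (by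
      simp only [List.mem_reverse] at hz
      simp [hz]))
  have e1 := hc _ _ L1
  have e2 := hc _ _ L2
  rw [key] at e1 e2
  have e3 : lsign w (q1 :: X ++ [q2]) = lsign w (q1 :: Y.reverse ++ [q2]) := by
    rw [← e2] at e1
    simpa [mul_assoc] using e1
  have e4 : lsign w (q1 :: Y.reverse ++ [q2]) = lsign w (q2 :: Y ++ [q1]) := by
    rw [← lsign_reverse w hw]
    simp
  rw [← hs]
  have e5 : csign w (q1 :: X ++ q2 :: Y) = lsign w (q1 :: X ++ [q2]) * lsign w (q2 :: Y ++ [q1]) := by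
    have := lsign_split w (q1 :: X) q2 (Y ++ [q1])
    simp only [List.cons_append, csign_cons] at this ⊢
    simpa using this
  rw [e5, e3, e4]
  exact Int.units_mul_self _

theorem csign_of_two_spurs_aux {α m0 β l₂ C : List V} {a a' q q' : V} {m m' : List V}
    (hL : Lk r e f (α ++ a :: (m0 ++ a' :: β)) l₂) (hC : Cyc r C)
    (hd : ∀ x ∈ C, x ∉ α ++ a :: (m0 ++ a' :: β) ∧ x ∉ l₂)
    (S : Spur r (fun x => x ∈ α ++ a :: (m0 ++ a' :: β) ∨ x ∈ l₂) (· ∈ C) a m q)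
    (S' : Spur r (fun x => x ∈ α ++ a :: (m0 ++ a' :: β) ∨ x ∈ l₂) (· ∈ C) a' m' q')
    (hdis : List.Disjoint (a :: m ++ [q]) (a' :: m' ++ [q'])) :
    csign w C = 1 := by
  have hqq : q ≠ q' := by
    rintro rfl
    exact hdis (by simp) (by simp : q ∈ a' :: m' ++ [q])
  refine csign_of_two_arcs hr hw hc (A := α ++ a :: m) (B := m'.reverse ++ a' :: β) (R := l₂)
    hC S.hq S'.hq hqq ?_
  intro Z hZ hZn hZC
  obtain ⟨x1, x2, hx1, hx2, hx⟩ := hL.hd
  obtain ⟨y1, y2, hy1, hy2, hy⟩ := hL.lt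
  have c1 := hL.c1
  rw [List.isChain_split] at c1
  have c12 : ((a :: m0) ++ a' :: β).IsChain r := c1.2
  rw [List.isChain_split] at c12
  have hS' : (q' :: m'.reverse ++ [a']).IsChain r := by
    have h3 : (a' :: m' ++ [q']).reverse.IsChain r := by
      rw [List.isChain_reverse]
      exact S'.ch.imp (fun a b h => hr _ _ h)
    simpa using h3
  refine ⟨?_, hL.c2, ?_, ⟨x1, x2, ?_, hx2, hx⟩, ⟨y1, y2, ?_, hy2, hy⟩⟩
  · have e1 : α ++ a :: m ++ (q :: Z ++ [q']) ++ (m'.reverse ++ a' :: β) =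
        α ++ a :: (m ++ q :: (Z ++ q' :: (m'.reverse ++ a' :: β))) := by simp
    rw [e1, List.isChain_split]
    refine ⟨c1.1, ?_⟩
    have e2 : a :: (m ++ q :: (Z ++ q' :: (m'.reverse ++ a' :: β))) =
      (a :: m) ++ q :: (Z ++ q' :: (m'.reverse ++ a' :: β)) := by simp
    rw [e2, List.isChain_split]
    refine ⟨S.ch, ?_⟩
    have e3 : q :: (Z ++ q' :: (m'.reverse ++ a' :: β)) =
      (q :: Z) ++ q' :: (m'.reverse ++ a' :: β) := by simp
    rw [e3, List.isChain_split]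
    refine ⟨hZ, ?_⟩
    have e4 : q' :: (m'.reverse ++ a' :: β) = (q' :: m'.reverse) ++ a' :: β := by simp
    rw [e4, List.isChain_split]
    exact ⟨hS', c12.2⟩
  · have n1 := hL.nd
    have n2 := S.nd
    have n3 := S'.nd
    have hm := S.hm
    have hm' := S'.hm
    have hq := S.hq
    have hq' := S'.hq
    clear hL hC hc hr S S' hZ c1 c12 hS' hx1 hx2 hx hy1 hy2 hy
    simp only [List.nodup_append, List.nodup_cons, List.mem_append, List.mem_cons,
      List.mem_reverse, List.nodup_reverse, List.disjoint_left, List.not_mem_nil, or_false,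
      List.cons_append, List.append_assoc] at *
    grind
  · rw [← hx1]
    simp [List.head?_append]
  · rw [← hy1]
    simp [List.getLast?_append, List.getLast?_cons]

theorem csign_of_two_spurs {l₁ l₂ C : List V} {a a' q q' : V} {m m' : List V}
    (hL : Lk r e f l₁ l₂) (hC : Cyc r C) (hd : ∀ x ∈ C, x ∉ l₁ ∧ x ∉ l₂)
    (S : Spur r (fun x => x ∈ l₁ ∨ x ∈ l₂) (· ∈ C) a m q)
    (S' : Spur r (fun x => x ∈ l₁ ∨ x ∈ l₂) (· ∈ C) a' m' q')
    (hdis : List.Disjoint (a :: m ++ [q]) (a' :: m' ++ [q'])) (ha : a ∈ l₁) (ha' : a' ∈ l₁) :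
    csign w C = 1 := by
  obtain ⟨α, γ, rfl⟩ := List.append_of_mem ha
  have hne : a' ≠ a := by
    rintro rfl
    exact hdis (by simp : a' ∈ _) (by simp)
  have : a' ∈ α ∨ a' ∈ γ := by
    simp only [List.mem_append, List.mem_cons] at ha'
    rcases ha' with h | h | h
    · exact Or.inl h
    · exact absurd h hne
    · exact Or.inr h
  rcases this with h | h
  · obtain ⟨α', m0, rfl⟩ := List.append_of_mem h
    have e1 : (α' ++ a' :: m0) ++ a :: γ = α' ++ a' :: (m0 ++ a :: γ) := by simp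
    rw [e1] at hL
    simp only [e1] at hd S S'
    exact csign_of_two_spurs_aux hr hw hc hL hC hd S' S hdis.symm
  · obtain ⟨m0, β, rfl⟩ := List.append_of_mem h
    exact csign_of_two_spurs_aux hr hw hc hL hC hd S S' hdis

theorem csign_of_two_spurs' {l₁ l₂ C : List V} {a a' q q' : V} {m m' : List V}
    (hL : Lk r e f l₁ l₂) (hC : Cyc r C) (hd : ∀ x ∈ C, x ∉ l₁ ∧ x ∉ l₂)
    (S : Spur r (fun x => x ∈ l₁ ∨ x ∈ l₂) (· ∈ C) a m q)
    (S' : Spur r (fun x => x ∈ l₁ ∨ x ∈ l₂) (· ∈ C) a' m' q')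
    (hdis : List.Disjoint (a :: m ++ [q]) (a' :: m' ++ [q']))
    (ha : (a ∈ l₁ ∧ a' ∈ l₁) ∨ (a ∈ l₂ ∧ a' ∈ l₂)) :
    csign w C = 1 := by
  rcases ha with ha | ha
  · exact csign_of_two_spurs hr hw hc hL hC hd S S' hdis ha.1 ha.2
  · have e1 : (fun x => x ∈ l₁ ∨ x ∈ l₂) = (fun x => x ∈ l₂ ∨ x ∈ l₁) := by
      funext x; exact propext or_comm
    rw [e1] at S S'
    exact csign_of_two_spurs hr hw hc hL.swap hC (fun x hx => (hd x hx).symm) S S' hdis ha.1 ha.2

theorem csign_of_three_spurs {l₁ l₂ C : List V} {a b c q1 q2 q3 : V} {m1 m2 m3 : List V}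
    (hL : Lk r e f l₁ l₂) (hC : Cyc r C) (hd : ∀ x ∈ C, x ∉ l₁ ∧ x ∉ l₂)
    (S1 : Spur r (fun x => x ∈ l₁ ∨ x ∈ l₂) (· ∈ C) a m1 q1)
    (S2 : Spur r (fun x => x ∈ l₁ ∨ x ∈ l₂) (· ∈ C) b m2 q2)
    (S3 : Spur r (fun x => x ∈ l₁ ∨ x ∈ l₂) (· ∈ C) c m3 q3)
    (h12 : List.Disjoint (a :: m1 ++ [q1]) (b :: m2 ++ [q2]))
    (h13 : List.Disjoint (a :: m1 ++ [q1]) (c :: m3 ++ [q3]))
    (h23 : List.Disjoint (b :: m2 ++ [q2]) (c :: m3 ++ [q3])) :
    csign w C = 1 := by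
  have ha := S1.ha
  have hb := S2.ha
  have hc' := S3.ha
  by_cases k12 : (a ∈ l₁ ∧ b ∈ l₁) ∨ (a ∈ l₂ ∧ b ∈ l₂)
  · exact csign_of_two_spurs' hr hw hc hL hC hd S1 S2 h12 k12
  by_cases k13 : (a ∈ l₁ ∧ c ∈ l₁) ∨ (a ∈ l₂ ∧ c ∈ l₂)
  · exact csign_of_two_spurs' hr hw hc hL hC hd S1 S3 h13 k13
  · exact csign_of_two_spurs' hr hw hc hL hC hd S2 S3 h23 (by tauto)

/-- The main rerouting lemma: a closed list which is disjoint from one linkage, and one of whose
pairs of vertices is consecutive on another linkage, has sign `1`. -/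
theorem csign_of_edge {l₁ l₂ C R₁ R₂ A' B' : List V} {p q : V}
    (hL : Lk r e f l₁ l₂) (hC : Cyc r C) (hd : ∀ x ∈ C, x ∉ l₁ ∧ x ∉ l₂)
    (hR : Lk r e f R₁ R₂) (hRR : R₁ = A' ++ p :: q :: B') (hp : p ∈ C) (hq : q ∈ C) :
    csign w C = 1 := by
  obtain ⟨x1, x2, hx1, hx2, hx⟩ := hR.hd
  obtain ⟨y1, y2, hy1, hy2, hy⟩ := hR.lt
  obtain ⟨u1, u2, hu1, hu2, hu⟩ := hL.hd
  obtain ⟨v1, v2, hv1, hv2, hv⟩ := hL.lt
  have hu1m : u1 ∈ l₁ := List.mem_of_head? hu1
  have hu2m : u2 ∈ l₂ := List.mem_of_head? hu2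
  have hv1m : v1 ∈ l₁ := List.mem_of_getLast? hv1
  have hv2m : v2 ∈ l₂ := List.mem_of_getLast? hv2
  have hxV : (x1 ∈ l₁ ∨ x1 ∈ l₂) ∧ (x2 ∈ l₁ ∨ x2 ∈ l₂) := by
    have : s(x1, x2) = s(u1, u2) := by rw [hx, hu]
    rw [Sym2.eq_iff] at this
    rcases this with ⟨rfl, rfl⟩ | ⟨rfl, rfl⟩
    · exact ⟨Or.inl hu1m, Or.inr hu2m⟩
    · exact ⟨Or.inr hu2m, Or.inl hu1m⟩
  have hyV : (y1 ∈ l₁ ∨ y1 ∈ l₂) ∧ (y2 ∈ l₁ ∨ y2 ∈ l₂) := by
    have : s(y1, y2) = s(v1, v2) := by rw [hy, hv]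
    rw [Sym2.eq_iff] at this
    rcases this with ⟨rfl, rfl⟩ | ⟨rfl, rfl⟩
    · exact ⟨Or.inl hv1m, Or.inr hv2m⟩
    · exact ⟨Or.inr hv2m, Or.inl hv1m⟩
  have hCV : ∀ z, z ∈ C → ¬ (z ∈ l₁ ∨ z ∈ l₂) := by
    intro z hz h
    have := hd z hz
    rcases h with h | h
    · exact this.1 h
    · exact this.2 h
  clear hu hv hu1 hu2 hv1 hv2 hu1m hu2m hv1m hv2m
  have nR := hR.nd
  have c1 := hR.c1
  have c2 := hR.c2
  have n1 : R₁.Nodup := (List.nodup_append.1 nR).1
  have n2 : R₂.Nodup := (List.nodup_append.1 nR).2.1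
  obtain ⟨A, s, X, q1, M, q2, Y, t, B, hR1, S1, S2⟩ := exists_segment
    (VL := fun x => x ∈ l₁ ∨ x ∈ l₂) (C := (· ∈ C)) hr c1 n1 hRR hp hq hCV hx1 hy1 hxV.1 hyV.1
  have h12 : List.Disjoint (s :: X ++ [q1]) (t :: Y.reverse ++ [q2]) := by
    have h3 : List.Disjoint (s :: X ++ [q1]) (q2 :: Y ++ [t]) :=
      disj_mid (A := A) (B := M) (D := B) n1 hR1
    exact disj_reverse_right h3
  -- the same segment
  by_cases hst : (s ∈ l₁ ∧ t ∈ l₁) ∨ (s ∈ l₂ ∧ t ∈ l₂)
  · exact csign_of_two_spurs' hr hw hc hL hC hd S1 S2 h12 hst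
  -- some vertex of `C` in `A`
  by_cases hzA : ∃ z ∈ A, z ∈ C
  · have hAhd : A.head? = some x1 := by
      rcases A with _ | ⟨a, A⟩
      · simp at hzA
      · rw [hR1] at hx1
        simpa using hx1
    obtain ⟨F1, a, F2, q3, E2, hA, S3⟩ := front_spur (VL := fun x => x ∈ l₁ ∨ x ∈ l₂)
      (C := (· ∈ C)) (R := A) (chain_mid (A := []) c1 hR1) (nodup_mid (A := []) n1 hR1) hAhd hxV.1
      hCV hzA
    refine csign_of_three_spurs hr hw hc hL hC hd S3 S1 S2 ?_ ?_ h12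
    · exact disj_mid (A := F1) (B := E2) (D := M ++ ((q2 :: Y ++ [t]) ++ B)) n1
        (by rw [hR1, hA]; simp)
    · exact disj_reverse_right (disj_mid (A := F1) (B := E2 ++ ((s :: X ++ [q1]) ++ M)) (D := B) n1
        (by rw [hR1, hA]; simp))
  by_cases hzB : ∃ z ∈ B, z ∈ C
  · have hBlt : B.getLast? = some y1 := by
      rcases List.eq_nil_or_concat B with rfl | ⟨B'', b, rfl⟩
      · simp at hzB
      · rw [hR1] at hy1
        rw [List.concat_eq_append] at hy1 ⊢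
        have e1 : A ++ (s :: X ++ [q1] ++ (M ++ (q2 :: Y ++ [t] ++ (B'' ++ [b])))) =
          (A ++ (s :: X ++ [q1] ++ (M ++ (q2 :: Y ++ [t] ++ B'')))) ++ [b] := by simp
        rw [e1, List.getLast?_append] at hy1
        rw [List.getLast?_append]
        simpa using hy1
    have eB : R₁ = (A ++ (s :: X ++ [q1] ++ (M ++ (q2 :: Y ++ [t])))) ++ (B ++ []) := by
      rw [hR1]; simp
    obtain ⟨F1, a, F2, q3, E2, hA, S3⟩ := back_spur hr (VL := fun x => x ∈ l₁ ∨ x ∈ l₂)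
      (C := (· ∈ C)) (R := B) (chain_mid c1 eB) (nodup_mid n1 eB) hBlt hyV.1
      hCV hzB
    have h13 : List.Disjoint (s :: X ++ [q1]) (a :: F2.reverse ++ [q3]) :=
      disj_reverse_right (disj_mid (A := A) (B := M ++ ((q2 :: Y ++ [t]) ++ F1)) (D := E2) n1
        (by rw [hR1, hA]; simp))
    have h23 : List.Disjoint (t :: Y.reverse ++ [q2]) (a :: F2.reverse ++ [q3]) := by
      have h4 : List.Disjoint (q2 :: Y ++ [t]) (q3 :: F2 ++ [a]) :=
        disj_mid (A := A ++ ((s :: X ++ [q1]) ++ M)) (B := F1) (D := E2) n1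
        (by rw [hR1, hA]; simp)
      exact (disj_reverse_right (disj_reverse_right h4).symm).symm
    exact csign_of_three_spurs hr hw hc hL hC hd S1 S2 S3 h12 h13 h23
  by_cases hzR : ∃ z ∈ R₂, z ∈ C
  · obtain ⟨F1, a, F2, q3, E2, hA, S3⟩ := front_spur (VL := fun x => x ∈ l₁ ∨ x ∈ l₂)
      (C := (· ∈ C)) (R := R₂) c2 n2 hx2 hxV.2 hCV hzR
    rw [hR1, hA] at nR
    refine csign_of_three_spurs hr hw hc hL hC hd S1 S2 S3 h12 ?_ ?_
    · exact disj_mid (A := A) (B := M ++ ((q2 :: Y ++ [t]) ++ (B ++ F1))) (D := E2) nR (by simp)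
    · have h4 : List.Disjoint (q2 :: Y ++ [t]) (a :: F2 ++ [q3]) :=
        disj_mid (A := A ++ ((s :: X ++ [q1]) ++ M)) (B := B ++ F1) (D := E2) nR (by simp)
      exact (disj_reverse_right h4.symm).symm
  push Not at hzA hzB hzR
  have hq12 : q1 ≠ q2 := by
    rintro rfl
    exact h12 (by simp) (by simp : q1 ∈ t :: Y.reverse ++ [q1])
  have hsC : s ∉ C := fun h => hCV s h S1.ha
  have htC : t ∉ C := fun h => hCV t h S2.ha
  have hXC : ∀ x ∈ X, x ∉ C := fun x hx' => (S1.hm x hx').2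
  have hYC : ∀ x ∈ Y, x ∉ C := fun x hx' => (S2.hm x (by simpa using hx')).2
  have hq1 := S1.hq
  have hq2 := S2.hq
  refine csign_of_two_arcs hr hw hc (A := A ++ s :: X) (B := Y ++ t :: B) (R := R₂)
    hC hq1 hq2 hq12 ?_
  intro Z hZ hZn hZC
  refine ⟨?_, c2, ?_, ⟨x1, x2, ?_, hx2, hx⟩, ⟨y1, y2, ?_, hy2, hy⟩⟩
  · have e1 : A ++ s :: X ++ (q1 :: Z ++ [q2]) ++ (Y ++ t :: B) =
        (A ++ s :: X) ++ q1 :: (Z ++ q2 :: (Y ++ t :: B)) := by simp
    rw [e1, List.isChain_split]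
    constructor
    · exact chain_mid (A := []) (B := M ++ (q2 :: Y ++ [t] ++ B)) c1 (by rw [hR1]; simp)
    · have e2 : q1 :: (Z ++ q2 :: (Y ++ t :: B)) = (q1 :: Z) ++ q2 :: (Y ++ t :: B) := by simp
      rw [e2, List.isChain_split]
      refine ⟨hZ, ?_⟩
      exact chain_mid (A := A ++ (s :: X ++ [q1] ++ M)) (B := []) c1 (by rw [hR1]; simp)
  · rw [hR1] at nR
    clear hL hC hc hr S1 S2 hZ c1 c2 hx1 hx2 hx hy1 hy2 hy hR hRR hR1 hd hCV n1 hst hxV hyV h12
    simp only [List.nodup_append, List.nodup_cons, List.mem_append, List.mem_cons,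
      List.not_mem_nil, or_false, List.cons_append, List.append_assoc] at *
    grind
  · rw [← hx1, hR1]
    simp [List.head?_append]
  · rw [← hy1, hR1]
    simp [List.getLast?_append, List.getLast?_cons]

end

end NPP
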