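import Pool.Agent.helper50.NPP.Defs

/-! Signs of lists of vertices, closed lists. -/

namespace NPP

variable {V : Type*}

/-- product of `w` over the consecutive pairs of a list -/
def lsign (w : V → V → ℤˣ) : List V → ℤˣ
  | [] => 1
  | [_] => 1
  | u :: v :: l => w u v * lsign w (v :: l)

@[simp] theorem lsign_nil (w : V → V → ℤˣ) : lsign w [] = 1 := rfl
@[simp] theorem lsign_single (w : V → V → ℤˣ) (x : V) : lsign w [x] = 1 := rfl
@[simp] theorem lsign_cons_cons (w : V → V → ℤˣ) (x y : V) (l : List V) :
    lsign w (x :: y :: l) = w x y * lsign w (y :: l) := rfl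

theorem lsign_split (w : V → V → ℤˣ) (l₁ : List V) (x : V) (l₂ : List V) :
    lsign w (l₁ ++ x :: l₂) = lsign w (l₁ ++ [x]) * lsign w (x :: l₂) := by
  induction l₁ with
  | nil => simp
  | cons a t ih =>
    cases t with
    | nil => simp
    | cons b t =>
      simp only [List.cons_append, lsign_cons_cons] at ih ⊢
      rw [ih, mul_assoc]

theorem lsign_reverse (w : V → V → ℤˣ) (hw : ∀ x y, w x y = w y x) (l : List V) :
    lsign w l.reverse = lsign w l := by
  induction l with
  | nil => simp
  | cons a t ih =>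
    cases t with
    | nil => simp
    | cons b t =>
      rw [lsign_cons_cons, ← ih]
      simp only [List.reverse_cons, List.append_assoc, List.cons_append, List.nil_append]
      rw [lsign_split]
      simp [hw b a, mul_comm]

/-- sign of a closed list -/
def csign (w : V → V → ℤˣ) (C : List V) : ℤˣ := lsign w (C ++ C.head?.toList)

theorem csign_cons (w : V → V → ℤˣ) (x : V) (l : List V) :
    csign w (x :: l) = lsign w (x :: l ++ [x]) := rfl

theorem csign_append_comm (w : V → V → ℤˣ) (A B : List V) :
    csign w (A ++ B) = csign w (B ++ A) := by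
  rcases A with _ | ⟨a, A⟩
  · simp
  rcases B with _ | ⟨b, B⟩
  · simp
  simp only [List.cons_append, csign_cons]
  have h1 : lsign w (a :: (A ++ b :: B) ++ [a]) = lsign w (a :: A ++ [b]) * lsign w (b :: B ++ [a]) := by
    have := lsign_split w (a :: A) b (B ++ [a])
    simpa using this
  have h2 : lsign w (b :: (B ++ a :: A) ++ [b]) = lsign w (b :: B ++ [a]) * lsign w (a :: A ++ [b]) := by
    have := lsign_split w (b :: B) a (A ++ [b])
    simpa using this
  simp only [List.cons_append] at h1 h2 ⊢
  rw [h1, h2, mul_comm]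

/-- closed chains -/
def CChain (r : V → V → Prop) (C : List V) : Prop := (C ++ C.head?.toList).IsChain r

theorem cchain_cons {r : V → V → Prop} {x : V} {l : List V} :
    CChain r (x :: l) ↔ (x :: l ++ [x]).IsChain r := Iff.rfl

theorem cchain_append_comm {r : V → V → Prop} {A B : List V} (h : CChain r (A ++ B)) :
    CChain r (B ++ A) := by
  rcases A with _ | ⟨a, A⟩
  · simpa using h
  rcases B with _ | ⟨b, B⟩
  · simpa using h
  have h1 : (a :: A ++ b :: (B ++ [a])).IsChain r := by
    have := h
    simp only [List.cons_append, cchain_cons] at this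
    simpa using this
  have h2 : (b :: B ++ a :: (A ++ [b])).IsChain r := by
    rw [List.isChain_split] at h1 ⊢
    refine ⟨by simpa using h1.2, by simpa using h1.1⟩
  simp only [List.cons_append, cchain_cons]
  simpa using h2

/-- simple closed chain -/
structure Cyc (r : V → V → Prop) (C : List V) : Prop where
  nd : C.Nodup
  ne : C ≠ []
  ch : CChain r C

theorem Cyc.append_comm {r : V → V → Prop} {A B : List V} (h : Cyc r (A ++ B)) : Cyc r (B ++ A) :=
  ⟨by rw [List.nodup_append_comm]; exact h.nd, by
    have := h.ne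
    intro h'
    simp at h' this
    exact this h'.2 h'.1, cchain_append_comm h.ch⟩

/-- rotating a closed list to make `q1` first; `q2` appears later -/
theorem Cyc.two {r : V → V → Prop} {C : List V} (h : Cyc r C) {q1 q2 : V} (h1 : q1 ∈ C)
    (h2 : q2 ∈ C) (hne : q1 ≠ q2) (w : V → V → ℤˣ) :
    ∃ X Y, Cyc r (q1 :: X ++ q2 :: Y) ∧ csign w (q1 :: X ++ q2 :: Y) = csign w C ∧
      (q1 :: X ++ q2 :: Y).Perm C := by
  obtain ⟨A, B, rfl⟩ := List.append_of_mem h1
  have h' : Cyc r (q1 :: (B ++ A)) := by
    have := h.append_comm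
    simpa using this
  have hm : q2 ∈ B ++ A := by
    simp only [List.mem_append, List.mem_cons] at h2 ⊢
    rcases h2 with h2 | h2 | h2
    · exact Or.inr h2
    · exact absurd h2.symm hne
    · exact Or.inl h2
  have hs : csign w (q1 :: (B ++ A)) = csign w (A ++ q1 :: B) := by
    rw [csign_append_comm]; rfl
  have hp : (q1 :: (B ++ A)).Perm (A ++ q1 :: B) := by
    have := List.perm_append_comm (l₁ := q1 :: B) (l₂ := A)
    simpa using this
  obtain ⟨X, Y, hXY⟩ := List.append_of_mem hm
  refine ⟨X, Y, ?_, ?_, ?_⟩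
  · rw [List.cons_append, ← hXY]; exact h'
  · rw [List.cons_append, ← hXY]; exact hs
  · rw [List.cons_append, ← hXY]; exact hp

/-- last element with a property -/
theorem exists_last {P : V → Prop} : ∀ {l : List V}, (∃ x ∈ l, P x) →
    ∃ A x B, l = A ++ x :: B ∧ P x ∧ ∀ y ∈ B, ¬ P y := by
  intro l
  induction l with
  | nil => simp
  | cons a t ih =>
    intro h
    by_cases ht : ∃ x ∈ t, P x
    · obtain ⟨A, x, B, rfl, hx, hB⟩ := ih ht
      exact ⟨a :: A, x, B, rfl, hx, hB⟩
    · push Not at ht
      obtain ⟨x, hx, hPx⟩ := h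
      rcases List.mem_cons.1 hx with rfl | hx
      · exact ⟨[], x, t, rfl, hPx, ht⟩
      · exact absurd hPx (ht x hx)

theorem exists_first {P : V → Prop} {l : List V} (h : ∃ x ∈ l, P x) :
    ∃ A x B, l = A ++ x :: B ∧ P x ∧ ∀ y ∈ A, ¬ P y := by
  obtain ⟨A, x, B, hl, hx, hB⟩ := exists_last (P := P) (l := l.reverse) (by simpa using h)
  refine ⟨B.reverse, x, A.reverse, ?_, hx, by simpa using hB⟩
  have := congrArg List.reverse hl
  simpa using this

end NPP
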