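import Pool.Agent.helper50.NPP.Harary

/-! The negative pair property: definitions and main theorems. -/

namespace NPP

open SimpleGraph

variable {V : Type*} {G : SimpleGraph V}

theorem not_isDiag {e : Sym2 V} (he : e ∈ G.edgeSet) : ¬ e.IsDiag := G.not_isDiag_of_mem_edgeSet he

theorem unavoidable_iff {e f : Sym2 V} (hef : e ≠ f) (he : e ∈ G.edgeSet) (hf : f ∈ G.edgeSet)
    (v : V) : Unavoidable G e f v ↔ Unav G.Adj e f v := by
  constructor
  · intro h l₁ l₂ hL
    obtain ⟨a, b, c, d, hab, p, hcd, q, h1, h2, h3, h4, h5, -⟩ := cycle_of_lk (fun _ => 1) hef he hf hL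
    have := h a _ h3 (by simp [h1]) (by simp [h2])
    rw [Walk.support_cons, support_split, h4, h5, List.mem_cons, List.mem_append,
      List.mem_reverse] at this
    rcases this with h6 | h6
    · right
      have : a ∈ q.support := q.end_mem_support
      rw [h5, List.mem_reverse] at this
      rw [h6]; exact this
    · exact h6
  · intro h u c hc hec hfc
    obtain ⟨l₁, l₂, hL, -, h3⟩ := lk_of_cycle (fun _ => 1) hef hc hec hfc
    exact (h3 v).2 (h l₁ l₂ hL)

theorem traversed_iff {e f : Sym2 V} (hef : e ≠ f) (he : e ∈ G.edgeSet) (hf : f ∈ G.edgeSet)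
    (u v : V) : Traversed G e f u v ↔ Dart G.Adj e f u v := by
  constructor
  · rintro ⟨a, b, c, d, hab, p, hcd, q, h1, h2, h3, D, hD, rfl, rfl⟩
    obtain ⟨A, B, hAB⟩ := consec_of_dart p hD
    exact ⟨p.support, q.support.reverse, A, B, lk_of_normal hab p hcd q h1 h2 h3, hAB⟩
  · rintro ⟨l₁, l₂, A, B, hL, hl⟩
    obtain ⟨a, b, c, d, hab, p, hcd, q, h1, h2, h3, h4, h5, -⟩ := cycle_of_lk (fun _ => 1) hef he hf hL
    exact ⟨a, b, c, d, hab, p, hcd, q, h1, h2, h3, exists_dart_of_consec p (h4.trans hl)⟩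

theorem units_of_ne {s : ℤˣ} (h : s ≠ -1) : s = 1 := (Int.units_eq_one_or s).resolve_right h

theorem units_mul_eq_one {a b : ℤˣ} (h : a * b = 1) : b = a := by
  rcases Int.units_eq_one_or a with ha | ha <;> rcases Int.units_eq_one_or b with hb | hb <;>
    rw [ha, hb] at h ⊢ <;> first | rfl | (exact absurd h (by decide))

/-- **Theorem 1** (pairs of edges in arbitrary signed graphs) -/
theorem negPair_iff [Fintype V] (σ : Sym2 V → ℤˣ) {e f : Sym2 V} (hef : e ≠ f)
    (he : e ∈ G.edgeSet) (hf : f ∈ G.edgeSet) :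
    NegPair G σ e f ↔ ¬ ∃ α β : V → ℤˣ, Certificate G σ e f α β := by
  classical
  have hw : ∀ x y : V, (fun x y => σ s(x, y)) x y = (fun x y => σ s(x, y)) y x := by
    intro x y; simp only [Sym2.eq_swap]
  constructor
  · rintro ⟨u, c, hc, hec, hfc, hneg⟩ ⟨α, β, hcert⟩
    obtain ⟨l₁, l₂, hL, h2, -⟩ := lk_of_cycle σ hef hc hec hfc
    have hconst : LConst G.Adj (fun x y => σ s(x, y)) e f (∏ v, (α v * β v)) :=
      lconst_of_cert hcert.one_f hcert.one_e
        (fun v hv => hcert.eq_avoidable v fun h => hv ((unavoidable_iff hef he hf v).1 h))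
        (fun u v huv => hcert.arc u v ((traversed_iff hef he hf u v).2 huv))
    rw [hconst l₁ l₂ hL, hcert.prod] at h2
    rw [h2] at hneg
    exact absurd hneg (by decide)
  · intro h
    by_contra hneg
    apply h
    by_cases hex : ∃ l₁ l₂, Lk G.Adj e f l₁ l₂
    · obtain ⟨l₁, l₂, hL⟩ := hex
      have hconst : LConst G.Adj (fun x y => σ s(x, y)) e f (σ e * σ f) := by
        intro k₁ k₂ hK
        obtain ⟨a, b, c, d, hab, p, hcd, q, h1, h2, h3, -, -, h6⟩ := cycle_of_lk σ hef he hf hK
        have h7 : wsign σ (Walk.cons hab (p.append (Walk.cons hcd q))) = 1 := by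
          apply units_of_ne
          intro h8
          exact hneg ⟨a, _, h3, by simp [h1], by simp [h2], h8⟩
        rw [h7] at h6
        exact units_mul_eq_one h6.symm
      obtain ⟨α, β, h1, h2, h3, h4, h5⟩ := cert_of_lconst (fun _ _ h => SimpleGraph.Adj.symm h) hw
        (not_isDiag he) (not_isDiag hf) hconst hL
      refine ⟨α, β, h1, h2, ?_, ?_, ?_⟩
      · intro v hv
        exact h3 v fun h => hv ((unavoidable_iff hef he hf v).2 h)
      · intro u v huv
        exact h4 u v ((traversed_iff hef he hf u v).1 huv)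
      · rw [h5]; exact Int.units_mul_self _
    · obtain ⟨v0, hv0e, hv0f⟩ : ∃ v0, v0 ∈ e ∧ v0 ∉ f := by
        by_contra hcon
        push Not at hcon
        obtain ⟨a, b, rfl⟩ : ∃ a b, e = s(a, b) := by
          induction e using Sym2.ind with
          | _ a b => exact ⟨a, b, rfl⟩
        have hab : a ≠ b := by simpa using not_isDiag he
        exact hef ((Sym2.mem_and_mem_iff hab).1 ⟨hcon a (by simp), hcon b (by simp)⟩).symm
      refine ⟨fun v => if v = v0 then σ e * σ f else 1, fun _ => 1, ?_, fun _ _ => rfl, ?_, ?_, ?_⟩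
      · intro v hv
        have : v ≠ v0 := by rintro rfl; exact hv0f hv
        simp [this]
      · intro v hv
        exfalso
        apply hv
        rw [unavoidable_iff hef he hf]
        intro l₁ l₂ hL
        exact absurd ⟨l₁, l₂, hL⟩ hex
      · intro u v huv
        rw [traversed_iff hef he hf] at huv
        obtain ⟨l₁, l₂, -, -, hL, -⟩ := huv
        exact absurd ⟨l₁, l₂, hL⟩ hex
      · simp [Int.units_mul_self]

/-- product of a function over the ends of an edge -/
def ends (θ : V → ℤˣ) : Sym2 V → ℤˣ := Sym2.lift ⟨fun x y => θ x * θ y, fun _ _ => mul_comm _ _⟩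

theorem ends_mk (θ : V → ℤˣ) (x y : V) : ends θ s(x, y) = θ x * θ y := rfl

theorem lsign_of_switching {w : V → V → ℤˣ} {θ : V → ℤˣ} {l : List V} {x y : V}
    (hx : l.head? = some x) (hy : l.getLast? = some y)
    (h : l.IsChain fun u v => w u v = θ u * θ v) : lsign w l = θ x * θ y := by
  induction l generalizing x with
  | nil => simp at hx
  | cons a t ih =>
    simp only [List.head?_cons, Option.some.injEq] at hx
    subst hx
    cases t with
    | nil =>
      simp only [List.getLast?_singleton, Option.some.injEq] at hy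
      subst hy
      simp [Int.units_mul_self]
    | cons b t =>
      rw [List.isChain_cons_cons] at h
      rw [List.getLast?_cons_cons] at hy
      rw [lsign_cons_cons, ih (x := b) rfl hy h.2, h.1]
      calc θ a * θ b * (θ b * θ y) = θ a * (θ b * θ b) * θ y := by simp only [mul_assoc]
        _ = _ := by rw [Int.units_mul_self, mul_one]

theorem eq_singleton_of_head_last {l : List V} {a : V} (hn : l.Nodup) (h1 : l.head? = some a)
    (h2 : l.getLast? = some a) : l = [a] := by
  rcases l with _ | ⟨b, t⟩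
  · simp at h1
  simp only [List.head?_cons, Option.some.injEq] at h1
  subst h1
  rcases t with _ | ⟨c, t⟩
  · rfl
  · exfalso
    rw [List.getLast?_cons_cons] at h2
    rw [List.nodup_cons] at hn
    exact hn.1 (List.mem_of_getLast? h2)

/-- a path of a linkage avoids `e`, `f` and their common vertex, or is a single vertex -/
theorem lk_path_edges {r : V → V → Prop} {e f : Sym2 V} {l₁ l₂ : List V} (hL : Lk r e f l₁ l₂)
    {A B : List V} {u v : V} (hl : l₁ = A ++ u :: v :: B) :
    s(u, v) ≠ e ∧ s(u, v) ≠ f ∧ ∀ a ∈ e, a ∈ f → a ∉ s(u, v) := by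
  obtain ⟨x1, x2, g1, g2, g3⟩ := hL.hd
  obtain ⟨y1, y2, k1, k2, k3⟩ := hL.lt
  have hn := List.nodup_append.1 hL.nd
  have hx2 : x2 ∉ l₁ := fun h => hn.2.2 x2 h x2 (List.mem_of_head? g2) rfl
  have hy2 : y2 ∉ l₁ := fun h => hn.2.2 y2 h y2 (List.mem_of_getLast? k2) rfl
  have hsub : ∀ z ∈ s(u, v), z ∈ l₁ := by
    intro z hz
    rw [Sym2.mem_iff] at hz
    rw [hl]
    rcases hz with rfl | rfl <;> simp
  refine ⟨?_, ?_, ?_⟩
  · intro h
    apply hx2
    apply hsub
    rw [h, ← g3]; simp
  · intro h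
    apply hy2
    apply hsub
    rw [h, ← k3]; simp
  · intro a hae haf hauv
    have ha1 := hsub a hauv
    have h1 : a = x1 := by
      rw [← g3, Sym2.mem_iff] at hae
      rcases hae with h | h
      · exact h
      · exact absurd (h ▸ ha1) hx2
    have h2 : a = y1 := by
      rw [← k3, Sym2.mem_iff] at haf
      rcases haf with h | h
      · exact h
      · exact absurd (h ▸ ha1) hy2
    have := eq_singleton_of_head_last hn.1 (h1 ▸ g1) (h2 ▸ k1)
    rw [this] at hl
    have := congrArg List.length hl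
    simp at this
    omega

/-- If the edges different from `e` and `f` which avoid the common vertex of `e` and `f` are
switched to `+`, then all circles through `e` and `f` have the same sign. -/
theorem wsign_circle {σ : Sym2 V → ℤˣ} {θ : V → ℤˣ} {e f : Sym2 V} (hef : e ≠ f)
    (hθ : ∀ x y, G.Adj x y → s(x, y) ≠ e → s(x, y) ≠ f → (∀ a ∈ e, a ∈ f → a ∉ s(x, y)) →
      σ s(x, y) = θ x * θ y)
    {u : V} {c : G.Walk u u} (hc : c.IsCycle) (hec : e ∈ c.edges) (hfc : f ∈ c.edges) :
    wsign σ c = σ e * σ f * (ends θ e * ends θ f) := by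
  obtain ⟨l₁, l₂, hL, h2, -⟩ := lk_of_cycle σ hef hc hec hfc
  have key : ∀ l₁ l₂, Lk G.Adj e f l₁ l₂ → l₁.IsChain fun u v => σ s(u, v) = θ u * θ v := by
    intro l₁ l₂ hL
    rw [List.isChain_iff_forall_rel_of_append_cons_cons]
    intro a b A B hl
    have hadj := hL.c1
    rw [List.isChain_iff_forall_rel_of_append_cons_cons] at hadj
    obtain ⟨h1, h2, h3⟩ := lk_path_edges hL hl
    exact hθ a b (hadj hl) h1 h2 h3
  obtain ⟨x1, x2, g1, g2, g3⟩ := hL.hd
  obtain ⟨y1, y2, k1, k2, k3⟩ := hL.lt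
  rw [h2, lsign_of_switching g1 k1 (key _ _ hL), lsign_of_switching g2 k2 (key _ _ hL.swap)]
  congr 1
  rw [← g3, ← k3, ends_mk, ends_mk, mul_mul_mul_comm]

theorem support_avoid {a u : V} {c : G.Walk u u} (hc : c.IsCycle) (h : ∀ g ∈ c.edges, a ∉ g) :
    a ∉ c.support := by
  intro ha
  rw [Walk.mem_support_iff_exists_mem_edges_of_not_nil hc.not_nil] at ha
  obtain ⟨g, hg, hag⟩ := ha
  exact h g hg hag

variable [Fintype V] [DecidableEq V]

/-- **Theorem 2** (pairs of edges in `3`-connected signed graphs) -/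
theorem same_sign_iff (hG : KConn 3 G) (σ : Sym2 V → ℤˣ) {e f : Sym2 V} (hef : e ≠ f)
    (he : e ∈ G.edgeSet) (hf : f ∈ G.edgeSet) :
    (∀ (u : V) (c : G.Walk u u) (u' : V) (c' : G.Walk u' u'), c.IsCycle → e ∈ c.edges →
        f ∈ c.edges → c'.IsCycle → e ∈ c'.edges → f ∈ c'.edges → wsign σ c = wsign σ c') ↔
      ∀ (u : V) (c : G.Walk u u), c.IsCycle → e ∉ c.edges → f ∉ c.edges →
        (∀ a ∈ e, a ∈ f → a ∉ c.support) → wsign σ c = 1 := by
  have hw : ∀ x y : V, (fun x y => σ s(x, y)) x y = (fun x y => σ s(x, y)) y x := by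
    intro x y; simp only [Sym2.eq_swap]
  constructor
  · intro h
    have hconst : ∃ s0, LConst G.Adj (fun x y => σ s(x, y)) e f s0 := by
      by_cases hex : ∃ l₁ l₂, Lk G.Adj e f l₁ l₂
      · obtain ⟨l₁, l₂, hL⟩ := hex
        refine ⟨lsign (fun x y => σ s(x, y)) l₁ * lsign (fun x y => σ s(x, y)) l₂,
          fun k₁ k₂ hK => ?_⟩
        obtain ⟨a, b, c, d, hab, p, hcd, q, h1, h2, h3, -, -, h6⟩ := cycle_of_lk σ hef he hf hK
        obtain ⟨a', b', c', d', hab', p', hcd', q', h1', h2', h3', -, -, h6'⟩ :=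
          cycle_of_lk σ hef he hf hL
        have := h _ _ _ _ h3 (by simp [h1]) (by simp [h2]) h3' (by simp [h1']) (by simp [h2'])
        rw [h6, h6'] at this
        exact mul_left_cancel this
      · exact ⟨1, fun k₁ k₂ hK => absurd ⟨k₁, k₂, hK⟩ hex⟩
    obtain ⟨s0, hconst⟩ := hconst
    obtain ⟨α, β, h1, h2, -, -, -⟩ := potentials_of_threeConn hG hw (not_isDiag he) (not_isDiag hf)
      hef hconst
    intro u c hc hec hfc hcom
    have hθ : ∀ x y, G.Adj x y → s(x, y) ≠ e → s(x, y) ≠ f → (∀ a ∈ e, a ∈ f → a ∉ s(x, y)) →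
        σ s(x, y) = (if x ∈ f then β x else α x) * (if y ∈ f then β y else α y) := by
      have key : ∀ x y, G.Adj x y → x ∉ f → y ∉ e →
          σ s(x, y) = (if x ∈ f then β x else α x) * (if y ∈ f then β y else α y) := by
        intro x y hxy hxf hye
        have h3 := h2 x y hxf hye hxy
        beta_reduce at h3
        rw [h3, if_neg hxf]
        by_cases hyf : y ∈ f
        · rw [if_pos hyf]
        · rw [if_neg hyf, h1 y hye hyf]
      intro x y hxy hne hnf hcom'
      by_cases hxf : x ∈ f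
      · by_cases hyf : y ∈ f
        · exact absurd ((Sym2.mem_and_mem_iff hxy.ne).1 ⟨hxf, hyf⟩).symm hnf
        · have hxe : x ∉ e := fun h => hcom' x h hxf (by simp)
          rw [Sym2.eq_swap, key y x hxy.symm hyf hxe, mul_comm]
      · by_cases hye : y ∈ e
        · by_cases hxe : x ∈ e
          · exact absurd ((Sym2.mem_and_mem_iff hxy.ne).1 ⟨hxe, hye⟩).symm hne
          · have hyf : y ∉ f := fun h => hcom' y hye h (by simp)
            rw [Sym2.eq_swap, key y x hxy.symm hyf hxe, mul_comm]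
        · exact key x y hxy hxf hye
    have := wsign_of_switching (σ := σ) (θ := fun x => if x ∈ f then β x else α x) c (by
      rintro g hg x y rfl
      apply hθ x y (c.adj_of_mem_edges hg)
      · rintro rfl; exact hec hg
      · rintro rfl; exact hfc hg
      · intro a ha ha' hag
        exact hcom a ha ha' (Walk.mem_support_iff_exists_mem_edges.2 (Or.inr ⟨_, hg, hag⟩)))
    rw [this]
    exact Int.units_mul_self _
  · intro h
    obtain ⟨θ, hθ⟩ := exists_switching (G := G) σ
      (fun g => g ≠ e ∧ g ≠ f ∧ ∀ a ∈ e, a ∈ f → a ∉ g) (by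
        intro u c hc hD
        apply h u c hc
        · intro h'; exact (hD e h').1 rfl
        · intro h'; exact (hD f h').2.1 rfl
        · intro a ha ha'
          exact support_avoid hc fun g hg => (hD g hg).2.2 a ha ha')
    intro u c u' c' hc hec hfc hc' hec' hfc'
    have hθ' : ∀ x y, G.Adj x y → s(x, y) ≠ e → s(x, y) ≠ f → (∀ a ∈ e, a ∈ f → a ∉ s(x, y)) →
      σ s(x, y) = θ x * θ y := fun x y hxy h1 h2 h3 => hθ x y hxy ⟨h1, h2, h3⟩
    rw [wsign_circle hef hθ' hc hec hfc, wsign_circle hef hθ' hc' hec' hfc']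

end NPP
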