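import Pool.Agent.helper50.NPP.Two

/-! One-sided circles. -/

namespace NPP

open SimpleGraph

variable {V : Type*} {G : SimpleGraph V}

/-- a simple closed list of length at least three is a circle -/
theorem circle_of_list (σ : Sym2 V → ℤˣ) (D : Sym2 V → Prop) {L : List V} (hnd : L.Nodup)
    (hlen : 3 ≤ L.length) (hch : CChain (fun x y => G.Adj x y ∧ D s(x, y)) L) :
    ∃ (u : V) (c : G.Walk u u), c.IsCycle ∧ (∀ g ∈ c.edges, D g) ∧
      wsign σ c = csign (fun x y => σ s(x, y)) L ∧ ∀ v ∈ c.support, v ∈ L := by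
  obtain ⟨x, T, rfl⟩ : ∃ x T, L = x :: T := by
    rcases L with _ | ⟨x, T⟩
    · simp at hlen
    · exact ⟨x, T, rfl⟩
  rw [cchain_cons] at hch
  obtain ⟨ℓ, hℓ⟩ : ∃ ℓ, (x :: T).getLast? = some ℓ := by
    simp [List.getLast?_cons]
  have hch' := List.isChain_append.1 hch
  have hlast : G.Adj ℓ x ∧ D s(ℓ, x) := hch'.2.2 ℓ hℓ x (by simp)
  obtain ⟨p, hp⟩ := exists_walk_of_list (G := G) (l := x :: T) (x := x) (y := ℓ) rfl hℓ
    (hch'.1.imp fun _ _ h => h.1)
  have hpath : p.IsPath := by rw [Walk.isPath_def, hp]; exact hnd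
  refine ⟨ℓ, Walk.cons hlast.1 p, ?_, ?_, ?_, ?_⟩
  · rw [Walk.cons_isCycle_iff]
    refine ⟨hpath, fun hmem => ?_⟩
    rw [Sym2.eq_swap] at hmem
    have h1 := hpath.length_eq_one_of_mem_edges hmem
    have h2 := Walk.length_support p
    rw [hp] at h2
    omega
  · intro g hg
    rw [Walk.edges_cons, List.mem_cons] at hg
    rcases hg with rfl | hg
    · exact hlast.2
    · exact edges_of_chain p (by rw [hp]; exact hch'.1.imp fun _ _ h => h.2) g hg
  · rw [wsign_cons, wsign_eq, hp, csign_cons]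
    obtain ⟨L', hL'⟩ : ∃ L', x :: T = L' ++ [ℓ] := by
      rcases List.eq_nil_or_concat (x :: T) with h0 | ⟨L', b, h0⟩
      · simp at h0
      · refine ⟨L', ?_⟩
        rw [List.concat_eq_append] at h0
        rw [h0, List.getLast?_append] at hℓ
        simp only [List.getLast?_singleton, Option.some_or, Option.some.injEq] at hℓ
        rw [h0, hℓ]
    have e2 : x :: T ++ [x] = L' ++ ℓ :: [x] := by
      rw [hL']; simp
    rw [e2, lsign_split, ← hL']
    simp [mul_comm]
  · intro v hv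
    rw [Walk.support_cons, List.mem_cons, hp] at hv
    rcases hv with rfl | hv
    · exact List.mem_of_getLast? hℓ
    · exact hv

/-- an initial segment of a list stays reachable -/
theorem reach_prefix {G : SimpleGraph V} {v w : V} {P Q : List V} {a : V}
    (hch : (P ++ Q).IsChain G.Adj) (ha : (P ++ Q).head? = some a) (hv : v ∉ P) (hw : w ∉ P) :
    ∀ z ∈ P, ∃ p : G.Walk a z, v ∉ p.support ∧ w ∉ p.support := by
  intro z hz
  obtain ⟨P₁, P₂, rfl⟩ := List.append_of_mem hz
  have hh : (P₁ ++ [z]).head? = some a := by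
    rw [← ha]
    simp [List.head?_append]
  have hc : (P₁ ++ [z]).IsChain G.Adj :=
    chain_mid (A := []) (B := P₂ ++ Q) hch (by simp)
  obtain ⟨p, hp⟩ := exists_walk_of_list hh (y := z) (by simp) hc
  refine ⟨p, ?_, ?_⟩
  · rw [hp]; intro h; apply hv; simp only [List.mem_append, List.mem_cons, List.not_mem_nil,
      or_false] at h ⊢; tauto
  · rw [hp]; intro h; apply hw; simp only [List.mem_append, List.mem_cons, List.not_mem_nil,
      or_false] at h ⊢; tauto

theorem reach_suffix {G : SimpleGraph V} {v w : V} {P Q : List V} {b : V}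
    (hch : (P ++ Q).IsChain G.Adj) (hb : (P ++ Q).getLast? = some b) (hv : v ∉ Q) (hw : w ∉ Q) :
    ∀ z ∈ Q, ∃ p : G.Walk z b, v ∉ p.support ∧ w ∉ p.support := by
  intro z hz
  obtain ⟨Q₁, Q₂, rfl⟩ := List.append_of_mem hz
  have hl : (z :: Q₂).getLast? = some b := by
    rw [← hb]
    simp [List.getLast?_append, List.getLast?_cons]
  have hc : (z :: Q₂).IsChain G.Adj :=
    chain_mid (A := P ++ Q₁) (B := []) hch (by simp)
  obtain ⟨p, hp⟩ := exists_walk_of_list (x := z) rfl hl hc
  refine ⟨p, ?_, ?_⟩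
  · rw [hp]; intro h; apply hv; simp only [List.mem_append, List.mem_cons] at h ⊢; tauto
  · rw [hp]; intro h; apply hw; simp only [List.mem_append, List.mem_cons] at h ⊢; tauto

/-- the two sides of a pair of separating vertices -/
theorem dart_sides {e f : Sym2 V} {v w : V} (hsep : Separates G e f v w) :
    ∃ R : Set V, v ∉ R ∧ w ∉ R ∧ ∀ x y, Dart G.Adj e f x y →
      (x ∈ R ∧ (y ∈ R ∨ y = v ∨ y = w)) ∨ (x ∉ R ∧ y ∉ R ∧ y ≠ v ∧ y ≠ w) := by
  classical
  set R : Set V := {z | ∃ a ∈ e, ∃ p : G.Walk a z, v ∉ p.support ∧ w ∉ p.support} with hR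
  have hRv : v ∉ R := by
    rintro ⟨a, -, p, hp, -⟩
    exact hp p.end_mem_support
  have hRw : w ∉ R := by
    rintro ⟨a, -, p, -, hp⟩
    exact hp p.end_mem_support
  refine ⟨R, hRv, hRw, ?_⟩
  rintro x y ⟨l₁, l₂, A, B, hL, hl⟩
  obtain ⟨x1, x2, g1, g2, g3⟩ := hL.hd
  obtain ⟨y1, y2, k1, k2, k3⟩ := hL.lt
  obtain ⟨p, hp⟩ := exists_walk_of_list g1 k1 hL.c1
  obtain ⟨q, hq⟩ := exists_walk_of_list g2 k2 hL.c2
  have hx1 : x1 ∈ e := by rw [← g3]; simp
  have hy1 : y1 ∈ f := by rw [← k3]; simp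
  have h1 := hsep x1 hx1 y1 hy1 p
  have h2 := hsep x2 (by rw [← g3]; simp) y2 (by rw [← k3]; simp) q
  rw [hp] at h1
  rw [hq] at h2
  have hnd := List.nodup_append.1 hL.nd
  -- `l₁` contains exactly one of `v` and `w`, once
  obtain ⟨t, htvw, P, Q, hPQ, hPv, hPw, hQv, hQw⟩ : ∃ t, (t = v ∨ t = w) ∧ ∃ P Q, l₁ = P ++ t :: Q ∧
      v ∉ P ∧ w ∉ P ∧ v ∉ Q ∧ w ∉ Q := by
    have key : ∀ t t' : V, t ∈ l₁ → t' ∉ l₁ ∨ t' = t → ∃ P Q, l₁ = P ++ t :: Q ∧
      t ∉ P ∧ t' ∉ P ∧ t ∉ Q ∧ t' ∉ Q := by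
      intro t t' ht ht'
      obtain ⟨P, Q, hPQ⟩ := List.append_of_mem ht
      have hn := hnd.1
      rw [hPQ] at hn ht'
      have h3 := List.nodup_append.1 hn
      have htP : t ∉ P := fun h => h3.2.2 t h t (by simp) rfl
      have htQ : t ∉ Q := (List.nodup_cons.1 h3.2.1).1
      refine ⟨P, Q, hPQ, htP, ?_, htQ, ?_⟩
      · rcases ht' with h | rfl
        · intro h'; apply h; simp [h']
        · exact htP
      · rcases ht' with h | rfl
        · intro h'; apply h; simp [h']
        · exact htQ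
    rcases h1 with h1 | h1
    · have : w ∉ l₁ ∨ w = v := by
        rcases h2 with h2 | h2
        · exact absurd rfl (hnd.2.2 v h1 v h2)
        · exact Or.inl fun h => hnd.2.2 w h w h2 rfl
      obtain ⟨P, Q, a1, a2, a3, a4, a5⟩ := key v w h1 this
      exact ⟨v, Or.inl rfl, P, Q, a1, a2, a3, a4, a5⟩
    · have : v ∉ l₁ ∨ v = w := by
        rcases h2 with h2 | h2
        · exact Or.inl fun h => hnd.2.2 v h v h2 rfl
        · exact absurd rfl (hnd.2.2 w h1 w h2)
      obtain ⟨P, Q, a1, a2, a3, a4, a5⟩ := key w v h1 this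
      exact ⟨w, Or.inr rfl, P, Q, a1, a3, a2, a5, a4⟩
  have hPR : ∀ z ∈ P, z ∈ R := by
    intro z hz
    have hc := hL.c1
    have hh := g1
    rw [hPQ] at hc hh
    obtain ⟨p, hp1, hp2⟩ := reach_prefix hc hh hPv hPw z hz
    exact ⟨x1, hx1, p, hp1, hp2⟩
  have hQR : ∀ z ∈ Q, z ∉ R := by
    rintro z hz ⟨a, ha, p, hp1, hp2⟩
    have hc := hL.c1
    have hh := k1
    have e1 : P ++ t :: Q = (P ++ [t]) ++ Q := by simp
    rw [hPQ, e1] at hc hh
    obtain ⟨q, hq1, hq2⟩ := reach_suffix hc hh hQv hQw z hz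
    have := hsep a ha y1 hy1 (p.append q)
    rw [Walk.mem_support_append_iff, Walk.mem_support_append_iff] at this
    tauto
  have htR : t ∉ R := by rcases htvw with rfl | rfl <;> assumption
  -- position of the dart
  have heq : A ++ x :: y :: B = P ++ t :: Q := by rw [← hl, ← hPQ]
  rcases List.append_eq_append_iff.1 heq with ⟨C, hC1, hC2⟩ | ⟨C, hC1, hC2⟩
  · -- `P = A ++ C`, `x :: y :: B = C ++ t :: Q`
    rcases C with _ | ⟨c1, _ | ⟨c2, C⟩⟩
    · simp only [List.nil_append, List.cons.injEq] at hC2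
      right
      obtain ⟨rfl, h3⟩ := hC2
      have hyQ : y ∈ Q := by rw [← h3]; simp
      refine ⟨htR, hQR y hyQ, ?_, ?_⟩
      · rintro rfl; exact hQv hyQ
      · rintro rfl; exact hQw hyQ
    · simp only [List.cons_append, List.nil_append, List.cons.injEq] at hC2
      left
      obtain ⟨rfl, rfl, -⟩ := hC2
      refine ⟨hPR x (by rw [hC1]; simp), Or.inr htvw⟩
    · simp only [List.cons_append, List.cons.injEq] at hC2
      left
      obtain ⟨rfl, rfl, -⟩ := hC2
      exact ⟨hPR x (by rw [hC1]; simp), Or.inl (hPR y (by rw [hC1]; simp))⟩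
  · -- `A = P ++ C`, `t :: Q = C ++ x :: y :: B`
    rcases C with _ | ⟨c1, C⟩
    · simp only [List.nil_append, List.cons.injEq] at hC2
      right
      obtain ⟨rfl, h3⟩ := hC2
      have hyQ : y ∈ Q := by rw [h3]; simp
      refine ⟨htR, hQR y hyQ, ?_, ?_⟩
      · rintro rfl; exact hQv hyQ
      · rintro rfl; exact hQw hyQ
    · simp only [List.cons_append, List.cons.injEq] at hC2
      right
      obtain ⟨rfl, h3⟩ := hC2
      have hxQ : x ∈ Q := by rw [h3]; simp
      have hyQ : y ∈ Q := by rw [h3]; simp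
      refine ⟨hQR x hxQ, hQR y hyQ, ?_, ?_⟩
      · rintro rfl; exact hQv hyQ
      · rintro rfl; exact hQw hyQ

section
variable [Fintype V] [DecidableEq V]

theorem dart_excl {e f : Sym2 V} (hef : e ≠ f) (he : e ∈ G.edgeSet) (hf : f ∈ G.edgeSet) {x y : V}
    (hx : Unavoidable G e f x) (h1 : Dart G.Adj e f x y) (h2 : Dart G.Adj e f y x) : False := by
  rcases separates_of_unavoidable hef he hf hx with h | h | ⟨w, hw⟩
  · obtain ⟨l₁, l₂, A, B, hL, hl⟩ := h2
    exact hL.not_mem_e hl h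
  · obtain ⟨l₁, l₂, A, B, hL, hl⟩ := h1
    exact hL.not_mem_f hl h
  · obtain ⟨R, hxR, -, hR⟩ := dart_sides hw
    rcases hR x y h1 with ⟨h3, -⟩ | ⟨-, h3, -⟩
    · exact hxR h3
    · rcases hR y x h2 with ⟨h4, -⟩ | ⟨-, -, h4, -⟩
      · exact h3 h4
      · exact h4 rfl

/-- one-sided circles are positive when there are potentials -/
theorem wsign_oneSided {σ : Sym2 V → ℤˣ} {e f : Sym2 V} (hef : e ≠ f) (he : e ∈ G.edgeSet)
    (hf : f ∈ G.edgeSet) {α β : V → ℤˣ} (h1 : ∀ v, ¬ Unavoidable G e f v → α v = β v)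
    (h2 : ∀ x y, Dart G.Adj e f x y → σ s(x, y) = α x * β y) {u : V} {c : G.Walk u u}
    (hc : OneSided G e f c) : wsign σ c = 1 := by
  classical
  set θ : V → ℤˣ := fun x => if Unavoidable G e f x ∧
    ¬ (∀ y, s(x, y) ∈ c.edges → Dart G.Adj e f x y) then β x else α x with hθ
  have hout : ∀ x, Unavoidable G e f x →
      (∀ y, s(x, y) ∈ c.edges → Dart G.Adj e f x y) ∨ (∀ y, s(x, y) ∈ c.edges → Dart G.Adj e f y x) := by
    intro x hx
    rcases hc.2 x hx with h | h
    · exact Or.inl fun y hy => (traversed_iff hef he hf x y).1 (h y hy)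
    · exact Or.inr fun y hy => (traversed_iff hef he hf y x).1 (h y hy)
  have key : ∀ x y, s(x, y) ∈ c.edges → Dart G.Adj e f x y → σ s(x, y) = θ x * θ y := by
    intro x y hxy hD
    have ex : θ x = α x := by
      simp only [hθ]
      rw [if_neg]
      rintro ⟨hx, hno⟩
      rcases hout x hx with h | h
      · exact hno h
      · exact dart_excl hef he hf hx hD (h y hxy)
    have ey : θ y = β y := by
      simp only [hθ]
      by_cases hy : Unavoidable G e f y
      · rw [if_pos]
        refine ⟨hy, fun hall => ?_⟩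
        exact dart_excl hef he hf hy (hall x (by rw [Sym2.eq_swap]; exact hxy)) hD
      · rw [if_neg (fun h => hy h.1), h1 y hy]
    rw [h2 x y hD, ex, ey]
  have := wsign_of_switching (σ := σ) (θ := θ) c (by
    rintro g hg x y rfl
    rcases hc.1 x y hg with h | h
    · exact key x y hg ((traversed_iff hef he hf x y).1 h)
    · rw [Sym2.eq_swap, key y x (by rw [Sym2.eq_swap]; exact hg)
        ((traversed_iff hef he hf y x).1 h), mul_comm])
  rw [this]
  exact Int.units_mul_self _

omit [Fintype V] [DecidableEq V] in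
theorem dart_ne {r : V → V → Prop} {e f : Sym2 V} {x y : V} (h : Dart r e f x y) : x ≠ y := by
  obtain ⟨l₁, l₂, A, B, hL, hl⟩ := h
  rintro rfl
  have := (List.nodup_append.1 hL.nd).1
  rw [hl] at this
  have h2 := (List.nodup_append.1 this).2.1
  rw [List.nodup_cons] at h2
  exact h2.1 (by simp)

/-- the arcs of the split graph -/
def SplitArc (G : SimpleGraph V) (e f : Sym2 V) (n m : V × Bool) : Prop :=
  n.2 = true ∧ (m.2 = true ↔ ¬ Unavoidable G e f m.1) ∧ Dart G.Adj e f n.1 m.1

/-- adjacency in the split graph -/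
def SplitRel (G : SimpleGraph V) (e f : Sym2 V) (n m : V × Bool) : Prop :=
  n = m ∨ SplitArc G e f n m ∨ SplitArc G e f m n

/-- the two copies of an unavoidable vertex are in different components of the split graph -/
theorem split_class {e f : Sym2 V} (hef : e ≠ f) (he : e ∈ G.edgeSet) (hf : f ∈ G.edgeSet)
    {v w : V} (hv : Unavoidable G e f v) (hsep : Separates G e f v w) :
    ∃ κ : V × Bool → Prop, κ (v, false) ∧ ¬ κ (v, true) ∧ ∀ n m, SplitRel G e f n m → (κ n ↔ κ m) := by
  have hw : Unavoidable G e f w := by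
    apply unavoidable_of_separates hef he hf
    exact Or.inr (Or.inr ⟨v, fun a ha b hb p => (hsep a ha b hb p).symm⟩)
  obtain ⟨R, hvR, hwR, hR⟩ := dart_sides hsep
  refine ⟨fun n => n.1 ∈ R ∨ ((n.1 = v ∨ n.1 = w) ∧ n.2 = false), Or.inr ⟨Or.inl rfl, rfl⟩, ?_, ?_⟩
  · rintro (h | h)
    · exact hvR h
    · exact absurd h.2 (by simp)
  · have key : ∀ n m, SplitArc G e f n m → ((n.1 ∈ R ∨ ((n.1 = v ∨ n.1 = w) ∧ n.2 = false)) ↔
        (m.1 ∈ R ∨ ((m.1 = v ∨ m.1 = w) ∧ m.2 = false))) := by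
      rintro n m ⟨h1, h2, h3⟩
      rcases hR _ _ h3 with ⟨h4, h5⟩ | ⟨h4, h5, h6, h7⟩
      · constructor
        · intro _
          rcases h5 with h5 | h5
          · exact Or.inl h5
          · refine Or.inr ⟨h5, ?_⟩
            have hm : Unavoidable G e f m.1 := by rcases h5 with h5 | h5 <;> rw [h5] <;> assumption
            by_contra hne
            have : m.2 = true := by simpa using hne
            exact h2.1 this hm
        · intro _
          exact Or.inl h4
      · constructor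
        · rintro (h | ⟨-, h⟩)
          · exact absurd h h4
          · rw [h1] at h; exact absurd h (by simp)
        · rintro (h | ⟨h | h, -⟩)
          · exact absurd h h5
          · exact absurd h h6
          · exact absurd h h7
    rintro n m (rfl | h | h)
    · rfl
    · exact key n m h
    · exact (key m n h).symm

omit [Fintype V] [DecidableEq V] in
theorem splitRel_symm {e f : Sym2 V} {n m : V × Bool} (h : SplitRel G e f n m) :
    SplitRel G e f m n := by
  rcases h with rfl | h | h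
  · exact Or.inl rfl
  · exact Or.inr (Or.inr h)
  · exact Or.inr (Or.inl h)

omit [Fintype V] [DecidableEq V] in
theorem class_of_chain {e f : Sym2 V} {κ : V × Bool → Prop}
    (hκ : ∀ n m, SplitRel G e f n m → (κ n ↔ κ m)) :
    ∀ l : List (V × Bool), l.IsChain (SplitRel G e f) → ∀ n ∈ l, ∀ m ∈ l, (κ n ↔ κ m) := by
  intro l
  induction l with
  | nil => simp
  | cons a t ih =>
    intro hch
    have key : ∀ n ∈ a :: t, (κ a ↔ κ n) := by
      intro n hn
      rw [List.mem_cons] at hn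
      rcases hn with rfl | hn
      · rfl
      · rcases t with _ | ⟨b, t⟩
        · simp at hn
        · rw [List.isChain_cons_cons] at hch
          exact (hκ a b hch.1).trans (ih hch.2 b (by simp) n hn)
    intro n hn m hm
    exact (key n hn).symm.trans (key m hm)

end

end NPP
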