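import Pool.Agent.helper50.NPP.PotThm

/-! The certificate for a pair of edges, in terms of linkages. -/

namespace NPP

variable {V : Type*}

/-- `(u, v)` is consecutive on a path of a linkage -/
def Dart (r : V → V → Prop) (e f : Sym2 V) (u v : V) : Prop :=
  ∃ l₁ l₂ A B, Lk r e f l₁ l₂ ∧ l₁ = A ++ u :: v :: B

/-- `v` lies on every linkage -/
def Unav (r : V → V → Prop) (e f : Sym2 V) (v : V) : Prop :=
  ∀ l₁ l₂, Lk r e f l₁ l₂ → v ∈ l₁ ∨ v ∈ l₂

/-- subgraph of the edges used by linkages -/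
def Hr (r : V → V → Prop) (e f : Sym2 V) (u v : V) : Prop := Dart r e f u v ∨ Dart r e f v u

theorem chain_Hr {r : V → V → Prop} {e f : Sym2 V} {l₁ l₂ : List V} (h : Lk r e f l₁ l₂) :
    l₁.IsChain (Hr r e f) := by
  rw [List.isChain_iff_forall_rel_of_append_cons_cons]
  intro a b l m hl
  exact Or.inl ⟨l₁, l₂, l, m, h, hl⟩

theorem Lk.toHr {r : V → V → Prop} {e f : Sym2 V} {l₁ l₂ : List V} (h : Lk r e f l₁ l₂) :
    Lk (Hr r e f) e f l₁ l₂ :=
  ⟨chain_Hr h, chain_Hr h.swap, h.nd, h.hd, h.lt⟩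

theorem Hr.rel {r : V → V → Prop} (hr : ∀ x y, r x y → r y x) {e f : Sym2 V} {u v : V}
    (h : Hr r e f u v) : r u v := by
  rcases h with ⟨l₁, l₂, A, B, h, hl⟩ | ⟨l₁, l₂, A, B, h, hl⟩
  · have c := h.c1
    rw [hl, List.isChain_append_cons_cons] at c
    exact c.2.1
  · have c := h.c1
    rw [hl, List.isChain_append_cons_cons] at c
    exact hr _ _ c.2.1

theorem prod_list_cert {w : V → V → ℤˣ} {α β : V → ℤˣ} {l : List V} {x y : V}
    (hx : l.head? = some x) (hy : l.getLast? = some y)
    (h : l.IsChain fun u v => w u v = α u * β v) :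
    lsign w l * (β x * α y) = (l.map fun v => α v * β v).prod := by
  induction l generalizing x with
  | nil => simp at hx
  | cons a t ih =>
    simp only [List.head?_cons, Option.some.injEq] at hx
    subst hx
    cases t with
    | nil =>
      simp only [List.getLast?_singleton, Option.some.injEq] at hy
      subst hy
      simp [mul_comm]
    | cons b t =>
      rw [List.isChain_cons_cons] at h
      rw [List.getLast?_cons_cons] at hy
      have := ih (x := b) rfl hy h.2
      rw [List.map_cons, List.prod_cons, ← this, lsign_cons_cons, h.1]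
      have hb := Int.units_mul_self (β b)
      calc α a * β b * lsign w (b :: t) * (β a * α y)
          = (α a * β a) * (lsign w (b :: t) * (β b * α y)) := by
            simp only [mul_comm, mul_left_comm, mul_assoc]
        _ = _ := rfl

variable [Fintype V]

/-- a certificate forces a constant sign -/
theorem lconst_of_cert {r : V → V → Prop} {w : V → V → ℤˣ} {e f : Sym2 V}
    {α β : V → ℤˣ} (hα : ∀ v ∈ f, α v = 1) (hβ : ∀ v ∈ e, β v = 1)
    (hU : ∀ v, ¬ Unav r e f v → α v = β v) (hD : ∀ u v, Dart r e f u v → w u v = α u * β v) :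
    LConst r w e f (∏ v, α v * β v) := by
  classical
  intro l₁ l₂ h
  obtain ⟨x1, x2, g1, g2, g3⟩ := h.hd
  obtain ⟨y1, y2, k1, k2, k3⟩ := h.lt
  have c1 : l₁.IsChain fun u v => w u v = α u * β v := by
    rw [List.isChain_iff_forall_rel_of_append_cons_cons]
    intro a b l m hl
    exact hD a b ⟨l₁, l₂, l, m, h, hl⟩
  have c2 : l₂.IsChain fun u v => w u v = α u * β v := by
    rw [List.isChain_iff_forall_rel_of_append_cons_cons]
    intro a b l m hl
    exact hD a b ⟨l₂, l₁, l, m, h.swap, hl⟩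
  have e1 := prod_list_cert g1 k1 c1
  have e2 := prod_list_cert g2 k2 c2
  have hx1 : β x1 = 1 := hβ x1 (by rw [← g3]; simp)
  have hx2 : β x2 = 1 := hβ x2 (by rw [← g3]; simp)
  have hy1 : α y1 = 1 := hα y1 (by rw [← k3]; simp)
  have hy2 : α y2 = 1 := hα y2 (by rw [← k3]; simp)
  rw [hx1, hy1, mul_one, mul_one] at e1
  rw [hx2, hy2, mul_one, mul_one] at e2
  rw [e1, e2, ← List.prod_append, ← List.map_append, ← List.prod_toFinset _ h.nd]
  apply Finset.prod_subset (Finset.subset_univ _)
  intro v _ hv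
  rw [List.mem_toFinset, List.mem_append] at hv
  rw [hU v (fun h' => hv (h' l₁ l₂ h))]
  exact Int.units_mul_self _

theorem cert_of_lconst {r : V → V → Prop} (hr : ∀ x y, r x y → r y x) {w : V → V → ℤˣ}
    (hw : ∀ x y, w x y = w y x) {e f : Sym2 V} (he : ¬ e.IsDiag) (hf : ¬ f.IsDiag)
    {s0 : ℤˣ} (hc : LConst r w e f s0)
    {k₁ k₂ : List V} (hex : Lk r e f k₁ k₂) :
    ∃ α β : V → ℤˣ, (∀ v ∈ f, α v = 1) ∧ (∀ v ∈ e, β v = 1) ∧
      (∀ v, ¬ Unav r e f v → α v = β v) ∧ (∀ u v, Dart r e f u v → w u v = α u * β v) ∧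
      ∏ v, α v * β v = s0 := by
  classical
  have hHr : ∀ l₁ l₂, Lk (Hr r e f) e f l₁ l₂ → Lk r e f l₁ l₂ :=
    fun l₁ l₂ h => h.mono fun _ _ h' => Hr.rel hr h'
  obtain ⟨α, β, hcov, hα, hβ, hprod⟩ := exists_potentials (K := Hr r e f) (w := w) he hf
    (fun l₁ l₂ h => hc l₁ l₂ (hHr l₁ l₂ h)) (by
      intro l₁ l₂ C hL hC hd
      have hL' := hHr _ _ hL
      have hC' : Cyc r C := ⟨hC.nd, hC.ne, hC.ch.imp fun _ _ h' => Hr.rel hr h'⟩
      rcases C with _ | ⟨x, _ | ⟨y, C⟩⟩
      · exact absurd rfl hC.ne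
      · exfalso
        have h1 := hC.ch
        rw [cchain_cons] at h1
        simp only [List.cons_append, List.nil_append, List.isChain_cons_cons] at h1
        rcases h1.1 with ⟨l₁, l₂, A, B, h, hl⟩ | ⟨l₁, l₂, A, B, h, hl⟩
        all_goals
          have := (List.nodup_append.1 h.nd).1
          rw [hl] at this
          have h2 := (List.nodup_append.1 this).2.1
          rw [List.nodup_cons] at h2
          exact h2.1 (by simp)
      · have h1 := hC.ch
        rw [cchain_cons] at h1
        simp only [List.cons_append, List.isChain_cons_cons] at h1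
        rcases h1.1 with ⟨R₁, R₂, A, B, h, hl⟩ | ⟨R₁, R₂, A, B, h, hl⟩
        · exact csign_of_edge hr hw hc hL' hC' hd h hl (by simp) (by simp)
        · exact csign_of_edge hr hw hc hL' hC' hd h hl (by simp) (by simp)) hex.toHr
  refine ⟨α, β, hα, hβ, ?_, ?_, hprod⟩
  · intro v hv
    unfold Unav at hv
    push Not at hv
    obtain ⟨l₁, l₂, h, h1, h2⟩ := hv
    obtain ⟨c1, -, -, -, c5⟩ := cover_one h.toHr
    have := hcov _ c1 v
    rw [c5 v h1 h2, cw_self] at this
    rcases Int.units_eq_one_or (α v) with ha | ha <;> rcases Int.units_eq_one_or (β v) with hb | hb <;>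
      rw [ha, hb] at this ⊢ <;> first | rfl | (exact absurd this (by decide))
  · rintro u v ⟨l₁, l₂, A, B, h, hl⟩
    obtain ⟨c1, c2, -, -, -⟩ := cover_one h.toHr
    rw [List.isChain_iff_forall_rel_of_append_cons_cons] at c2
    have h2 := c2 hl
    have h3 := hcov _ c1 u
    rw [← h2] at h3
    rw [← h3]
    refine (cw_of w (h.not_mem_f hl) ?_).symm
    rintro rfl
    have := (List.nodup_append.1 h.nd).1
    rw [hl] at this
    have h2 := (List.nodup_append.1 this).2.1
    rw [List.nodup_cons] at h2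
    exact h2.1 (by simp)

end NPP
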