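import Pool.Agent.helper50.NPP.Main

/-! Two-separations. -/

namespace NPP

open SimpleGraph

variable {V : Type*} {G : SimpleGraph V}

theorem TwoSep.swap {A B : Set V} {x y : V} (h : TwoSep G A B x y) : TwoSep G B A x y :=
  ⟨h.ne, by rw [Set.inter_comm]; exact h.inter, by rw [Set.union_comm]; exact h.union,
    fun u v huv => (h.edge u v huv).symm⟩

theorem TwoSep.both {A B : Set V} {x y : V} (h : TwoSep G A B x y) {v : V} (hA : v ∈ A)
    (hB : v ∈ B) : v = x ∨ v = y := by
  have : v ∈ A ∩ B := ⟨hA, hB⟩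
  rw [h.inter] at this
  simpa using this

theorem TwoSep.mem {A B : Set V} {x y : V} (h : TwoSep G A B x y) :
    (x ∈ A ∧ x ∈ B) ∧ (y ∈ A ∧ y ∈ B) := by
  have h1 : x ∈ A ∩ B := by rw [h.inter]; simp
  have h2 : y ∈ A ∩ B := by rw [h.inter]; simp
  exact ⟨h1, h2⟩

theorem TwoSep.total {A B : Set V} {x y : V} (h : TwoSep G A B x y) (v : V) : v ∈ A ∨ v ∈ B := by
  have : v ∈ A ∪ B := by rw [h.union]; trivial
  exact this

theorem eq_nil_of_isPath {u : V} {p : G.Walk u u} (hp : p.IsPath) : p = Walk.nil :=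
  Walk.eq_nil_iff_nil.2 (Walk.isPath_iff_nil.1 hp)

/-- a walk from `A \ B` to `B \ A` meets `{x, y}` -/
theorem TwoSep.cross {A B : Set V} {x y : V} (h : TwoSep G A B x y) {u v : V} (p : G.Walk u v)
    (hu : u ∈ A) (hv : v ∉ A) : x ∈ p.support ∨ y ∈ p.support := by
  induction p with
  | nil => exact absurd hu hv
  | @cons u w v hadj p ih =>
    by_cases hw : w ∈ A
    · rcases ih hw hv with h1 | h1
      · left; rw [Walk.support_cons]; exact List.mem_cons_of_mem _ h1
      · right; rw [Walk.support_cons]; exact List.mem_cons_of_mem _ h1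
    · have huB : u ∈ B := by
        rcases h.edge u w hadj with h1 | h1
        · exact absurd h1.2 hw
        · exact h1.1
      rcases h.both hu huB with h1 | h1
      · left; subst h1; simp
      · right; subst h1; simp

theorem TwoSep.side_aux {A B : Set V} {x y : V} (h : TwoSep G A B x y) {z : V} (p : G.Walk z y)
    (hp : p.IsPath) (hx : x ∉ p.support) (hz : z ∈ A) (hzy : z ≠ y) : ∀ v ∈ p.support, v ∈ A := by
  induction p with
  | nil => exact absurd rfl hzy
  | @cons z w y hadj p ih =>
    rw [Walk.cons_isPath_iff] at hp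
    rw [Walk.support_cons, List.mem_cons, not_or] at hx
    have hzB : z ∉ B := by
      intro hzB
      rcases h.both hz hzB with h1 | h1
      · exact hx.1 h1.symm
      · exact hzy h1
    have hw : w ∈ A := by
      rcases h.edge z w hadj with h1 | h1
      · exact h1.2
      · exact absurd h1.1 hzB
    intro v hv
    rw [Walk.support_cons, List.mem_cons] at hv
    rcases hv with rfl | hv
    · exact hz
    · by_cases hwy : w = y
      · subst hwy
        have : p = Walk.nil := eq_nil_of_isPath hp.1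
        rw [this] at hv
        simp only [Walk.support_nil, List.mem_singleton] at hv
        rw [hv]; exact hw
      · exact ih h hp.1 hx.2 hw hwy v hv

/-- a path from `x` to `y` lies in `A` or in `B` -/
theorem TwoSep.side {A B : Set V} {x y : V} (h : TwoSep G A B x y) (p : G.Walk x y)
    (hp : p.IsPath) : (∀ v ∈ p.support, v ∈ A) ∨ (∀ v ∈ p.support, v ∈ B) := by
  cases p with
  | nil => exact absurd rfl h.ne
  | @cons _ w _ hadj p =>
    rw [Walk.cons_isPath_iff] at hp
    have hm := h.mem
    by_cases hwy : w = y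
    · subst hwy
      left
      have : p = Walk.nil := eq_nil_of_isPath hp.1
      intro v hv
      rw [this] at hv
      simp only [Walk.support_cons, Walk.support_nil, List.mem_cons, List.not_mem_nil, or_false] at hv
      rcases hv with rfl | rfl
      · exact hm.1.1
      · exact hm.2.1
    · rcases h.total w with hw | hw
      · left
        intro v hv
        rw [Walk.support_cons, List.mem_cons] at hv
        rcases hv with rfl | hv
        · exact hm.1.1
        · exact h.side_aux p hp.1 hp.2 hw hwy v hv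
      · right
        intro v hv
        rw [Walk.support_cons, List.mem_cons] at hv
        rcases hv with rfl | hv
        · exact hm.1.2
        · exact h.swap.side_aux p hp.1 hp.2 hw hwy v hv

theorem wsign_reverse (σ : Sym2 V → ℤˣ) {u v : V} (p : G.Walk u v) :
    wsign σ p.reverse = wsign σ p := by
  unfold wsign
  rw [Walk.edges_reverse, List.map_reverse, List.prod_reverse]

/-- two vertices of a circle cut it into two arcs -/
theorem arcs (σ : Sym2 V → ℤˣ) {u : V} {c : G.Walk u u} (hc : c.IsCycle) {x y : V}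
    (hx : x ∈ c.support) (hy : y ∈ c.support) (hxy : x ≠ y) :
    ∃ p q : G.Walk x y, p.IsPath ∧ q.IsPath ∧ (∀ g, g ∈ c.edges ↔ g ∈ p.edges ∨ g ∈ q.edges) ∧
      wsign σ c = wsign σ p * wsign σ q ∧
      (∀ v, v ∈ c.support ↔ v ∈ p.support ∨ v ∈ q.support) ∧
      ∀ v ∈ p.support, v ∈ q.support → v = x ∨ v = y := by
  classical
  have hc1 := hc.rotate hx
  have hsup : ∀ v, v ∈ (c.rotate x hx).support ↔ v ∈ c.support := by
    intro v
    exact Walk.mem_support_rotate_iff c x hx
  have hy1 : y ∈ (c.rotate x hx).support := (hsup y).2 hy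
  set c1 := c.rotate x hx with hc1def
  have hspec := c1.take_spec hy1
  set p := c1.takeUntil y hy1 with hp
  set q := c1.dropUntil y hy1 with hq
  have hpn : ¬ p.Nil := Walk.not_nil_of_ne hxy
  have hqn : ¬ q.Nil := Walk.not_nil_of_ne hxy.symm
  have hcyc : (p.append q).IsCycle := by rw [hspec]; exact hc1
  have hperm : c.edges.Perm c1.edges := (c.rotate_edges x hx).perm.symm
  refine ⟨p, q.reverse, hcyc.isPath_of_append_left hqn, (hcyc.isPath_of_append_right hpn).reverse,
    ?_, ?_, ?_, ?_⟩
  · intro g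
    rw [hperm.mem_iff, ← hspec, Walk.edges_append, List.mem_append, Walk.edges_reverse,
      List.mem_reverse]
  · rw [wsign_reverse, ← wsign_append, hspec]
    unfold wsign
    exact (hperm.map σ).prod_eq
  · intro v
    rw [← hsup v, ← hspec, Walk.mem_support_append_iff, Walk.support_reverse, List.mem_reverse]
  · intro v hvp hvq
    rw [Walk.support_reverse, List.mem_reverse] at hvq
    by_contra hcon
    push Not at hcon
    have hn := hcyc.support_nodup
    rw [Walk.tail_support_append, List.nodup_append] at hn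
    have h1 : v ∈ p.support.tail := by
      rw [← Walk.cons_tail_support p, List.mem_cons] at hvp
      exact hvp.resolve_left hcon.1
    have h2 : v ∈ q.support.tail := by
      rw [← Walk.cons_tail_support q, List.mem_cons] at hvq
      exact hvq.resolve_left hcon.2
    exact hn.2.2 v h1 v h2 rfl

/-- gluing two paths -/
theorem glue {A B : Set V} {x y : V} (h : TwoSep G A B x y) {p q : G.Walk x y} (hp : p.IsPath)
    (hq : q.IsPath) (hpA : ∀ v ∈ p.support, v ∈ A) (hqB : ∀ v ∈ q.support, v ∈ B)
    {e : Sym2 V} (he : e ∈ p.edges) (hne : e ≠ s(x, y)) : (p.append q.reverse).IsCycle := by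
  apply hp.isCycle_append hq.reverse
  · intro v h1 h2
    have h3 : v ∈ q.support := by
      have := List.mem_of_mem_tail h2
      rwa [Walk.support_reverse, List.mem_reverse] at this
    rcases h.both (hpA v (List.mem_of_mem_tail h1)) (hqB v h3) with rfl | rfl
    · have hn := hp.support_nodup
      rw [← Walk.cons_tail_support p, List.nodup_cons] at hn
      exact hn.1 h1
    · have hn := hq.reverse.support_nodup
      rw [← Walk.cons_tail_support q.reverse, List.nodup_cons] at hn
      exact hn.1 h2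
  · left
    by_contra hlen
    cases p with
    | nil => simp at he
    | @cons _ w _ hadj p' =>
      rw [Walk.length_cons] at hlen
      have h0 : p'.length = 0 := by omega
      have h1 := Walk.eq_of_length_eq_zero h0
      subst h1
      have : p' = Walk.nil := eq_nil_of_isPath ((Walk.cons_isPath_iff _ _).1 hp).1
      subst this
      simp only [Walk.edges_cons, Walk.edges_nil, List.mem_singleton] at he
      exact hne he

theorem TwoSep.exists_notMem {A B : Set V} {x y : V} (h : TwoSep G A B x y) {e : Sym2 V}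
    (he : e ∈ G.edgeSet) (heA : ∀ v ∈ e, v ∈ A) (hne : e ≠ s(x, y)) : ∃ a ∈ e, a ∉ B := by
  by_contra hcon
  push Not at hcon
  obtain ⟨a, b, rfl⟩ : ∃ a b, e = s(a, b) := by
    induction e using Sym2.ind with
    | _ a b => exact ⟨a, b, rfl⟩
  have hab : a ≠ b := by simpa using not_isDiag he
  have h1 := h.both (heA a (by simp)) (hcon a (by simp))
  have h2 := h.both (heA b (by simp)) (hcon b (by simp))
  apply hne
  rcases h1 with rfl | rfl <;> rcases h2 with rfl | rfl
  · exact absurd rfl hab
  · rfl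
  · exact Sym2.eq_swap
  · exact absurd rfl hab

/-- a circle with vertices on both sides contains both `x` and `y` -/
theorem TwoSep.circle {A B : Set V} {x y : V} (h : TwoSep G A B x y) {u : V} {c : G.Walk u u}
    (hc : c.IsCycle) {a b : V} (ha : a ∈ c.support) (hb : b ∈ c.support) (haB : a ∉ B)
    (hbA : b ∉ A) : x ∈ c.support ∧ y ∈ c.support := by
  have haA : a ∈ A := (h.total a).resolve_right haB
  have hab : a ≠ b := by rintro rfl; exact hbA haA
  obtain ⟨p, q, -, -, -, -, h1, h2⟩ := arcs (fun _ => 1) hc ha hb hab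
  have hm := h.mem
  have hxa : x ≠ a := by rintro rfl; exact haB hm.1.2
  have hxb : x ≠ b := by rintro rfl; exact hbA hm.1.1
  have hya : y ≠ a := by rintro rfl; exact haB hm.2.2
  have hyb : y ≠ b := by rintro rfl; exact hbA hm.2.1
  have h3 := h.cross p haA hbA
  have h4 := h.cross q haA hbA
  constructor
  · rw [h1]
    by_contra hcon
    push Not at hcon
    rcases h2 y (h3.resolve_left hcon.1) (h4.resolve_left hcon.2) with h5 | h5
    · exact hya h5
    · exact hyb h5
  · rw [h1]
    by_contra hcon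
    push Not at hcon
    rcases h2 x (h3.resolve_right hcon.1) (h4.resolve_right hcon.2) with h5 | h5
    · exact hxa h5
    · exact hxb h5

theorem mem_support_of_mem {u v : V} {p : G.Walk u v} {g : Sym2 V} (hg : g ∈ p.edges) {a : V}
    (ha : a ∈ g) : a ∈ p.support :=
  Walk.mem_support_iff_exists_mem_edges.2 (Or.inr ⟨g, hg, ha⟩)

/-- a circle through edges on different sides is a union of two paths -/
theorem split_circle (σ : Sym2 V → ℤˣ) {A B : Set V} {x y : V} (h : TwoSep G A B x y)
    {e f : Sym2 V} (he : e ∈ G.edgeSet) (hf : f ∈ G.edgeSet) (heA : ∀ v ∈ e, v ∈ A)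
    (hfB : ∀ v ∈ f, v ∈ B) (hex : e ≠ s(x, y)) (hfx : f ≠ s(x, y)) {u : V} {c : G.Walk u u}
    (hc : c.IsCycle) (hec : e ∈ c.edges) (hfc : f ∈ c.edges) :
    ∃ p q : G.Walk x y, p.IsPath ∧ q.IsPath ∧ (∀ v ∈ p.support, v ∈ A) ∧
      (∀ v ∈ q.support, v ∈ B) ∧ e ∈ p.edges ∧ f ∈ q.edges ∧
      wsign σ p * wsign σ q = wsign σ c := by
  obtain ⟨a, hae, haB⟩ := h.exists_notMem he heA hex
  obtain ⟨b, hbf, hbA⟩ := h.swap.exists_notMem hf hfB hfx
  obtain ⟨hx, hy⟩ := h.circle hc (mem_support_of_mem hec hae) (mem_support_of_mem hfc hbf) haB hbA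
  obtain ⟨p, q, hp, hq, h1, h2, -, -⟩ := arcs σ hc hx hy h.ne
  have key : ∀ p q : G.Walk x y, p.IsPath → q.IsPath → (∀ g, g ∈ c.edges ↔ g ∈ p.edges ∨ g ∈ q.edges) →
      e ∈ p.edges → (∀ v ∈ p.support, v ∈ A) ∧ (∀ v ∈ q.support, v ∈ B) ∧ f ∈ q.edges := by
    intro p q hp hq h1 hep
    have hpA : ∀ v ∈ p.support, v ∈ A := by
      rcases h.side p hp with h3 | h3
      · exact h3
      · exact absurd (h3 a (mem_support_of_mem hep hae)) haB
    have hfq : f ∈ q.edges := by
      rcases (h1 f).1 hfc with h3 | h3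
      · exact absurd (hpA b (mem_support_of_mem h3 hbf)) hbA
      · exact h3
    refine ⟨hpA, ?_, hfq⟩
    rcases h.side q hq with h3 | h3
    · exact absurd (h3 b (mem_support_of_mem hfq hbf)) hbA
    · exact h3
  rcases (h1 e).1 hec with hep | heq
  · obtain ⟨k1, k2, k3⟩ := key p q hp hq h1 hep
    exact ⟨p, q, hp, hq, k1, k2, hep, k3, h2.symm⟩
  · obtain ⟨k1, k2, k3⟩ := key q p hq hp (fun g => by rw [h1 g, or_comm]) heq
    exact ⟨q, p, hq, hp, k1, k2, heq, k3, by rw [mul_comm, ← h2]⟩

/-- **Theorem 5a**: pairs of edges on different sides of a `2`-separation -/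
theorem negPair_different_sides (σ : Sym2 V → ℤˣ) {A B : Set V} {x y : V} (h : TwoSep G A B x y)
    {e f : Sym2 V} (he : e ∈ G.edgeSet) (hf : f ∈ G.edgeSet) (heA : ∀ v ∈ e, v ∈ A)
    (hfB : ∀ v ∈ f, v ∈ B) (hex : e ≠ s(x, y)) (hfx : f ≠ s(x, y)) :
    NegPair G σ e f ↔ ∃ p q : G.Walk x y, p.IsPath ∧ q.IsPath ∧ (∀ v ∈ p.support, v ∈ A) ∧
      (∀ v ∈ q.support, v ∈ B) ∧ e ∈ p.edges ∧ f ∈ q.edges ∧ wsign σ p * wsign σ q = -1 := by
  constructor
  · rintro ⟨u, c, hc, hec, hfc, hneg⟩
    obtain ⟨p, q, h1, h2, h3, h4, h5, h6, h7⟩ := split_circle σ h he hf heA hfB hex hfx hc hec hfc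
    exact ⟨p, q, h1, h2, h3, h4, h5, h6, h7.trans hneg⟩
  · rintro ⟨p, q, hp, hq, hpA, hqB, hep, hfq, hneg⟩
    refine ⟨x, _, glue h hp hq hpA hqB hep hex, ?_, ?_, ?_⟩
    · rw [Walk.edges_append]; exact List.mem_append_left _ hep
    · rw [Walk.edges_append, Walk.edges_reverse]
      exact List.mem_append_right _ (List.mem_reverse.2 hfq)
    · rw [wsign_append, wsign_reverse]; exact hneg

/-- **Theorem 5b**: pairs of edges on one side of a `2`-separation -/
theorem negPair_same_side (σ : Sym2 V → ℤˣ) {A B : Set V} {x y : V} (h : TwoSep G A B x y)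
    {e f : Sym2 V} (he : e ∈ G.edgeSet) (hf : f ∈ G.edgeSet) (hef : e ≠ f)
    (heA : ∀ v ∈ e, v ∈ A) (hfA : ∀ v ∈ f, v ∈ A) :
    NegPair G σ e f ↔
      (∃ (u : V) (c : G.Walk u u), c.IsCycle ∧ (∀ v ∈ c.support, v ∈ A) ∧ e ∈ c.edges ∧
        f ∈ c.edges ∧ wsign σ c = -1) ∨
      ∃ p q : G.Walk x y, p.IsPath ∧ q.IsPath ∧ (∀ v ∈ p.support, v ∈ A) ∧
        (∀ v ∈ q.support, v ∈ B) ∧ e ∈ p.edges ∧ f ∈ p.edges ∧ wsign σ p * wsign σ q = -1 := by
  constructor
  · rintro ⟨u, c, hc, hec, hfc, hneg⟩
    by_cases hall : ∀ v ∈ c.support, v ∈ A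
    · exact Or.inl ⟨u, c, hc, hall, hec, hfc, hneg⟩
    push Not at hall
    obtain ⟨b, hb, hbA⟩ := hall
    right
    obtain ⟨g, hge, hgne⟩ : ∃ g, (g = e ∨ g = f) ∧ g ≠ s(x, y) := by
      by_cases hex : e = s(x, y)
      · exact ⟨f, Or.inr rfl, fun h' => hef (hex.trans h'.symm)⟩
      · exact ⟨e, Or.inl rfl, hex⟩
    have hgA : ∀ v ∈ g, v ∈ A := by rcases hge with rfl | rfl <;> assumption
    have hgE : g ∈ G.edgeSet := by rcases hge with rfl | rfl <;> assumption
    have hgc : g ∈ c.edges := by rcases hge with rfl | rfl <;> assumption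
    obtain ⟨a, hag, haB⟩ := h.exists_notMem hgE hgA hgne
    have hac := mem_support_of_mem hgc hag
    obtain ⟨hx, hy⟩ := h.circle hc hac hb haB hbA
    obtain ⟨p, q, hp, hq, h1, h2, h3, -⟩ := arcs σ hc hx hy h.ne
    have key : ∀ p q : G.Walk x y, p.IsPath → q.IsPath → (∀ g, g ∈ c.edges ↔ g ∈ p.edges ∨ g ∈ q.edges) →
        (∀ v, v ∈ c.support ↔ v ∈ p.support ∨ v ∈ q.support) → a ∈ p.support →
        (∀ v ∈ p.support, v ∈ A) ∧ (∀ v ∈ q.support, v ∈ B) ∧ e ∈ p.edges ∧ f ∈ p.edges := by
      intro p q hp hq h1 h3 hap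
      have hpA : ∀ v ∈ p.support, v ∈ A := by
        rcases h.side p hp with h4 | h4
        · exact h4
        · exact absurd (h4 a hap) haB
      have hbq : b ∈ q.support := by
        rcases (h3 b).1 hb with h4 | h4
        · exact absurd (hpA b h4) hbA
        · exact h4
      have hqB : ∀ v ∈ q.support, v ∈ B := by
        rcases h.side q hq with h4 | h4
        · exact absurd (h4 b hbq) hbA
        · exact h4
      have hmem : ∀ g ∈ G.edgeSet, (∀ v ∈ g, v ∈ A) → g ∈ c.edges → g ∈ p.edges := by
        intro g hgE hgA hgc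
        rcases (h1 g).1 hgc with h4 | h4
        · exact h4
        · exfalso
          have hgxy : g = s(x, y) := by
            by_contra hne
            obtain ⟨z, hz, hzB⟩ := h.exists_notMem hgE hgA hne
            exact hzB (hqB z (mem_support_of_mem h4 hz))
          rw [hgxy] at h4
          have hlen := hq.length_eq_one_of_mem_edges h4
          cases q with
          | nil => simp at hlen
          | @cons _ w _ hadj q' =>
            rw [Walk.length_cons] at hlen
            have h0 : q'.length = 0 := by omega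
            have h5 := Walk.eq_of_length_eq_zero h0
            subst h5
            have : q' = Walk.nil := eq_nil_of_isPath ((Walk.cons_isPath_iff _ _).1 hq).1
            subst this
            simp only [Walk.support_cons, Walk.support_nil, List.mem_cons, List.not_mem_nil,
              or_false] at hbq
            have hm := h.mem
            rcases hbq with rfl | rfl
            · exact hbA hm.1.1
            · exact hbA hm.2.1
      exact ⟨hpA, hqB, hmem e he heA hec, hmem f hf hfA hfc⟩
    rcases (h3 a).1 hac with hap | haq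
    · obtain ⟨k1, k2, k3, k4⟩ := key p q hp hq h1 h3 hap
      exact ⟨p, q, hp, hq, k1, k2, k3, k4, by rw [← h2]; exact hneg⟩
    · obtain ⟨k1, k2, k3, k4⟩ := key q p hq hp (fun g => by rw [h1 g, or_comm])
        (fun v => by rw [h3 v, or_comm]) haq
      exact ⟨q, p, hq, hp, k1, k2, k3, k4, by rw [mul_comm, ← h2]; exact hneg⟩
  · rintro (⟨u, c, hc, -, hec, hfc, hneg⟩ | ⟨p, q, hp, hq, hpA, hqB, hep, hfp, hneg⟩)
    · exact ⟨u, c, hc, hec, hfc, hneg⟩
    · obtain ⟨g, hgp, hgne⟩ : ∃ g ∈ p.edges, g ≠ s(x, y) := by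
        by_cases hex : e = s(x, y)
        · exact ⟨f, hfp, fun h' => hef (hex.trans h'.symm)⟩
        · exact ⟨e, hep, hex⟩
      refine ⟨x, _, glue h hp hq hpA hqB hgp hgne, ?_, ?_, ?_⟩
      · rw [Walk.edges_append]; exact List.mem_append_left _ hep
      · rw [Walk.edges_append]; exact List.mem_append_left _ hfp
      · rw [wsign_append, wsign_reverse]; exact hneg

end NPP
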