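import Pool.Agent.helper50.NPP.Char
import Pool.Agent.helper50.NPP.Sep

/-! Unavoidable vertices, and pairs of edges which no two vertices separate. -/

namespace NPP

open SimpleGraph

variable {V : Type*} {G : SimpleGraph V}

theorem Lk.not_mem_e {K : V → V → Prop} {e f : Sym2 V} {l₁ l₂ A B : List V} {u v : V}
    (h : Lk K e f l₁ l₂) (hl : l₁ = A ++ u :: v :: B) : v ∉ e := by
  intro hv
  have hv1 : v ∈ l₁ := by rw [hl]; simp
  have hnd := List.nodup_append.1 h.nd
  rcases h.mem_e hv with h1 | h1
  · have hn := hnd.1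
    rw [hl] at h1 hn
    rcases A with _ | ⟨a, A⟩
    · simp only [List.nil_append, List.head?_cons, Option.some.injEq] at h1
      subst h1
      simp at hn
    · simp only [List.cons_append, List.head?_cons, Option.some.injEq] at h1
      subst h1
      simp at hn
  · exact hnd.2.2 v hv1 v (List.mem_of_head? h1) rfl

theorem unavoidable_of_separates {e f : Sym2 V} (hef : e ≠ f) (he : e ∈ G.edgeSet)
    (hf : f ∈ G.edgeSet) {v : V} (h : v ∈ e ∨ v ∈ f ∨ ∃ w, Separates G e f v w) :
    Unavoidable G e f v := by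
  rw [unavoidable_iff hef he hf]
  intro l₁ l₂ hL
  rcases h with h | h | ⟨w, h⟩
  · rcases hL.mem_e h with h1 | h1
    · exact Or.inl (List.mem_of_head? h1)
    · exact Or.inr (List.mem_of_head? h1)
  · rcases hL.mem_f h with h1 | h1
    · exact Or.inl (List.mem_of_getLast? h1)
    · exact Or.inr (List.mem_of_getLast? h1)
  · obtain ⟨x1, x2, g1, g2, g3⟩ := hL.hd
    obtain ⟨y1, y2, k1, k2, k3⟩ := hL.lt
    obtain ⟨p, hp⟩ := exists_walk_of_list g1 k1 hL.c1
    obtain ⟨q, hq⟩ := exists_walk_of_list g2 k2 hL.c2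
    have h1 := h x1 (by rw [← g3]; simp) y1 (by rw [← k3]; simp) p
    have h2 := h x2 (by rw [← g3]; simp) y2 (by rw [← k3]; simp) q
    rw [hp] at h1
    rw [hq] at h2
    by_contra hcon
    push Not at hcon
    exact (List.nodup_append.1 hL.nd).2.2 w (h1.resolve_left hcon.1) w (h2.resolve_left hcon.2) rfl

section
variable [Fintype V] [DecidableEq V]

theorem separates_of_unavoidable {e f : Sym2 V} (hef : e ≠ f) (he : e ∈ G.edgeSet)
    (hf : f ∈ G.edgeSet) {v : V} (h : Unavoidable G e f v) :
    v ∈ e ∨ v ∈ f ∨ ∃ w, Separates G e f v w := by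
  rw [unavoidable_iff hef he hf] at h
  by_contra hcon
  push Not at hcon
  obtain ⟨hve, hvf, hsep⟩ := hcon
  have hed := not_isDiag he
  have hfd := not_isDiag hf
  obtain ⟨a, b, rfl⟩ : ∃ a b, e = s(a, b) := by
    induction e using Sym2.ind with
    | _ a b => exact ⟨a, b, rfl⟩
  obtain ⟨c, d, rfl⟩ : ∃ a b, f = s(a, b) := by
    induction f using Sym2.ind with
    | _ a b => exact ⟨a, b, rfl⟩
  have hab : a ≠ b := by simpa using hed
  have hcd : c ≠ d := by simpa using hfd
  set t : V → Finset V := fun i =>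
    if i = v then {v} else if i = c ∨ i = d then {a, b} else (nb G i).erase v with ht
  have hvab : v ∉ ({a, b} : Finset V) := by
    simp only [Sym2.mem_iff] at hve
    simpa using hve
  have htv : ∀ i, i ≠ v → v ∉ t i := by
    intro i hi
    simp only [ht]
    rw [if_neg hi]
    split_ifs
    · exact hvab
    · simp
  have hall1 : ∀ S : Finset V, v ∉ S → S.card ≤ (S.biUnion t).card := by
    intro S hvS
    by_contra hlt
    push Not at hlt
    set S' := S.filter fun i => ¬ (i = c ∨ i = d) with hS'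
    have hS'sub : S' ⊆ S.biUnion t := by
      intro i hi
      rw [hS', Finset.mem_filter] at hi
      rw [Finset.mem_biUnion]
      refine ⟨i, hi.1, ?_⟩
      simp only [ht]
      rw [if_neg (fun h : i = v => hvS (h ▸ hi.1)), if_neg hi.2, Finset.mem_erase, mem_nb]
      exact ⟨fun h => hvS (h ▸ hi.1), Or.inl rfl⟩
    have hexF : ∃ i ∈ S, i = c ∨ i = d := by
      by_contra hno
      push Not at hno
      have : S ⊆ S.biUnion t := by
        refine subset_trans ?_ hS'sub
        intro i hi
        rw [hS', Finset.mem_filter]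
        exact ⟨hi, by have := hno i hi; tauto⟩
      have := Finset.card_le_card this
      omega
    obtain ⟨i0, hi0, hi0'⟩ := hexF
    have hEsub : ({a, b} : Finset V) ⊆ S.biUnion t := by
      intro z hz
      rw [Finset.mem_biUnion]
      refine ⟨i0, hi0, ?_⟩
      simp only [ht]
      rw [if_neg (fun h : i0 = v => hvS (h ▸ hi0)), if_pos hi0']
      exact hz
    have hNsub : ∀ i ∈ S', ∀ z, G.Adj i z → z ≠ v → z ∈ S.biUnion t := by
      intro i hi z hz hzv
      rw [hS', Finset.mem_filter] at hi
      rw [Finset.mem_biUnion]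
      refine ⟨i, hi.1, ?_⟩
      simp only [ht]
      rw [if_neg (fun h : i = v => hvS (h ▸ hi.1)), if_neg hi.2, Finset.mem_erase, mem_nb]
      exact ⟨hzv, Or.inr hz⟩
    have hcard : (S.biUnion t \ S').card ≤ 1 := by
      rw [Finset.card_sdiff_of_subset hS'sub]
      have h1 := Finset.card_filter_add_card_filter_not (s := S) (fun i => i = c ∨ i = d)
      have h2 : (S.filter fun i => i = c ∨ i = d).card ≤ 2 := by
        refine le_trans (Finset.card_le_card (t := {c, d}) ?_) Finset.card_le_two
        intro z hz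
        simpa using (Finset.mem_filter.1 hz).2
      rw [← hS'] at h1
      omega
    -- the separating vertex
    obtain ⟨w, hw⟩ : ∃ w, ∀ z ∈ S.biUnion t \ S', z = w := by
      rcases (S.biUnion t \ S').eq_empty_or_nonempty with h0 | ⟨w, hw⟩
      · exact ⟨v, fun z hz => by rw [h0] at hz; simp at hz⟩
      · exact ⟨w, fun z hz => Finset.card_le_one.1 hcard z hz w hw⟩
    apply hsep w
    intro a' ha' b' hb' p
    by_contra hcon
    push Not at hcon
    obtain ⟨hvp, hwp⟩ := hcon
    have ha'S : a' ∈ S' := by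
      by_contra hno
      have h1 : a' ∈ S.biUnion t \ S' := by
        rw [Finset.mem_sdiff]
        refine ⟨hEsub ?_, hno⟩
        simpa using ha'
      exact hwp (hw a' h1 ▸ p.start_mem_support)
    have hb'S : b' ∉ S' := by
      rw [hS', Finset.mem_filter]
      rintro ⟨-, h1⟩
      exact h1 (by simpa using hb')
    obtain ⟨D, hD, hD1, hD2⟩ := p.exists_boundary_dart {z | z ∈ S'} ha'S hb'S
    have hsnd : D.snd ∈ p.support := p.dart_snd_mem_support_of_mem_darts hD
    have h1 : D.snd ∈ S.biUnion t \ S' := by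
      rw [Finset.mem_sdiff]
      refine ⟨hNsub D.fst hD1 D.snd D.adj ?_, hD2⟩
      intro h1
      exact hvp (h1 ▸ hsnd)
    exact hwp (hw _ h1 ▸ hsnd)
  obtain ⟨g, hg, hgt⟩ := (Finset.all_card_le_biUnion_card_iff_exists_injective t).1 (by
      intro S
      by_cases huS : v ∈ S
      · have h1 := hall1 (S.erase v) (by simp)
        have h2 : insert v ((S.erase v).biUnion t) ⊆ S.biUnion t := by
          intro z hz
          rw [Finset.mem_insert, Finset.mem_biUnion] at hz
          rw [Finset.mem_biUnion]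
          rcases hz with rfl | ⟨i, hi, hz⟩
          · exact ⟨z, huS, by simp [ht]⟩
          · exact ⟨i, Finset.mem_of_mem_erase hi, hz⟩
        have h3 := Finset.card_le_card h2
        rw [Finset.card_insert_of_notMem] at h3
        · rw [Finset.card_erase_of_mem huS] at h1
          have h4 : 0 < S.card := Finset.card_pos.2 ⟨v, huS⟩
          omega
        · rw [Finset.mem_biUnion]
          rintro ⟨i, hi, hz⟩
          exact htv i (Finset.ne_of_mem_erase hi) hz
      · exact hall1 S huS)
  have hgv : g v = v := by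
    have := hgt v
    simpa [ht] using this
  set τ : Equiv.Perm V := Equiv.ofBijective g (Finite.injective_iff_bijective.1 hg) with hτdef
  have hτv : τ v = v := hgv
  have hτ : Cover G.Adj s(a, b) s(c, d) τ := by
    refine ⟨?_, ?_⟩
    · intro y hy
      have h1 := hgt y
      have hyu : y ≠ v := fun h => hvf (h ▸ hy)
      rw [Sym2.mem_iff] at hy
      simp only [ht] at h1
      rw [if_neg hyu, if_pos hy] at h1
      have : τ y = g y := rfl
      rw [this]
      simpa using h1
    · intro y hy
      by_cases hyu : y = v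
      · subst hyu
        exact Or.inl hτv
      · have h1 := hgt y
        rw [Sym2.mem_iff] at hy
        simp only [ht] at h1
        rw [if_neg hyu, if_neg hy, Finset.mem_erase] at h1
        exact mem_nb.1 h1.2
  -- a linkage which follows `τ` avoids `v`
  have ha := hτ.inv_mem hfd (x := a) (by simp)
  have hb := hτ.inv_mem hfd (x := b) (by simp)
  obtain ⟨n, hn, hn'⟩ := exists_trail τ (· ∈ s(c, d)) ha
  obtain ⟨m, hm, hm'⟩ := exists_trail τ (· ∈ s(c, d)) hb
  have nd1 : (trail τ n a).Nodup := trail_nodup (Y := (· ∈ s(c, d))) ha hn'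
  have nd2 : (trail τ m b).Nodup := trail_nodup (Y := (· ∈ s(c, d))) hb hm'
  have hdis : (trail τ n a).Disjoint (trail τ m b) :=
    trail_disjoint (Y := (· ∈ s(c, d))) ha hb hab hn' hm'
  have ch1 := trail_chain (Y := (· ∈ s(c, d))) hn'
  have ch2 := trail_chain (Y := (· ∈ s(c, d))) hm'
  have hfeq : s(c, d) = s((τ ^ n) a, (τ ^ m) b) := by
    refine (Sym2.mem_and_mem_iff ?_).1 ⟨hn, hm⟩
    intro h
    exact hdis (mem_trail.2 ⟨n, le_rfl, rfl⟩) (mem_trail.2 ⟨m, le_rfl, h.symm⟩)
  have hL : Lk G.Adj s(a, b) s(c, d) (trail τ n a) (trail τ m b) :=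
    ⟨chain_of_follow hτ.outF _ nd1 ch1, chain_of_follow hτ.outF _ nd2 ch2,
      List.Nodup.append nd1 nd2 hdis, ⟨a, b, trail_head? _ _ _, trail_head? _ _ _, rfl⟩,
      ⟨_, _, trail_getLast? _ _ _, trail_getLast? _ _ _, hfeq.symm⟩⟩
  have hfix : ∀ i : ℕ, (τ ^ i) v = v := by
    intro i
    induction i with
    | zero => rfl
    | succ i ih => rw [pow_succ', Equiv.Perm.mul_apply, ih, hτv]
  rcases h _ _ hL with h1 | h1
  · obtain ⟨i, -, hi⟩ := mem_trail.1 h1
    have : a = v := (τ ^ i).injective (hi.trans (hfix i).symm)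
    exact hve (by rw [← this]; simp)
  · obtain ⟨i, -, hi⟩ := mem_trail.1 h1
    have : b = v := (τ ^ i).injective (hi.trans (hfix i).symm)
    exact hve (by rw [← this]; simp)

theorem onCircle_of_lk {e f : Sym2 V} (hef : e ≠ f) (he : e ∈ G.edgeSet)
    (hf : f ∈ G.edgeSet) {l₁ l₂ A B : List V} {u v : V} (hL : Lk G.Adj e f l₁ l₂)
    (hl : l₁ = A ++ u :: v :: B) : OnCircle G e f s(u, v) := by
  obtain ⟨a, b, c, d, hab, p, hcd, q, h1, h2, h3, h4, -⟩ := cycle_of_lk (fun _ => 1) hef he hf hL
  refine ⟨a, _, h3, by simp [h1], by simp [h2], ?_⟩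
  obtain ⟨D, hD, hD1, hD2⟩ := exists_dart_of_consec p (h4.trans hl)
  have : s(u, v) ∈ p.edges := by
    have h5 : D.edge ∈ p.edges := by
      unfold Walk.edges
      exact List.mem_map_of_mem hD
    have h6 : D.edge = s(u, v) := by rw [← hD1, ← hD2]; rfl
    rwa [h6] at h5
  rw [Walk.edges_cons, Walk.edges_append]
  exact List.mem_cons_of_mem _ (List.mem_append_left _ this)

theorem dart_of_onCircle {e f g : Sym2 V} (hef : e ≠ f) (hge : g ≠ e) (hgf : g ≠ f)
    (h : OnCircle G e f g) {x y : V} (hg : g = s(x, y)) :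
    Dart G.Adj e f x y ∨ Dart G.Adj e f y x := by
  obtain ⟨u, c, hc, hec, hfc, hgc⟩ := h
  -- as in `lk_of_cycle`
  obtain ⟨x0, y0, hxy, p₁, p₂, hx0, hcp⟩ := exists_split c hec
  set q := p₂.append p₁ with hq
  have hqn : q.support.Nodup := by
    have h1 := hc.support_nodup
    rw [hcp, support_split] at h1
    rw [hq, Walk.support_append]
    have h2 : (p₁.support ++ p₂.support).tail = p₁.support.tail ++ p₂.support := by
      rw [← Walk.cons_tail_support p₁]; rfl
    rw [h2] at h1
    rw [List.nodup_append_comm]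
    exact h1
  have hmemq : ∀ h : Sym2 V, h ≠ e → h ∈ c.edges → h ∈ q.edges := by
    intro h' hne hh
    rw [hcp, Walk.edges_append, Walk.edges_cons, List.mem_append, List.mem_cons] at hh
    rw [hq, Walk.edges_append, List.mem_append]
    rcases hh with h | h | h
    · exact Or.inr h
    · exact absurd (h.trans hx0) hne
    · exact Or.inl h
  have hfq : f ∈ q.edges := hmemq f hef.symm hfc
  have hgq : g ∈ q.edges := hmemq g hge hgc
  obtain ⟨z, t, hzt, q₁, q₂, hz0, hqq⟩ := exists_split q hfq
  have hsupp : q.support = q₁.support ++ q₂.support := by rw [hqq, support_split]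
  rw [hsupp] at hqn
  have hL : Lk G.Adj e f q₁.support q₂.support.reverse := by
    refine ⟨q₁.isChain_adj_support, ?_, ?_, ?_, ?_⟩
    · rw [List.isChain_reverse]
      exact q₂.isChain_adj_support.imp fun _ _ h => h.symm
    · rw [List.nodup_append] at hqn ⊢
      refine ⟨hqn.1, List.nodup_reverse.2 hqn.2.1, ?_⟩
      intro a ha b hb
      exact hqn.2.2 a ha b (List.mem_reverse.1 hb)
    · refine ⟨y0, x0, support_head? _, ?_, by rw [Sym2.eq_swap]; exact hx0⟩
      rw [List.head?_reverse, support_getLast?]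
    · refine ⟨z, t, support_getLast? _, ?_, hz0⟩
      rw [List.getLast?_reverse, support_head?]
  rw [hqq, Walk.edges_append, Walk.edges_cons, List.mem_append, List.mem_cons] at hgq
  rcases hgq with h1 | h1 | h1
  · obtain ⟨D, hD, hDg⟩ := List.mem_map.1 (show g ∈ q₁.darts.map SimpleGraph.Dart.edge from h1)
    obtain ⟨A, B, hAB⟩ := consec_of_dart q₁ hD
    have h2 : s(D.fst, D.snd) = s(x, y) := hDg.trans hg
    rw [Sym2.eq_iff] at h2
    rcases h2 with ⟨h3, h4⟩ | ⟨h3, h4⟩
    · left
      exact ⟨_, _, A, B, hL, by rw [← h3, ← h4]; exact hAB⟩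
    · right
      exact ⟨_, _, A, B, hL, by rw [← h3, ← h4]; exact hAB⟩
  · exact absurd (h1.trans hz0) hgf
  · obtain ⟨D, hD, hDg⟩ := List.mem_map.1 (show g ∈ q₂.darts.map SimpleGraph.Dart.edge from h1)
    obtain ⟨A, B, hAB⟩ := consec_of_dart q₂ hD
    have hAB' : q₂.support.reverse = B.reverse ++ D.snd :: D.fst :: A.reverse := by
      rw [hAB]; simp
    have h2 : s(D.fst, D.snd) = s(x, y) := hDg.trans hg
    rw [Sym2.eq_iff] at h2
    rcases h2 with ⟨h3, h4⟩ | ⟨h3, h4⟩
    · right
      exact ⟨_, _, _, _, hL.swap, by rw [← h3, ← h4]; exact hAB'⟩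
    · left
      exact ⟨_, _, _, _, hL.swap, by rw [← h3, ← h4]; exact hAB'⟩

/-- **Theorem 2⁺**: pairs of edges with no unavoidable vertex besides their ends. -/
theorem same_sign_iff_piece (σ : Sym2 V → ℤˣ) {e f : Sym2 V} (hef : e ≠ f)
    (he : e ∈ G.edgeSet) (hf : f ∈ G.edgeSet)
    (hU : ∀ v, Unavoidable G e f v → v ∈ e ∨ v ∈ f) :
    (∀ (u : V) (c : G.Walk u u) (u' : V) (c' : G.Walk u' u'), c.IsCycle → e ∈ c.edges →
        f ∈ c.edges → c'.IsCycle → e ∈ c'.edges → f ∈ c'.edges → wsign σ c = wsign σ c') ↔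
      ∀ (u : V) (c : G.Walk u u), c.IsCycle → (∀ g ∈ c.edges, OnCircle G e f g) →
        e ∉ c.edges → f ∉ c.edges → (∀ a ∈ e, a ∈ f → a ∉ c.support) → wsign σ c = 1 := by
  have hw : ∀ x y : V, (fun x y => σ s(x, y)) x y = (fun x y => σ s(x, y)) y x := by
    intro x y; simp only [Sym2.eq_swap]
  constructor
  · intro h u c hc hon hec hfc hcom
    by_cases hex : ∃ l₁ l₂, Lk G.Adj e f l₁ l₂
    · obtain ⟨l₁, l₂, hL⟩ := hex
      have hconst : LConst G.Adj (fun x y => σ s(x, y)) e f
          (lsign (fun x y => σ s(x, y)) l₁ * lsign (fun x y => σ s(x, y)) l₂) := by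
        intro k₁ k₂ hK
        obtain ⟨a, b, c, d, hab, p, hcd, q, h1, h2, h3, -, -, h6⟩ := cycle_of_lk σ hef he hf hK
        obtain ⟨a', b', c', d', hab', p', hcd', q', h1', h2', h3', -, -, h6'⟩ :=
          cycle_of_lk σ hef he hf hL
        have := h _ _ _ _ h3 (by simp [h1]) (by simp [h2]) h3' (by simp [h1']) (by simp [h2'])
        rw [h6, h6'] at this
        exact mul_left_cancel this
      obtain ⟨α, β, -, -, h1, h2, -⟩ := cert_of_lconst (fun _ _ h => SimpleGraph.Adj.symm h) hw
        (not_isDiag he) (not_isDiag hf) hconst hL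
      have key : ∀ x y, Dart G.Adj e f x y →
          σ s(x, y) = (if x ∈ f then β x else α x) * (if y ∈ f then β y else α y) := by
        intro x y hD
        obtain ⟨k₁, k₂, A, B, hK, hk⟩ := id hD
        have hxf : x ∉ f := hK.not_mem_f hk
        have hye : y ∉ e := hK.not_mem_e hk
        rw [show σ s(x, y) = α x * β y from h2 x y hD, if_neg hxf]
        by_cases hyf : y ∈ f
        · rw [if_pos hyf]
        · rw [if_neg hyf]
          have : ¬ Unav G.Adj e f y := by
            rw [← unavoidable_iff hef he hf]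
            intro h'
            rcases hU y h' with h3 | h3
            · exact hye h3
            · exact hyf h3
          rw [h1 y this]
      have := wsign_of_switching (σ := σ) (θ := fun x => if x ∈ f then β x else α x) c (by
        rintro g hg x y rfl
        have hne : s(x, y) ≠ e := by rintro rfl; exact hec hg
        have hnf : s(x, y) ≠ f := by rintro rfl; exact hfc hg
        rcases dart_of_onCircle hef hne hnf (hon _ hg) rfl with h3 | h3
        · exact key x y h3
        · rw [Sym2.eq_swap, key y x h3, mul_comm])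
      rw [this]
      exact Int.units_mul_self _
    · exfalso
      obtain ⟨g, hg⟩ : ∃ g, g ∈ c.edges := by
        have h1 := hc.three_le_length
        rw [← Walk.length_edges] at h1
        exact ⟨_, List.getElem_mem (by omega : 0 < c.edges.length)⟩
      obtain ⟨u', c', hc', h1, h2, -⟩ := hon g hg
      obtain ⟨l₁, l₂, hL, -⟩ := lk_of_cycle (fun _ => 1) hef hc' h1 h2
      exact hex ⟨l₁, l₂, hL⟩
  · intro h
    obtain ⟨θ, hθ⟩ := exists_switching (G := G) σ
      (fun g => OnCircle G e f g ∧ g ≠ e ∧ g ≠ f ∧ ∀ a ∈ e, a ∈ f → a ∉ g) (by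
        intro u c hc hD
        apply h u c hc
        · intro g hg; exact (hD g hg).1
        · intro h'; exact (hD e h').2.1 rfl
        · intro h'; exact (hD f h').2.2.1 rfl
        · intro a ha ha'
          exact support_avoid hc fun g hg => (hD g hg).2.2.2 a ha ha')
    have key : ∀ l₁ l₂, Lk G.Adj e f l₁ l₂ → l₁.IsChain fun u v => σ s(u, v) = θ u * θ v := by
      intro l₁ l₂ hL
      rw [List.isChain_iff_forall_rel_of_append_cons_cons]
      intro a b A B hl
      have hadj := hL.c1
      rw [List.isChain_iff_forall_rel_of_append_cons_cons] at hadj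
      obtain ⟨h1, h2, h3⟩ := lk_path_edges hL hl
      exact hθ a b (hadj hl) ⟨onCircle_of_lk hef he hf hL hl, h1, h2, h3⟩
    have hform : ∀ (u : V) (c : G.Walk u u), c.IsCycle → e ∈ c.edges → f ∈ c.edges →
        wsign σ c = σ e * σ f * (ends θ e * ends θ f) := by
      intro u c hc hec hfc
      obtain ⟨l₁, l₂, hL, h2, -⟩ := lk_of_cycle σ hef hc hec hfc
      obtain ⟨x1, x2, g1, g2, g3⟩ := hL.hd
      obtain ⟨y1, y2, k1, k2, k3⟩ := hL.lt
      rw [h2, lsign_of_switching g1 k1 (key _ _ hL), lsign_of_switching g2 k2 (key _ _ hL.swap)]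
      congr 1
      rw [← g3, ← k3, ends_mk, ends_mk, mul_mul_mul_comm]
    intro u c u' c' hc hec hfc hc' hec' hfc'
    rw [hform u c hc hec hfc, hform u' c' hc' hec' hfc']

end

end NPP
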