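import Pool.Agent.helper50.NPP.Cover

/-! The potentials of a pair of edges without negative circle. -/

namespace NPP

variable {V : Type*}

theorem Lk.mem_f {K : V → V → Prop} {e f : Sym2 V} {l₁ l₂ : List V} (h : Lk K e f l₁ l₂) {v : V}
    (hv : v ∈ f) : (l₁.getLast? = some v) ∨ (l₂.getLast? = some v) := by
  obtain ⟨y1, y2, h1, h2, h3⟩ := h.lt
  rw [← h3, Sym2.mem_iff] at hv
  rcases hv with rfl | rfl
  · exact Or.inl h1
  · exact Or.inr h2

theorem Lk.mem_e {K : V → V → Prop} {e f : Sym2 V} {l₁ l₂ : List V} (h : Lk K e f l₁ l₂) {v : V}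
    (hv : v ∈ e) : (l₁.head? = some v) ∨ (l₂.head? = some v) := by
  obtain ⟨y1, y2, h1, h2, h3⟩ := h.hd
  rw [← h3, Sym2.mem_iff] at hv
  rcases hv with rfl | rfl
  · exact Or.inl h1
  · exact Or.inr h2

theorem getLast?_split {l A B : List V} {u v y : V} (h : l = A ++ u :: v :: B) (hnd : l.Nodup)
    (hy : l.getLast? = some y) : u ≠ y := by
  subst h
  rintro rfl
  have h1 : u ∈ v :: B := by
    have e1 : A ++ u :: v :: B = (A ++ [u]) ++ (v :: B) := by simp
    rw [e1, List.getLast?_append] at hy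
    have h2 : (v :: B).getLast? = some u := by
      rw [List.getLast?_cons] at hy ⊢
      simpa using hy
    exact List.mem_of_getLast? h2
  have h2 := (List.nodup_append.1 hnd).2.1
  rw [List.nodup_cons] at h2
  exact h2.1 h1

theorem Lk.not_mem_f {K : V → V → Prop} {e f : Sym2 V} {l₁ l₂ A B : List V} {u v : V}
    (h : Lk K e f l₁ l₂) (hl : l₁ = A ++ u :: v :: B) : u ∉ f := by
  intro hu
  have hu1 : u ∈ l₁ := by rw [hl]; simp
  have hnd := List.nodup_append.1 h.nd
  rcases h.mem_f hu with h1 | h1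
  · exact getLast?_split hl hnd.1 h1 rfl
  · exact hnd.2.2 u hu1 u (List.mem_of_getLast? h1) rfl

theorem cover_of_follows {K : V → V → Prop} {e f : Sym2 V} {l₁ l₂ : List V}
    (h : Lk K e f l₁ l₂) {τ : Equiv.Perm V} (h1 : l₁.IsChain (fun x y => y = τ x))
    (h2 : l₂.IsChain (fun x y => y = τ x)) (hf : ∀ v ∈ f, τ v ∈ e)
    (hfix : ∀ v, v ∉ l₁ → v ∉ l₂ → τ v = v) : Cover K e f τ := by
  refine ⟨hf, ?_⟩
  have key : ∀ l₁ l₂ : List V, Lk K e f l₁ l₂ → l₁.IsChain (fun x y => y = τ x) → ∀ v ∈ l₁,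
      v ∉ f → K v (τ v) := by
    intro l₁ l₂ h h1 v hv hvf
    obtain ⟨A, B, hAB⟩ := List.append_of_mem hv
    rcases B with _ | ⟨z, B⟩
    · exfalso
      obtain ⟨y1, y2, g1, g2, g3⟩ := h.lt
      rw [hAB, List.getLast?_append] at g1
      simp only [List.getLast?_singleton, Option.some_or, Option.some.injEq] at g1
      apply hvf
      rw [← g3, g1]
      simp
    · have c1 := h.c1
      rw [hAB, List.isChain_append_cons_cons] at c1 h1
      rw [← h1.2.1]
      exact c1.2.1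
  intro v hvf
  by_cases hv1 : v ∈ l₁
  · exact Or.inr (key _ _ h h1 v hv1 hvf)
  by_cases hv2 : v ∈ l₂
  · exact Or.inr (key _ _ h.swap h2 v hv2 hvf)
  · exact Or.inl (hfix v hv1 hv2)

variable [DecidableEq V]

theorem chain_formPerm {l : List V} (hnd : l.Nodup) : l.IsChain (fun x y => y = l.formPerm x) :=
  (List.isChain_append.1 (cchain_formPerm hnd)).1

theorem formPerm_last {l : List V} (hnd : l.Nodup) {x y : V} (hx : l.head? = some x)
    (hy : l.getLast? = some y) : l.formPerm y = x := by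
  have h := (List.isChain_append.1 (cchain_formPerm hnd)).2.2
  rw [hx, hy] at h
  exact (h y rfl x rfl).symm

theorem cover_one {K : V → V → Prop} {e f : Sym2 V} {l₁ l₂ : List V} (h : Lk K e f l₁ l₂) :
    Cover K e f (l₁.formPerm * l₂.formPerm) ∧
      (l₁.IsChain (fun x y => y = (l₁.formPerm * l₂.formPerm) x)) ∧
      (∀ y x, l₁.getLast? = some y → l₁.head? = some x → (l₁.formPerm * l₂.formPerm) y = x) ∧
      (∀ y x, l₂.getLast? = some y → l₂.head? = some x → (l₁.formPerm * l₂.formPerm) y = x) ∧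
      (∀ v, v ∉ l₁ → v ∉ l₂ → (l₁.formPerm * l₂.formPerm) v = v) := by
  have hnd := List.nodup_append.1 h.nd
  have a1 : ∀ v ∈ l₁, (l₁.formPerm * l₂.formPerm) v = l₁.formPerm v := by
    intro v hv
    rw [Equiv.Perm.mul_apply, List.formPerm_apply_of_notMem (fun h' => hnd.2.2 v hv v h' rfl)]
  have a2 : ∀ v ∈ l₂, (l₁.formPerm * l₂.formPerm) v = l₂.formPerm v := by
    intro v hv
    rw [Equiv.Perm.mul_apply]
    apply List.formPerm_apply_of_notMem
    intro h'
    exact hnd.2.2 _ h' _ (List.formPerm_apply_mem_of_mem hv) rfl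
  have a3 : ∀ v, v ∉ l₁ → v ∉ l₂ → (l₁.formPerm * l₂.formPerm) v = v := by
    intro v h1 h2
    rw [Equiv.Perm.mul_apply, List.formPerm_apply_of_notMem h2, List.formPerm_apply_of_notMem h1]
  have c1 : l₁.IsChain (fun x y => y = (l₁.formPerm * l₂.formPerm) x) :=
    (chain_formPerm hnd.1).imp_of_mem_imp fun x y hx _ hxy => by rw [a1 x hx]; exact hxy
  have c2 : l₂.IsChain (fun x y => y = (l₁.formPerm * l₂.formPerm) x) :=
    (chain_formPerm hnd.2.1).imp_of_mem_imp fun x y hx _ hxy => by rw [a2 x hx]; exact hxy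
  have b1 : ∀ y x, l₁.getLast? = some y → l₁.head? = some x →
      (l₁.formPerm * l₂.formPerm) y = x := by
    intro y x hy hx
    rw [a1 y (List.mem_of_getLast? hy)]
    exact formPerm_last hnd.1 hx hy
  have b2 : ∀ y x, l₂.getLast? = some y → l₂.head? = some x →
      (l₁.formPerm * l₂.formPerm) y = x := by
    intro y x hy hx
    rw [a2 y (List.mem_of_getLast? hy)]
    exact formPerm_last hnd.2.1 hx hy
  refine ⟨cover_of_follows h c1 c2 ?_ a3, c1, b1, b2, a3⟩
  intro v hv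
  obtain ⟨x1, x2, g1, g2, g3⟩ := h.hd
  rcases h.mem_f hv with h1 | h1
  · rw [b1 v x1 h1 g1, ← g3]; simp
  · rw [b2 v x2 h1 g2, ← g3]; simp

theorem cover_two {K : V → V → Prop} {e f : Sym2 V} {l₁ l₂ : List V} (h : Lk K e f l₁ l₂) :
    Cover K e f ((l₁ ++ l₂).formPerm) ∧
      (∀ y x, l₁.getLast? = some y → l₂.head? = some x → (l₁ ++ l₂).formPerm y = x) ∧
      (∀ y x, l₂.getLast? = some y → l₁.head? = some x → (l₁ ++ l₂).formPerm y = x) := by
  have hch := chain_formPerm h.nd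
  have hch' := List.isChain_append.1 hch
  obtain ⟨x1, x2, g1, g2, g3⟩ := h.hd
  obtain ⟨y1, y2, k1, k2, k3⟩ := h.lt
  have b1 : ∀ y x, l₁.getLast? = some y → l₂.head? = some x → (l₁ ++ l₂).formPerm y = x := by
    intro y x hy hx
    exact (hch'.2.2 y hy x hx).symm
  have b2 : ∀ y x, l₂.getLast? = some y → l₁.head? = some x → (l₁ ++ l₂).formPerm y = x := by
    intro y x hy hx
    apply formPerm_last h.nd
    · rw [List.head?_append, hx]; rfl
    · rw [List.getLast?_append, hy]; rfl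
  refine ⟨cover_of_follows h hch'.1 hch'.2.1 ?_ ?_, b1, b2⟩
  · intro v hv
    rcases h.mem_f hv with h1 | h1
    · rw [b1 v x2 h1 g2, ← g3]; simp
    · rw [b2 v x1 h1 g1, ← g3]; simp
  · intro v h1 h2
    apply List.formPerm_apply_of_notMem
    simp [h1, h2]

variable [Fintype V]

theorem exists_potentials {K : V → V → Prop} {w : V → V → ℤˣ} {e f : Sym2 V} (he : ¬ e.IsDiag)
    (hf : ¬ f.IsDiag) {s0 : ℤˣ} (hc : LConst K w e f s0)
    (hHC : ∀ l₁ l₂ C, Lk K e f l₁ l₂ → Cyc K C → (∀ x ∈ C, x ∉ l₁ ∧ x ∉ l₂) → csign w C = 1)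
    {l₁ l₂ : List V} (hex : Lk K e f l₁ l₂) :
    ∃ α β : V → ℤˣ, (∀ τ, Cover K e f τ → ∀ v, cw w f v (τ v) = α v * β (τ v)) ∧
      (∀ v ∈ f, α v = 1) ∧ (∀ v ∈ e, β v = 1) ∧ ∏ v, α v * β v = s0 := by
  have hprod : ∀ τ, Cover K e f τ → ∏ v, cw w f v (τ v) = s0 :=
    fun τ hτ => cover_prod he hf hc hHC hτ
  obtain ⟨hcov, -, t11, t12, -⟩ := cover_one hex
  set lam : Equiv.Perm V := l₁.formPerm * l₂.formPerm with hlam
  obtain ⟨hcov2, t21, t22⟩ := cover_two hex
  have hcover_iff : ∀ π : Equiv.Perm V,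
      (∀ i, (i ∈ f → lam (π i) ∈ e) ∧ (i ∉ f → lam (π i) = i ∨ K i (lam (π i)))) →
      Cover K e f (lam * π) := by
    intro π hπ
    exact ⟨fun v hv => (hπ v).1 hv, fun v hv => (hπ v).2 hv⟩
  obtain ⟨θ, hθ⟩ := exists_potential_of_perm
    (r := fun i j => (i ∈ f → lam j ∈ e) ∧ (i ∉ f → lam j = i ∨ K i (lam j)))
    (w := fun i j => cw w f i (lam j) * cw w f i (lam i))
    (fun x => ⟨hcov.inF x, hcov.outF x⟩) (fun x => Int.units_mul_self _) (by
      intro π hπ
      rw [Finset.prod_mul_distrib, hprod _ hcov]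
      have := hprod _ (hcover_iff π hπ)
      simp only [Equiv.Perm.mul_apply] at this
      rw [this]
      exact Int.units_mul_self _)
  set α0 : V → ℤˣ := fun i => cw w f i (lam i) * θ i with hα0
  set β0 : V → ℤˣ := fun j => θ (lam⁻¹ j) with hβ0
  have hkey : ∀ τ, Cover K e f τ → ∀ v, cw w f v (τ v) = α0 v * β0 (τ v) := by
    intro τ hτ v
    have hll : ∀ x, lam (lam⁻¹ x) = x := fun x => lam.apply_symm_apply x
    have h1 := hθ (lam⁻¹ * τ) (by
      intro i
      simp only [Equiv.Perm.mul_apply, hll]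
      exact ⟨hτ.inF i, hτ.outF i⟩) v
    simp only [Equiv.Perm.mul_apply, hll] at h1
    simp only [hα0, hβ0]
    rw [mul_assoc, ← h1, mul_comm (cw w f v (τ v)), ← mul_assoc, Int.units_mul_self, one_mul]
  obtain ⟨x1, x2, g1, g2, g3⟩ := hex.hd
  obtain ⟨y1, y2, k1, k2, k3⟩ := hex.lt
  have hy1 : y1 ∈ f := by rw [← k3]; simp
  have hy2 : y2 ∈ f := by rw [← k3]; simp
  have r1 := hkey _ hcov y1
  have r2 := hkey _ hcov y2
  have r3 := hkey _ hcov2 y1
  have r4 := hkey _ hcov2 y2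
  rw [cw_mem w hy1, t11 y1 x1 k1 g1] at r1
  rw [cw_mem w hy2, t12 y2 x2 k2 g2] at r2
  rw [cw_mem w hy1, t21 y1 x2 k1 g2] at r3
  rw [cw_mem w hy2, t22 y2 x1 k2 g1] at r4
  have hinv : ∀ p q : ℤˣ, 1 = p * q → q = p := by
    intro p q h
    rcases Int.units_eq_one_or p with hp | hp <;> rcases Int.units_eq_one_or q with hq | hq <;>
      subst hp hq <;> first | rfl | (exact absurd h (by decide))
  have s1 := hinv _ _ r1
  have s2 := hinv _ _ r2
  have s3 := hinv _ _ r3
  have s4 := hinv _ _ r4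
  refine ⟨fun v => α0 y1 * α0 v, fun v => α0 y1 * β0 v, ?_, ?_, ?_, ?_⟩
  · intro τ hτ v
    rw [hkey τ hτ v]
    have := Int.units_mul_self (α0 y1)
    calc α0 v * β0 (τ v) = (α0 y1 * α0 y1) * (α0 v * β0 (τ v)) := by rw [this, one_mul]
      _ = _ := mul_mul_mul_comm _ _ _ _
  · intro v hv
    have : v = y1 ∨ v = y2 := by rw [← k3, Sym2.mem_iff] at hv; exact hv
    rcases this with rfl | rfl
    · exact Int.units_mul_self _
    · show α0 y1 * α0 v = 1
      have : α0 v = α0 y1 := by rw [← s4, s1]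
      rw [this]
      exact Int.units_mul_self _
  · intro v hv
    have : v = x1 ∨ v = x2 := by rw [← g3, Sym2.mem_iff] at hv; exact hv
    rcases this with rfl | rfl
    · show α0 y1 * β0 v = 1
      rw [s1]; exact Int.units_mul_self _
    · show α0 y1 * β0 v = 1
      rw [s3]; exact Int.units_mul_self _
  · rw [← hprod _ hcov]
    have h1 : ∀ v, cw w f v (lam v) = α0 v * β0 (lam v) := hkey _ hcov
    have h2 : ∏ v, cw w f v (lam v) = (∏ v, α0 v) * ∏ v, β0 v := by
      rw [Finset.prod_congr rfl (fun v _ => h1 v), Finset.prod_mul_distrib, Equiv.prod_comp lam β0]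
    rw [h2, ← Finset.prod_mul_distrib]
    refine Finset.prod_congr rfl fun v _ => ?_
    rw [mul_mul_mul_comm, Int.units_mul_self, one_mul]

end NPP
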