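import Pool.Agent.helper50.NPP.OneSided

/-! The split graph and the criterion with one-sided circles. -/

namespace NPP

open SimpleGraph

section lists
variable {N : Type*}

theorem cyc_consec {r : N → N → Prop} {C : List N} (hC : Cyc r C) (hlen : 2 ≤ C.length) :
    (C ++ C.head?.toList).IsChain (fun a b => a ≠ b ∧ a ∈ C ∧ b ∈ C ∧ r a b) := by
  rcases C with _ | ⟨n0, T⟩
  · simp at hlen
  have hch := hC.ch
  rw [cchain_cons] at hch
  have hnd := hC.nd
  show (n0 :: T ++ [n0]).IsChain _
  rw [List.isChain_iff_forall_rel_of_append_cons_cons] at hch ⊢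
  intro a b A B hl
  have hT : T ≠ [] := by
    rintro rfl
    simp at hlen
  have hmem : ∀ z ∈ n0 :: T ++ [n0], z ∈ n0 :: T := by
    intro z hz
    simp only [List.cons_append, List.mem_cons, List.mem_append, List.not_mem_nil, or_false] at hz ⊢
    tauto
  refine ⟨?_, hmem a (by rw [hl]; simp), hmem b (by rw [hl]; simp), hch hl⟩
  rintro rfl
  rcases A with _ | ⟨a', A'⟩
  · simp only [List.cons_append, List.nil_append, List.cons.injEq] at hl
    obtain ⟨rfl, h2⟩ := hl
    rcases T with _ | ⟨t, T'⟩
    · exact hT rfl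
    · simp only [List.cons_append, List.cons.injEq] at h2
      rw [List.nodup_cons] at hnd
      exact hnd.1 (by rw [h2.1]; simp)
  · simp only [List.cons_append, List.cons.injEq] at hl
    have h1 : (T ++ [n0]).Nodup := by
      rw [List.nodup_append_comm]
      simpa using hnd
    rw [hl.2] at h1
    have h2 := (List.nodup_append.1 h1).2.1
    rw [List.nodup_cons] at h2
    exact h2.1 (by simp)

theorem cyc_neighbor {r : N → N → Prop} {C : List N} (hC : Cyc r C) (hlen : 2 ≤ C.length) {n : N}
    (hn : n ∈ C) : ∃ m ∈ C, m ≠ n ∧ r n m := by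
  obtain ⟨A, B, rfl⟩ := List.append_of_mem hn
  have h1 : Cyc r (n :: B ++ A) := hC.append_comm
  have hlen' : 2 ≤ (n :: B ++ A).length := by
    simp only [List.length_append, List.length_cons] at hlen ⊢; omega
  have h2 := cyc_consec h1 hlen'
  rcases hBA : B ++ A with _ | ⟨m, T⟩
  · exfalso
    have := congrArg List.length hBA
    simp only [List.length_append, List.length_cons, List.length_nil] at this hlen'
    omega
  · have e1 : n :: B ++ A = n :: m :: T := by rw [List.cons_append, hBA]
    rw [e1] at h2
    simp only [List.head?_cons, Option.toList_some, List.cons_append,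
      List.isChain_cons_cons] at h2
    obtain ⟨⟨k1, -, k2, k3⟩, -⟩ := h2
    refine ⟨m, ?_, k1.symm, k3⟩
    have : m ∈ n :: B ++ A := by rw [e1]; simp
    simp only [List.cons_append, List.mem_cons, List.mem_append] at this ⊢
    tauto

theorem lsign_congr_chain {w w' : N → N → ℤˣ} :
    ∀ l : List N, l.IsChain (fun a b => w a b = w' a b) → lsign w l = lsign w' l := by
  intro l
  induction l with
  | nil => intro _; rfl
  | cons a t ih =>
    intro h
    cases t with
    | nil => rfl
    | cons b t =>
      rw [List.isChain_cons_cons] at h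
      rw [lsign_cons_cons, lsign_cons_cons, ih h.2, h.1]

theorem lsign_map {M : Type*} (φ : N → M) (w : M → M → ℤˣ) :
    ∀ l : List N, lsign w (l.map φ) = lsign (fun a b => w (φ a) (φ b)) l := by
  intro l
  induction l with
  | nil => rfl
  | cons a t ih =>
    cases t with
    | nil => rfl
    | cons b t =>
      simp only [List.map_cons, lsign_cons_cons] at ih ⊢
      rw [ih]

theorem map_closed {M : Type*} (φ : N → M) (C : List N) :
    (C ++ C.head?.toList).map φ = C.map φ ++ (C.map φ).head?.toList := by
  rcases C with _ | ⟨a, C⟩ <;> simp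

end lists

variable {V : Type*} {G : SimpleGraph V} [Fintype V] [DecidableEq V]

/-- a simple closed chain of the split graph projects to a simple closed list -/
theorem split_inj {e f : Sym2 V} (hef : e ≠ f) (he : e ∈ G.edgeSet) (hf : f ∈ G.edgeSet)
    {C : List (V × Bool)} (hC : Cyc (SplitRel G e f) C) (hlen : 2 ≤ C.length) :
    ∀ n ∈ C, ∀ m ∈ C, n.1 = m.1 → n = m := by
  have key : ∀ u : V, (u, false) ∈ C → (u, true) ∈ C → False := by
    intro u h0 h1
    obtain ⟨m, -, hm, hr⟩ := cyc_neighbor hC hlen h0
    obtain ⟨m', -, hm', hr'⟩ := cyc_neighbor hC hlen h1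
    have hU : Unavoidable G e f u ∧ u ∉ e := by
      rcases hr with h | h | h
      · exact absurd h.symm hm
      · exact absurd h.1 (by simp)
      · obtain ⟨-, h3, h4⟩ := h
        refine ⟨?_, ?_⟩
        · by_contra hno
          exact absurd (h3.2 hno) (by simp)
        · obtain ⟨l₁, l₂, A, B, hL, hl⟩ := h4
          exact hL.not_mem_e hl
    have hF : u ∉ f := by
      rcases hr' with h | h | h
      · exact absurd h.symm hm'
      · obtain ⟨l₁, l₂, A, B, hL, hl⟩ := h.2.2
        exact hL.not_mem_f hl
      · exact absurd hU.1 (h.2.1.1 rfl)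
    rcases separates_of_unavoidable hef he hf hU.1 with h | h | ⟨w, hw⟩
    · exact hU.2 h
    · exact hF h
    · obtain ⟨κ, hκ1, hκ2, hκ⟩ := split_class hef he hf hU.1 hw
      have hch : C.IsChain (SplitRel G e f) := by
        have := hC.ch
        unfold CChain at this
        exact (List.isChain_append.1 this).1
      exact hκ2 ((class_of_chain hκ C hch _ h0 _ h1).1 hκ1)
  rintro ⟨u, b⟩ hn ⟨u', b'⟩ hm h
  simp only at h
  subst h
  rcases b with _ | _ <;> rcases b' with _ | _
  · rfl
  · exact (key u hn hm).elim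
  · exact (key u hm hn).elim
  · rfl

/-- a closed chain of the split graph of length at least three is a one-sided circle -/
theorem oneSided_of_split (σ : Sym2 V → ℤˣ) {e f : Sym2 V} (hef : e ≠ f) (he : e ∈ G.edgeSet)
    (hf : f ∈ G.edgeSet) {C : List (V × Bool)} (hC : Cyc (SplitRel G e f) C) (hlen : 3 ≤ C.length) :
    ∃ (u : V) (c : G.Walk u u), c.IsCycle ∧ OneSided G e f c ∧
      wsign σ c = csign (fun n m => σ s(n.1, m.1)) C := by
  have hinj := split_inj hef he hf hC (by omega)
  have hcon := cyc_consec hC (by omega)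
  set D : Sym2 V → Prop := fun g => ∃ n ∈ C, ∃ m ∈ C, n ≠ m ∧ SplitRel G e f n m ∧
    s(n.1, m.1) = g with hD
  obtain ⟨u, c, hc, h1, h2, h3⟩ := circle_of_list (G := G) σ D (L := C.map Prod.fst)
    (List.Nodup.map_on (fun n hn m hm h => hinj n hn m hm h) hC.nd)
    (by rw [List.length_map]; exact hlen) (by
      unfold CChain
      rw [← map_closed, List.isChain_map]
      refine hcon.imp ?_
      rintro a b ⟨k1, k2, k3, k4⟩
      refine ⟨?_, a, k2, b, k3, k1, k4, rfl⟩
      have hdart : ∀ n m, SplitArc G e f n m → G.Adj n.1 m.1 := by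
        rintro n m ⟨-, -, l₁, l₂, A, B, hL, hl⟩
        have := hL.c1
        rw [hl, List.isChain_append_cons_cons] at this
        exact this.2.1
      rcases k4 with h | h | h
      · exact absurd h k1
      · exact hdart _ _ h
      · exact (hdart _ _ h).symm)
  -- the nodes over the ends of an edge of the circle
  have hedge : ∀ x y, s(x, y) ∈ c.edges → ∃ n ∈ C, ∃ m ∈ C, n ≠ m ∧ SplitRel G e f n m ∧
      n.1 = x ∧ m.1 = y := by
    intro x y hxy
    obtain ⟨n, hn, m, hm, hne, hr, hs⟩ := h1 _ hxy
    rw [Sym2.eq_iff] at hs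
    rcases hs with ⟨a1, a2⟩ | ⟨a1, a2⟩
    · exact ⟨n, hn, m, hm, hne, hr, a1, a2⟩
    · exact ⟨m, hm, n, hn, hne.symm, splitRel_symm hr, a2, a1⟩
  refine ⟨u, c, hc, ⟨?_, ?_⟩, ?_⟩
  · intro x y hxy
    obtain ⟨n, hn, m, hm, hne, hr, rfl, rfl⟩ := hedge x y hxy
    rcases hr with h | h | h
    · exact absurd h hne
    · exact Or.inl ((traversed_iff hef he hf _ _).2 h.2.2)
    · exact Or.inr ((traversed_iff hef he hf _ _).2 h.2.2)
  · intro x hx
    by_cases h0 : (x, true) ∈ C
    · left
      intro y hxy
      obtain ⟨n, hn, m, hm, hne, hr, hnx, rfl⟩ := hedge x y hxy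
      have hnn : n = (x, true) := hinj n hn _ h0 hnx
      subst hnn
      rcases hr with h | h | h
      · exact absurd h hne
      · exact (traversed_iff hef he hf _ _).2 h.2.2
      · exact absurd hx (h.2.1.1 rfl)
    · right
      intro y hxy
      obtain ⟨n, hn, m, hm, hne, hr, hnx, rfl⟩ := hedge x y hxy
      have hnn : n = (x, false) := by
        rcases n with ⟨a, b⟩
        simp only at hnx
        subst hnx
        rcases b with _ | _
        · rfl
        · exact absurd hn h0
      subst hnn
      rcases hr with h | h | h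
      · exact absurd h hne
      · exact absurd h.1 (by simp)
      · exact (traversed_iff hef he hf _ _).2 h.2.2
  · rw [h2]
    unfold csign
    rw [← map_closed, lsign_map]

/-- If all one-sided circles are positive, then all circles through `e` and `f` have the same
sign. -/
theorem same_sign_of_oneSided (σ : Sym2 V → ℤˣ) {e f : Sym2 V} (hef : e ≠ f)
    (he : e ∈ G.edgeSet) (hf : f ∈ G.edgeSet)
    (hpos : ∀ (u : V) (c : G.Walk u u), c.IsCycle → OneSided G e f c → wsign σ c = 1) :
    ∃ s : ℤˣ, ∀ (u : V) (c : G.Walk u u), c.IsCycle → e ∈ c.edges → f ∈ c.edges →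
      wsign σ c = s := by
  classical
  set w : V × Bool → V × Bool → ℤˣ := fun n m => if n = m then 1 else σ s(n.1, m.1) with hw
  have hwne : ∀ n m, n ≠ m → w n m = σ s(n.1, m.1) := fun n m h => by simp [hw, h]
  have hwe : ∀ n, w n n = 1 := fun n => by simp [hw]
  obtain ⟨θ, hθ⟩ := exists_potential (r := SplitRel G e f) (fun n => Or.inl rfl) (w := w) (by
    intro C hC
    rcases C with _ | ⟨x, _ | ⟨y, _ | ⟨z, C⟩⟩⟩
    · exact absurd rfl hC.ne
    · rw [csign_cons]
      simp [hwe]
    · rw [csign_cons]
      have hnd := hC.nd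
      have hxy : x ≠ y := by
        intro h
        simp [h] at hnd
      simp only [List.cons_append, List.nil_append, lsign_cons_cons, lsign_single, mul_one]
      rw [hwne x y hxy, hwne y x hxy.symm, Sym2.eq_swap, Int.units_mul_self]
    · have hlen : 3 ≤ (x :: y :: z :: C).length := by simp only [List.length_cons]; omega
      obtain ⟨u, c, hc, h1, h2⟩ := oneSided_of_split σ hef he hf hC hlen
      rw [← hpos u c hc h1, h2]
      unfold csign
      apply lsign_congr_chain
      exact (cyc_consec hC (by omega)).imp fun a b h => hwne a b h.1)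
  set α : V → ℤˣ := fun x => if x ∈ f then 1 else θ (x, true) with hα
  set β : V → ℤˣ := fun y => if y ∈ e then 1 else
    θ (y, decide (¬ Unavoidable G e f y)) with hβ
  have hUe : ∀ v ∈ e, Unavoidable G e f v := fun v hv =>
    unavoidable_of_separates hef he hf (Or.inl hv)
  have hUf : ∀ v ∈ f, Unavoidable G e f v := fun v hv =>
    unavoidable_of_separates hef he hf (Or.inr (Or.inl hv))
  have hconst : LConst G.Adj (fun x y => σ s(x, y)) e f (∏ v, (α v * β v)) := by
    apply lconst_of_cert
    · intro v hv; simp [hα, hv]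
    · intro v hv; simp [hβ, hv]
    · intro v hv
      rw [← unavoidable_iff hef he hf] at hv
      have h1 : v ∉ e := fun h => hv (hUe v h)
      have h2 : v ∉ f := fun h => hv (hUf v h)
      simp only [hα, hβ]
      rw [if_neg h1, if_neg h2]
      have : decide (¬ Unavoidable G e f v) = true := by simp [hv]
      rw [this]
    · intro x y hD
      obtain ⟨l₁, l₂, A, B, hL, hl⟩ := id hD
      have hxf : x ∉ f := hL.not_mem_f hl
      have hye : y ∉ e := hL.not_mem_e hl
      simp only [hα, hβ]
      rw [if_neg hxf, if_neg hye]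
      have harc : SplitArc G e f (x, true) (y, decide (¬ Unavoidable G e f y)) := by
        refine ⟨rfl, ?_, hD⟩
        simp
      have hne : ((x, true) : V × Bool) ≠ (y, decide (¬ Unavoidable G e f y)) := by
        intro h
        exact dart_ne hD (congrArg Prod.fst h)
      have := hθ _ _ (Or.inr (Or.inl harc)) (.single (Or.inr (Or.inr harc)))
      rw [hwne _ _ hne] at this
      exact this
  refine ⟨σ e * σ f * ∏ v, (α v * β v), fun u c hc hec hfc => ?_⟩
  obtain ⟨l₁, l₂, hL, h2, -⟩ := lk_of_cycle σ hef hc hec hfc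
  rw [h2, hconst l₁ l₂ hL]

/-- **Theorem A** (pairs of edges in arbitrary signed graphs, by circles) -/
theorem negPair_iff_oneSided (σ : Sym2 V → ℤˣ) {e f : Sym2 V} (hef : e ≠ f)
    (he : e ∈ G.edgeSet) (hf : f ∈ G.edgeSet)
    (hex : ∃ (u : V) (c : G.Walk u u), c.IsCycle ∧ e ∈ c.edges ∧ f ∈ c.edges) :
    NegPair G σ e f ↔
      (∃ (u : V) (c : G.Walk u u), c.IsCycle ∧ OneSided G e f c ∧ wsign σ c = -1) ∨
      (∀ (u : V) (c : G.Walk u u), c.IsCycle → e ∈ c.edges → f ∈ c.edges → wsign σ c = -1) := by
  constructor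
  · rintro ⟨u, c, hc, hec, hfc, hneg⟩
    by_contra hcon
    rw [not_or] at hcon
    obtain ⟨h1, h2⟩ := hcon
    obtain ⟨s, hs⟩ := same_sign_of_oneSided σ hef he hf (fun u c hc hon =>
      units_of_ne fun h => h1 ⟨u, c, hc, hon, h⟩)
    apply h2
    intro u' c' hc' hec' hfc'
    rw [hs u' c' hc' hec' hfc', ← hs u c hc hec hfc]
    exact hneg
  · rintro (⟨u, c, hc, hon, hneg⟩ | h)
    · rw [negPair_iff σ hef he hf]
      rintro ⟨α, β, hcert⟩
      have := wsign_oneSided (σ := σ) hef he hf hcert.eq_avoidable
        (fun x y hD => hcert.arc x y ((traversed_iff hef he hf x y).2 hD)) hon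
      rw [this] at hneg
      exact absurd hneg (by decide)
    · obtain ⟨u, c, hc, hec, hfc⟩ := hex
      exact ⟨u, c, hc, hec, hfc, h u c hc hec hfc⟩

end NPP
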