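import Pool.Agent.helper50.NPP.Hall

/-! Three-connected signed graphs. -/

namespace NPP

variable {V : Type*} [Fintype V] [DecidableEq V]

omit [Fintype V] [DecidableEq V] in
theorem chain_of_follow {K : V → V → Prop} {Y : V → Prop} {τ : Equiv.Perm V}
    (hK : ∀ v, ¬ Y v → τ v = v ∨ K v (τ v)) :
    ∀ l : List V, l.Nodup → l.IsChain (fun a b => b = τ a ∧ ¬ Y a) → l.IsChain K := by
  intro l
  induction l with
  | nil => simp
  | cons x t ih =>
    intro hnd hch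
    cases t with
    | nil => simp
    | cons y t =>
      rw [List.isChain_cons_cons] at hch ⊢
      rw [List.nodup_cons] at hnd
      refine ⟨?_, ih hnd.2 hch.2⟩
      rcases hK x hch.1.2 with h | h
      · exfalso
        apply hnd.1
        rw [hch.1.1, h]
        simp
      · rw [hch.1.1]; exact h

omit [DecidableEq V] in
theorem lk_of_cover {K : V → V → Prop} {e f : Sym2 V} (he : ¬ e.IsDiag)
    (hf : ¬ f.IsDiag) {τ : Equiv.Perm V} (hτ : Cover K e f τ) : ∃ l₁ l₂, Lk K e f l₁ l₂ := by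
  classical
  obtain ⟨a, b, rfl⟩ : ∃ a b, e = s(a, b) := by
    induction e using Sym2.ind with
    | _ a b => exact ⟨a, b, rfl⟩
  have hab : a ≠ b := by simpa using he
  have ha := hτ.inv_mem hf (x := a) (by simp)
  have hb := hτ.inv_mem hf (x := b) (by simp)
  obtain ⟨n, hn, hn'⟩ := exists_trail τ (· ∈ f) ha
  obtain ⟨m, hm, hm'⟩ := exists_trail τ (· ∈ f) hb
  set l₁ := trail τ n a with hl₁
  set l₂ := trail τ m b with hl₂
  have nd1 : l₁.Nodup := trail_nodup (Y := (· ∈ f)) ha hn'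
  have nd2 : l₂.Nodup := trail_nodup (Y := (· ∈ f)) hb hm'
  have hdis : l₁.Disjoint l₂ := trail_disjoint (Y := (· ∈ f)) ha hb hab hn' hm'
  have ch1 : l₁.IsChain (fun a b => b = τ a ∧ a ∉ f) := trail_chain (Y := (· ∈ f)) hn'
  have ch2 : l₂.IsChain (fun a b => b = τ a ∧ a ∉ f) := trail_chain (Y := (· ∈ f)) hm'
  have hfeq : f = s((τ ^ n) a, (τ ^ m) b) := by
    refine (Sym2.mem_and_mem_iff ?_).1 ⟨hn, hm⟩
    intro h
    exact hdis (mem_trail.2 ⟨n, le_rfl, rfl⟩) (mem_trail.2 ⟨m, le_rfl, h.symm⟩)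
  refine ⟨l₁, l₂, chain_of_follow hτ.outF _ nd1 ch1, chain_of_follow hτ.outF _ nd2 ch2,
    List.Nodup.append nd1 nd2 hdis, ⟨a, b, trail_head? _ _ _, trail_head? _ _ _, rfl⟩,
      ⟨_, _, trail_getLast? _ _ _, trail_getLast? _ _ _, hfeq.symm⟩⟩

omit [Fintype V] [DecidableEq V] in
theorem Lk.three_le {K : V → V → Prop} {e f : Sym2 V} (hef : e ≠ f) {l₁ l₂ : List V}
    (h : Lk K e f l₁ l₂) : 3 ≤ (l₁ ++ l₂).length := by
  obtain ⟨x1, x2, g1, g2, g3⟩ := h.hd
  obtain ⟨y1, y2, k1, k2, k3⟩ := h.lt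
  rcases l₁ with _ | ⟨a, l₁⟩
  · simp at g1
  rcases l₂ with _ | ⟨b, l₂⟩
  · simp at g2
  rcases l₁ with _ | ⟨a', l₁⟩
  · rcases l₂ with _ | ⟨b', l₂⟩
    · exfalso
      simp only [List.head?_cons, Option.some.injEq, List.getLast?_singleton] at g1 g2 k1 k2
      apply hef
      rw [← g3, ← k3, ← g1, ← g2, ← k1, ← k2]
    · simp only [List.length_append, List.length_cons]; omega
  · simp only [List.length_append, List.length_cons]; omega

/-- in a `3`-connected graph every closed list disjoint from a linkage has sign `1` -/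
theorem hc_of_threeConn {G : SimpleGraph V} (hG : KConn 3 G) {w : V → V → ℤˣ}
    (hw : ∀ x y, w x y = w y x) {e f : Sym2 V} (hef : e ≠ f)
    {s0 : ℤˣ} (hc : LConst G.Adj w e f s0) {l₁ l₂ C : List V} (hL : Lk G.Adj e f l₁ l₂)
    (hC : Cyc G.Adj C) (hd : ∀ x ∈ C, x ∉ l₁ ∧ x ∉ l₂) : csign w C = 1 := by
  have hr : ∀ x y, G.Adj x y → G.Adj y x := fun x y h => h.symm
  by_cases hlen : C.length < 3
  · rcases C with _ | ⟨x, _ | ⟨y, _ | ⟨z, C⟩⟩⟩
    · exact absurd rfl hC.ne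
    · exfalso
      have h1 := hC.ch
      rw [cchain_cons] at h1
      simp at h1
    · rw [csign_cons]
      simp [hw y x, Int.units_mul_self]
    · simp only [List.length_cons] at hlen; omega
  push Not at hlen
  have hCcard : C.toFinset.card = C.length := List.toFinset_card_of_nodup hC.nd
  have hLcard : (l₁ ++ l₂).toFinset.card = (l₁ ++ l₂).length := List.toFinset_card_of_nodup hL.nd
  obtain ⟨Y, hYC, hY3⟩ := Finset.exists_subset_card_eq (s := C.toFinset) (n := 3) (by omega)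
  obtain ⟨X, hXL, hX3⟩ := Finset.exists_subset_card_eq (s := (l₁ ++ l₂).toFinset) (n := 3)
    (by have := hL.three_le hef; omega)
  obtain ⟨τ, hτY, hτ⟩ := exists_perm_of_sets hG (X := X) (Y := Y) (by omega) (by omega)
  have hinv : ∀ x ∈ X, τ⁻¹ x ∈ Y := by
    have himg : Y.image τ = X := by
      apply Finset.eq_of_subset_of_card_le
      · intro v hv
        rw [Finset.mem_image] at hv
        obtain ⟨y, hy, rfl⟩ := hv
        exact hτY y hy
      · rw [Finset.card_image_of_injective _ τ.injective]; omega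
    intro x hx
    rw [← himg, Finset.mem_image] at hx
    obtain ⟨y, hy, rfl⟩ := hx
    have : τ⁻¹ (τ y) = y := τ.symm_apply_apply y
    rw [this]; exact hy
  have hXV : ∀ x ∈ X, x ∈ l₁ ∨ x ∈ l₂ := by
    intro x hx
    have := hXL hx
    rw [List.mem_toFinset, List.mem_append] at this
    exact this
  have hYV : ∀ y ∈ Y, y ∈ C := fun y hy => List.mem_toFinset.1 (hYC hy)
  have hCV : ∀ z, z ∈ C → ¬ (z ∈ l₁ ∨ z ∈ l₂) := by
    intro z hz h
    have := hd z hz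
    rcases h with h | h
    · exact this.1 h
    · exact this.2 h
  have hspur : ∀ x ∈ X, ∀ n, (τ ^ n) x ∈ Y → (∀ m < n, (τ ^ m) x ∉ Y) →
      ∃ F1 a F2 q E2, trail τ n x = F1 ++ ((a :: F2 ++ [q]) ++ E2) ∧
        Spur G.Adj (fun x => x ∈ l₁ ∨ x ∈ l₂) (· ∈ C) a F2 q := by
    intro x hx n hn hn'
    have nd := trail_nodup (Y := (· ∈ Y)) (hinv x hx) hn'
    have ch := chain_of_follow (Y := (· ∈ Y)) hτ _ nd (trail_chain (Y := (· ∈ Y)) hn')
    exact front_spur (VL := fun x => x ∈ l₁ ∨ x ∈ l₂) (C := (· ∈ C)) ch nd (trail_head? _ _ _)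
      (hXV x hx) hCV ⟨(τ ^ n) x, mem_trail.2 ⟨n, le_rfl, rfl⟩, hYV _ hn⟩
  obtain ⟨x1, x2, x3, h12, h13, h23, hXeq⟩ := Finset.card_eq_three.1 hX3
  have hx1 : x1 ∈ X := by rw [hXeq]; simp
  have hx2 : x2 ∈ X := by rw [hXeq]; simp
  have hx3 : x3 ∈ X := by rw [hXeq]; simp
  obtain ⟨n1, hn1, hn1'⟩ := exists_trail τ (· ∈ Y) (hinv x1 hx1)
  obtain ⟨n2, hn2, hn2'⟩ := exists_trail τ (· ∈ Y) (hinv x2 hx2)
  obtain ⟨n3, hn3, hn3'⟩ := exists_trail τ (· ∈ Y) (hinv x3 hx3)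
  have d12 := trail_disjoint (Y := (· ∈ Y)) (hinv x1 hx1) (hinv x2 hx2) h12 hn1' hn2'
  have d13 := trail_disjoint (Y := (· ∈ Y)) (hinv x1 hx1) (hinv x3 hx3) h13 hn1' hn3'
  have d23 := trail_disjoint (Y := (· ∈ Y)) (hinv x2 hx2) (hinv x3 hx3) h23 hn2' hn3'
  obtain ⟨F1, a1, m1, q1, E1, t1, S1⟩ := hspur x1 hx1 n1 hn1 hn1'
  obtain ⟨F2, a2, m2, q2, E2, t2, S2⟩ := hspur x2 hx2 n2 hn2 hn2'
  obtain ⟨F3, a3, m3, q3, E3, t3, S3⟩ := hspur x3 hx3 n3 hn3 hn3'
  have hsub : ∀ {F m E : List V} {a q : V} {l : List V}, l = F ++ ((a :: m ++ [q]) ++ E) →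
      ∀ x ∈ a :: m ++ [q], x ∈ l := by
    intro F m E a q l h x hx
    rw [h, List.mem_append, List.mem_append]
    exact Or.inr (Or.inl hx)
  have D12 : List.Disjoint (a1 :: m1 ++ [q1]) (a2 :: m2 ++ [q2]) :=
    fun x hx hx' => d12 (hsub t1 x hx) (hsub t2 x hx')
  have D13 : List.Disjoint (a1 :: m1 ++ [q1]) (a3 :: m3 ++ [q3]) :=
    fun x hx hx' => d13 (hsub t1 x hx) (hsub t3 x hx')
  have D23 : List.Disjoint (a2 :: m2 ++ [q2]) (a3 :: m3 ++ [q3]) :=
    fun x hx hx' => d23 (hsub t2 x hx) (hsub t3 x hx')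
  exact csign_of_three_spurs hr hw hc hL hC hd S1 S2 S3 D12 D13 D23

/-- linkages exist in `2`-connected graphs -/
theorem exists_lk {k : ℕ} (hk : 2 ≤ k) {G : SimpleGraph V} (hG : KConn k G) {e f : Sym2 V} (he : ¬ e.IsDiag)
    (hf : ¬ f.IsDiag) : ∃ l₁ l₂, Lk G.Adj e f l₁ l₂ := by
  obtain ⟨a, b, rfl⟩ : ∃ a b, e = s(a, b) := by
    induction e using Sym2.ind with
    | _ a b => exact ⟨a, b, rfl⟩
  obtain ⟨c, d, rfl⟩ : ∃ a b, f = s(a, b) := by
    induction f using Sym2.ind with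
    | _ a b => exact ⟨a, b, rfl⟩
  have hab : a ≠ b := by simpa using he
  have hcd : c ≠ d := by simpa using hf
  obtain ⟨τ, h1, h2⟩ := exists_perm_of_sets hG (X := {a, b}) (Y := {c, d})
    (by rw [Finset.card_pair hab, Finset.card_pair hcd]) (by rw [Finset.card_pair hcd]; exact hk)
  refine lk_of_cover he hf (τ := τ) ⟨?_, ?_⟩
  · intro v hv
    have := h1 v (by simpa using hv)
    simpa using this
  · intro v hv
    exact h2 v (by simpa using hv)

/-- The potentials of a pair with constant sign in a `3`-connected graph -/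
theorem potentials_of_threeConn {G : SimpleGraph V} (hG : KConn 3 G) {w : V → V → ℤˣ}
    (hw : ∀ x y, w x y = w y x) {e f : Sym2 V} (he : ¬ e.IsDiag) (hf : ¬ f.IsDiag) (hef : e ≠ f)
    {s0 : ℤˣ} (hc : LConst G.Adj w e f s0) :
    ∃ α β : V → ℤˣ, (∀ v, v ∉ e → v ∉ f → α v = β v) ∧
      (∀ u v, u ∉ f → v ∉ e → G.Adj u v → w u v = α u * β v) ∧
      (∀ v ∈ f, α v = 1) ∧ (∀ v ∈ e, β v = 1) ∧ ∏ v, α v * β v = s0 := by
  obtain ⟨l₁, l₂, hL⟩ := exists_lk (by norm_num) hG he hf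
  obtain ⟨α, β, hcov, hα, hβ, hprod⟩ := exists_potentials he hf hc
    (fun l₁ l₂ C hL hC hd => hc_of_threeConn hG hw hef hc hL hC hd) hL
  refine ⟨α, β, ?_, ?_, hα, hβ, hprod⟩
  · intro v hve hvf
    obtain ⟨τ, hτ, hτv⟩ := exists_cover_arc hG he hf hvf hve (Or.inl rfl)
    have := hcov τ hτ v
    rw [hτv, cw_self] at this
    rcases Int.units_eq_one_or (α v) with ha | ha <;> rcases Int.units_eq_one_or (β v) with hb | hb <;>
      rw [ha, hb] at this ⊢ <;> first | rfl | (exact absurd this (by decide))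
  · intro u v hu hv huv
    obtain ⟨τ, hτ, hτv⟩ := exists_cover_arc hG he hf hu hv (Or.inr huv)
    have := hcov τ hτ u
    rw [hτv, cw_of w hu huv.ne] at this
    exact this

end NPP
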