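import Pool.Agent.helper50.NPP.Piece

/-! The characterisation of `2`-connected signed graphs with the negative pair property. -/

namespace NPP

open SimpleGraph

variable {V : Type*} {G : SimpleGraph V}

variable [Fintype V] [DecidableEq V]

/-- in a `2`-connected graph any two edges lie on a circle -/
theorem exists_circle (hG : KConn 2 G) {e f : Sym2 V} (hef : e ≠ f) (he : e ∈ G.edgeSet)
    (hf : f ∈ G.edgeSet) : ∃ (u : V) (c : G.Walk u u), c.IsCycle ∧ e ∈ c.edges ∧ f ∈ c.edges := by
  obtain ⟨l₁, l₂, hL⟩ := exists_lk le_rfl hG (not_isDiag he) (not_isDiag hf)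
  obtain ⟨a, b, c, d, hab, p, hcd, q, h1, h2, h3, -⟩ := cycle_of_lk (fun _ => 1) hef he hf hL
  exact ⟨a, _, h3, by simp [h1], by simp [h2]⟩

/-- two vertices which separate `e` from `f` give a `2`-separation -/
theorem unavoidable_of_samePiece {e f : Sym2 V} (hef : e ≠ f) (he : e ∈ G.edgeSet)
    (hf : f ∈ G.edgeSet) (hex : ∃ (u : V) (c : G.Walk u u), c.IsCycle ∧ e ∈ c.edges ∧ f ∈ c.edges)
    (h : SamePiece G e f) : ∀ v, Unavoidable G e f v → v ∈ e ∨ v ∈ f := by
  intro v hv
  by_contra hcon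
  push Not at hcon
  obtain ⟨hve, hvf⟩ := hcon
  rcases separates_of_unavoidable hef he hf hv with h1 | h1 | ⟨w, hw⟩
  · exact hve h1
  · exact hvf h1
  have hvw : v ≠ w := by
    rintro rfl
    obtain ⟨u, c, hc, hec, hfc⟩ := hex
    obtain ⟨l₁, l₂, hL, -⟩ := lk_of_cycle (fun _ => 1) hef hc hec hfc
    obtain ⟨x1, x2, g1, g2, g3⟩ := hL.hd
    obtain ⟨y1, y2, k1, k2, k3⟩ := hL.lt
    obtain ⟨p, hp⟩ := exists_walk_of_list g1 k1 hL.c1
    obtain ⟨q, hq⟩ := exists_walk_of_list g2 k2 hL.c2
    have h1 := hw x1 (by rw [← g3]; simp) y1 (by rw [← k3]; simp) p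
    have h2 := hw x2 (by rw [← g3]; simp) y2 (by rw [← k3]; simp) q
    rw [hp, or_self] at h1
    rw [hq, or_self] at h2
    exact (List.nodup_append.1 hL.nd).2.2 v h1 v h2 rfl
  -- the side of `e`
  set R : Set V := {z | ∃ a ∈ e, ∃ p : G.Walk a z, v ∉ p.support ∧ w ∉ p.support} with hR
  have hRv : v ∉ R := by
    rintro ⟨a, -, p, hp, -⟩
    exact hp p.end_mem_support
  have hRw : w ∉ R := by
    rintro ⟨a, -, p, -, hp⟩
    exact hp p.end_mem_support
  have hRadj : ∀ z ∈ R, ∀ t, G.Adj z t → t ≠ v → t ≠ w → t ∈ R := by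
    rintro z ⟨a, ha, p, hp1, hp2⟩ t hzt htv htw
    refine ⟨a, ha, p.concat hzt, ?_, ?_⟩
    · rw [Walk.support_concat, List.mem_append, List.mem_singleton]
      rintro (h1 | h1)
      · exact hp1 h1
      · exact htv h1.symm
    · rw [Walk.support_concat, List.mem_append, List.mem_singleton]
      rintro (h1 | h1)
      · exact hp2 h1
      · exact htw h1.symm
  refine h (R ∪ {v, w}) Rᶜ v w ⟨hvw, ?_, ?_, ?_⟩ ⟨?_, ?_, ?_, ?_⟩
  · ext z
    simp only [Set.mem_inter_iff, Set.mem_union, Set.mem_insert_iff, Set.mem_singleton_iff,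
      Set.mem_compl_iff]
    constructor
    · rintro ⟨h1 | h1, h2⟩
      · exact absurd h1 h2
      · exact h1
    · intro h1
      refine ⟨Or.inr h1, ?_⟩
      rcases h1 with rfl | rfl
      · exact hRv
      · exact hRw
  · ext z
    simp only [Set.mem_union, Set.mem_compl_iff, Set.mem_univ, iff_true]
    by_cases hz : z ∈ R
    · exact Or.inl (Or.inl hz)
    · exact Or.inr hz
  · intro a b hab
    by_cases ha : a ∈ R
    · left
      refine ⟨Or.inl ha, ?_⟩
      by_cases hb : b = v ∨ b = w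
      · exact Or.inr (by simpa using hb)
      · push Not at hb
        exact Or.inl (hRadj a ha b hab hb.1 hb.2)
    · by_cases hb : b ∈ R
      · left
        refine ⟨?_, Or.inl hb⟩
        by_cases ha' : a = v ∨ a = w
        · exact Or.inr (by simpa using ha')
        · push Not at ha'
          exact absurd (hRadj b hb a hab.symm ha'.1 ha'.2) ha
      · exact Or.inr ⟨ha, hb⟩
  · intro a ha
    by_cases haw : a = w
    · exact Or.inr (by simp [haw])
    · left
      refine ⟨a, ha, Walk.nil, ?_, ?_⟩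
      · simp only [Walk.support_nil, List.mem_singleton]
        rintro rfl
        exact hve ha
      · simp only [Walk.support_nil, List.mem_singleton]
        exact fun h => haw h.symm
  · rintro b hb ⟨a, ha, p, hp1, hp2⟩
    rcases hw a ha b hb p with h1 | h1
    · exact hp1 h1
    · exact hp2 h1
  · rintro rfl
    exact hve (by simp)
  · rintro rfl
    exact hvf (by simp)

/-- the criterion for pairs in one piece -/
theorem negPair_iff_piece (σ : Sym2 V → ℤˣ) {e f : Sym2 V} (hef : e ≠ f)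
    (he : e ∈ G.edgeSet) (hf : f ∈ G.edgeSet)
    (hex : ∃ (u : V) (c : G.Walk u u), c.IsCycle ∧ e ∈ c.edges ∧ f ∈ c.edges)
    (hU : ∀ v, Unavoidable G e f v → v ∈ e ∨ v ∈ f) :
    NegPair G σ e f ↔
      (∃ (u : V) (c : G.Walk u u), c.IsCycle ∧ (∀ g ∈ c.edges, OnCircle G e f g) ∧
        e ∉ c.edges ∧ f ∉ c.edges ∧ (∀ a ∈ e, a ∈ f → a ∉ c.support) ∧ wsign σ c = -1) ∨
      (∀ (u : V) (c : G.Walk u u), c.IsCycle → e ∈ c.edges → f ∈ c.edges → wsign σ c = -1) := by
  have hss := same_sign_iff_piece σ hef he hf hU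
  constructor
  · rintro ⟨u, c, hc, hec, hfc, hneg⟩
    by_contra hcon
    rw [not_or] at hcon
    obtain ⟨h1, h2⟩ := hcon
    have h3 := hss.2 (fun u c hc hon hec hfc hcom =>
      units_of_ne fun h => h1 ⟨u, c, hc, hon, hec, hfc, hcom, h⟩)
    apply h2
    intro u' c' hc' hec' hfc'
    rw [← h3 u c u' c' hc hec hfc hc' hec' hfc']
    exact hneg
  · rintro (⟨u, c, hc, hon, hec, hfc, hcom, hneg⟩ | h)
    · by_contra hno
      have hall : ∀ (u : V) (c : G.Walk u u), c.IsCycle → e ∈ c.edges → f ∈ c.edges →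
          wsign σ c = 1 := by
        intro u c hc hec hfc
        exact units_of_ne fun h => hno ⟨u, c, hc, hec, hfc, h⟩
      have := hss.1 (fun u c u' c' a1 a2 a3 a4 a5 a6 => by
        rw [hall u c a1 a2 a3, hall u' c' a4 a5 a6]) u c hc hon hec hfc hcom
      rw [this] at hneg
      exact absurd hneg (by decide)
    · obtain ⟨u, c, hc, hec, hfc⟩ := hex
      exact ⟨u, c, hc, hec, hfc, h u c hc hec hfc⟩

/-- the criterion for pairs in a `3`-connected graph -/
theorem negPair_iff_three (hG : KConn 3 G) (σ : Sym2 V → ℤˣ) {e f : Sym2 V} (hef : e ≠ f)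
    (he : e ∈ G.edgeSet) (hf : f ∈ G.edgeSet) :
    NegPair G σ e f ↔
      (∃ (u : V) (c : G.Walk u u), c.IsCycle ∧ e ∉ c.edges ∧ f ∉ c.edges ∧
        (∀ a ∈ e, a ∈ f → a ∉ c.support) ∧ wsign σ c = -1) ∨
      (∀ (u : V) (c : G.Walk u u), c.IsCycle → e ∈ c.edges → f ∈ c.edges → wsign σ c = -1) := by
  have hss := same_sign_iff hG σ hef he hf
  constructor
  · rintro ⟨u, c, hc, hec, hfc, hneg⟩
    by_contra hcon
    rw [not_or] at hcon
    obtain ⟨h1, h2⟩ := hcon
    have h3 := hss.2 (fun u c hc hec hfc hcom =>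
      units_of_ne fun h => h1 ⟨u, c, hc, hec, hfc, hcom, h⟩)
    apply h2
    intro u' c' hc' hec' hfc'
    rw [← h3 u c u' c' hc hec hfc hc' hec' hfc']
    exact hneg
  · rintro (⟨u, c, hc, hec, hfc, hcom, hneg⟩ | h)
    · by_contra hno
      have hall : ∀ (u : V) (c : G.Walk u u), c.IsCycle → e ∈ c.edges → f ∈ c.edges →
          wsign σ c = 1 := by
        intro u c hc hec hfc
        exact units_of_ne fun h => hno ⟨u, c, hc, hec, hfc, h⟩
      have := hss.1 (fun u c u' c' a1 a2 a3 a4 a5 a6 => by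
        rw [hall u c a1 a2 a3, hall u' c' a4 a5 a6]) u c hc hec hfc hcom
      rw [this] at hneg
      exact absurd hneg (by decide)
    · obtain ⟨l₁, l₂, hL⟩ := exists_lk (by norm_num) hG (not_isDiag he) (not_isDiag hf)
      obtain ⟨a, b, c, d, hab, p, hcd, q, h1, h2, h3, -⟩ := cycle_of_lk (fun _ => 1) hef he hf hL
      exact ⟨a, _, h3, by simp [h1], by simp [h2], h _ _ h3 (by simp [h1]) (by simp [h2])⟩

/-- **Theorem 6** (the negative pair property of `2`-connected signed graphs) -/
theorem negPairProperty_iff_two (hG : KConn 2 G) (σ : Sym2 V → ℤˣ) :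
    NegPairProperty G σ ↔
      (∀ e ∈ G.edgeSet, ∀ f ∈ G.edgeSet, e ≠ f → SamePiece G e f →
        (∃ (u : V) (c : G.Walk u u), c.IsCycle ∧ (∀ g ∈ c.edges, OnCircle G e f g) ∧
          e ∉ c.edges ∧ f ∉ c.edges ∧ (∀ a ∈ e, a ∈ f → a ∉ c.support) ∧ wsign σ c = -1) ∨
        (∀ (u : V) (c : G.Walk u u), c.IsCycle → e ∈ c.edges → f ∈ c.edges →
          wsign σ c = -1)) ∧
      (∀ (A B : Set V) (x y : V), TwoSep G A B x y → ∀ s : ℤˣ,
        ¬ (Forces G σ A x y s ∧ Forces G σ B x y s)) := by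
  constructor
  · intro h
    constructor
    · intro e he f hf hef hsame
      have hex := exists_circle hG hef he hf
      exact (negPair_iff_piece σ hef he hf hex
        (unavoidable_of_samePiece hef he hf hex hsame)).1 (h e he f hf hef)
    · rintro A B x y hS s ⟨⟨e, he, heA, hex, hep⟩, ⟨f, hf, hfB, hfx, hfq⟩⟩
      have hef : e ≠ f := by
        rintro rfl
        obtain ⟨a, ha, haB⟩ := hS.exists_notMem he heA hex
        exact haB (hfB a ha)
      obtain ⟨p, q, hp, hq, hpA, hqB, h1, h2, h3⟩ :=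
        (negPair_different_sides σ hS he hf heA hfB hex hfx).1 (h e he f hf hef)
      rw [hep p hp hpA h1, hfq q hq hqB h2, Int.units_mul_self] at h3
      exact absurd h3 (by decide)
  · rintro ⟨h1, h2⟩ e he f hf hef
    have hex := exists_circle hG hef he hf
    by_cases hsame : SamePiece G e f
    · exact (negPair_iff_piece σ hef he hf hex
        (unavoidable_of_samePiece hef he hf hex hsame)).2 (h1 e he f hf hef hsame)
    · unfold SamePiece at hsame
      push Not at hsame
      obtain ⟨A, B, x, y, hS, heA, hfB, hexy, hfxy⟩ := hsame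
      rw [negPair_different_sides σ hS he hf heA hfB hexy hfxy]
      obtain ⟨u, c, hc, hec, hfc⟩ := hex
      obtain ⟨p, q, hp, hq, hpA, hqB, k1, k2, -⟩ :=
        split_circle σ hS he hf heA hfB hexy hfxy hc hec hfc
      by_cases hpq : wsign σ p = wsign σ q
      · have h3 := h2 A B x y hS (wsign σ p)
        rw [not_and_or] at h3
        have hcases : ∀ s t : ℤˣ, t ≠ s → t * s = -1 := by
          intro s t hst
          rcases Int.units_eq_one_or s with hs | hs <;> rcases Int.units_eq_one_or t with ht | ht <;>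
            rw [hs, ht] at hst ⊢ <;> first | decide | (exact absurd rfl hst)
        rcases h3 with h3 | h3
        · unfold Forces at h3
          push Not at h3
          obtain ⟨p', hp', hpA', hep', hne⟩ := h3 e he heA hexy
          exact ⟨p', q, hp', hq, hpA', hqB, hep', k2, by rw [← hpq]; exact hcases _ _ hne⟩
        · unfold Forces at h3
          push Not at h3
          obtain ⟨q', hq', hqB', hfq', hne⟩ := h3 f hf hfB hfxy
          exact ⟨p, q', hp, hq', hpA, hqB', k1, hfq', by rw [mul_comm]; exact hcases _ _ hne⟩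
      · refine ⟨p, q, hp, hq, hpA, hqB, k1, k2, ?_⟩
        rcases Int.units_eq_one_or (wsign σ p) with hs | hs <;>
          rcases Int.units_eq_one_or (wsign σ q) with ht | ht <;>
          rw [hs, ht] at hpq ⊢ <;> first | decide | (exact absurd rfl hpq)

end NPP
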