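import Pool.Agent.helper50.NPP.Three

/-! Walks and lists. -/

namespace NPP

open SimpleGraph

variable {V : Type*} {G : SimpleGraph V}

theorem wsign_nil (σ : Sym2 V → ℤˣ) (u : V) : wsign σ (Walk.nil : G.Walk u u) = 1 := by
  simp [wsign]

theorem wsign_cons (σ : Sym2 V → ℤˣ) {u v x : V} (h : G.Adj u v) (p : G.Walk v x) :
    wsign σ (Walk.cons h p) = σ s(u, v) * wsign σ p := by
  simp [wsign]

theorem wsign_append (σ : Sym2 V → ℤˣ) {u v x : V} (p : G.Walk u v) (q : G.Walk v x) :
    wsign σ (p.append q) = wsign σ p * wsign σ q := by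
  simp [wsign]

theorem wsign_eq (σ : Sym2 V → ℤˣ) {u v : V} (p : G.Walk u v) :
    wsign σ p = lsign (fun x y => σ s(x, y)) p.support := by
  induction p with
  | nil => simp [wsign]
  | @cons u v x h p ih =>
    rw [wsign_cons, ih, Walk.support_cons]
    conv_rhs => rw [← Walk.cons_tail_support p, lsign_cons_cons, Walk.cons_tail_support]

theorem exists_walk_of_list {l : List V} {x y : V} (hx : l.head? = some x)
    (hy : l.getLast? = some y) (h : l.IsChain G.Adj) : ∃ p : G.Walk x y, p.support = l := by
  induction l generalizing x with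
  | nil => simp at hx
  | cons a t ih =>
    simp only [List.head?_cons, Option.some.injEq] at hx
    subst hx
    cases t with
    | nil =>
      simp only [List.getLast?_singleton, Option.some.injEq] at hy
      subst hy
      exact ⟨Walk.nil, by simp⟩
    | cons b t =>
      rw [List.isChain_cons_cons] at h
      rw [List.getLast?_cons_cons] at hy
      obtain ⟨p, hp⟩ := ih (x := b) rfl hy h.2
      exact ⟨Walk.cons h.1 p, by rw [Walk.support_cons, hp]⟩

theorem support_head? {u v : V} (p : G.Walk u v) : p.support.head? = some u := by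
  rw [← Walk.cons_tail_support p]; rfl

theorem support_getLast? {u v : V} (p : G.Walk u v) : p.support.getLast? = some v := by
  rw [List.getLast?_eq_some_getLast p.support_ne_nil, Walk.getLast_support]

/-- splitting a walk at a dart -/
theorem exists_split {u v : V} (p : G.Walk u v) {g : Sym2 V} (hg : g ∈ p.edges) :
    ∃ (a b : V) (h : G.Adj a b) (p₁ : G.Walk u a) (p₂ : G.Walk b v), s(a, b) = g ∧
      p = p₁.append (Walk.cons h p₂) := by
  induction p with
  | nil => simp at hg
  | @cons u v x h p ih =>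
    rw [Walk.edges_cons, List.mem_cons] at hg
    rcases hg with rfl | hg
    · exact ⟨u, v, h, Walk.nil, p, rfl, rfl⟩
    · obtain ⟨a, b, h', p₁, p₂, hab, hp⟩ := ih hg
      exact ⟨a, b, h', Walk.cons h p₁, p₂, hab, by rw [hp, Walk.cons_append]⟩

theorem support_split {u v a b : V} (h : G.Adj a b) (p₁ : G.Walk u a) (p₂ : G.Walk b v) :
    (p₁.append (Walk.cons h p₂)).support = p₁.support ++ p₂.support := by
  rw [Walk.support_append, Walk.support_cons, List.tail_cons]

/-- a circle through `e` and `f` gives a linkage -/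
theorem lk_of_cycle (σ : Sym2 V → ℤˣ) {e f : Sym2 V} (hef : e ≠ f) {u : V} {c : G.Walk u u}
    (hc : c.IsCycle) (he : e ∈ c.edges) (hf : f ∈ c.edges) :
    ∃ l₁ l₂, Lk G.Adj e f l₁ l₂ ∧
      wsign σ c = σ e * σ f * (lsign (fun x y => σ s(x, y)) l₁ * lsign (fun x y => σ s(x, y)) l₂) ∧
      ∀ v, v ∈ c.support ↔ v ∈ l₁ ∨ v ∈ l₂ := by
  obtain ⟨x, y, hxy, p₁, p₂, rfl, hcp⟩ := exists_split c he
  set q := p₂.append p₁ with hq
  have hqn : q.support.Nodup := by
    have h1 := hc.support_nodup
    rw [hcp, support_split] at h1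
    rw [hq, Walk.support_append]
    have h2 : (p₁.support ++ p₂.support).tail = p₁.support.tail ++ p₂.support := by
      rw [← Walk.cons_tail_support p₁]; rfl
    rw [h2] at h1
    rw [List.nodup_append_comm]
    exact h1
  have hfq : f ∈ q.edges := by
    rw [hcp, Walk.edges_append, Walk.edges_cons, List.mem_append, List.mem_cons] at hf
    rw [hq, Walk.edges_append, List.mem_append]
    rcases hf with h | h | h
    · exact Or.inr h
    · exact absurd h.symm hef
    · exact Or.inl h
  obtain ⟨z, t, hzt, q₁, q₂, rfl, hqq⟩ := exists_split q hfq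
  have hsupp : q.support = q₁.support ++ q₂.support := by rw [hqq, support_split]
  rw [hsupp] at hqn
  refine ⟨q₁.support, q₂.support.reverse, ⟨q₁.isChain_adj_support, ?_, ?_, ?_, ?_⟩, ?_, ?_⟩
  · rw [List.isChain_reverse]
    exact q₂.isChain_adj_support.imp fun _ _ h => h.symm
  · rw [List.nodup_append] at hqn ⊢
    refine ⟨hqn.1, List.nodup_reverse.2 hqn.2.1, ?_⟩
    intro a ha b hb
    exact hqn.2.2 a ha b (List.mem_reverse.1 hb)
  · refine ⟨y, x, support_head? _, ?_, Sym2.eq_swap⟩
    rw [List.head?_reverse, support_getLast?]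
  · refine ⟨z, t, support_getLast? _, ?_, rfl⟩
    rw [List.getLast?_reverse, support_head?]
  · have e1 : wsign σ c = σ s(x, y) * wsign σ q := by
      rw [hcp, wsign_append, wsign_cons, hq, wsign_append]
      simp only [mul_comm, mul_left_comm, mul_assoc]
    have e2 : wsign σ q = σ s(z, t) * (wsign σ q₁ * wsign σ q₂) := by
      rw [hqq, wsign_append, wsign_cons]
      simp only [mul_comm, mul_left_comm, mul_assoc]
    rw [e1, e2, lsign_reverse _ (fun a b => by rw [Sym2.eq_swap]), ← wsign_eq, ← wsign_eq, mul_assoc]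
  · intro v
    have h1 : v ∈ c.support ↔ v ∈ q.support := by
      rw [hcp, support_split, hq, Walk.mem_support_append_iff, List.mem_append, or_comm]
    rw [h1, hsupp, List.mem_append, List.mem_reverse]

/-- a linkage gives a circle through `e` and `f` -/
theorem cycle_of_lk (σ : Sym2 V → ℤˣ) {e f : Sym2 V} (hef : e ≠ f) (heG : e ∈ G.edgeSet)
    (hfG : f ∈ G.edgeSet) {l₁ l₂ : List V} (hL : Lk G.Adj e f l₁ l₂) :
    ∃ (a b c d : V) (hab : G.Adj a b) (p : G.Walk b c) (hcd : G.Adj c d) (q : G.Walk d a),
      s(a, b) = e ∧ s(c, d) = f ∧ (Walk.cons hab (p.append (Walk.cons hcd q))).IsCycle ∧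
      p.support = l₁ ∧ q.support = l₂.reverse ∧
      wsign σ (Walk.cons hab (p.append (Walk.cons hcd q))) =
        σ e * σ f * (lsign (fun x y => σ s(x, y)) l₁ * lsign (fun x y => σ s(x, y)) l₂) := by
  obtain ⟨x1, x2, g1, g2, g3⟩ := hL.hd
  obtain ⟨y1, y2, k1, k2, k3⟩ := hL.lt
  obtain ⟨p, hp⟩ := exists_walk_of_list g1 k1 hL.c1
  obtain ⟨q', hq'⟩ := exists_walk_of_list g2 k2 hL.c2
  have hab : G.Adj x2 x1 := by
    rw [← g3] at heG
    exact (G.mem_edgeSet.1 heG).symm
  have hcd : G.Adj y1 y2 := by
    rw [← k3] at hfG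
    exact G.mem_edgeSet.1 hfG
  have hq : q'.reverse.support = l₂.reverse := by rw [Walk.support_reverse, hq']
  refine ⟨x2, x1, y1, y2, hab, p, hcd, q'.reverse, by rw [Sym2.eq_swap]; exact g3, k3, ?_, hp, hq, ?_⟩
  · rw [Walk.cons_isCycle_iff]
    have hpath : (p.append (Walk.cons hcd q'.reverse)).IsPath := by
      rw [Walk.isPath_def, support_split, hp, hq]
      have hn := hL.nd
      rw [List.nodup_append] at hn ⊢
      refine ⟨hn.1, List.nodup_reverse.2 hn.2.1, ?_⟩
      intro a ha b hb
      exact hn.2.2 a ha b (List.mem_reverse.1 hb)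
    refine ⟨hpath, ?_⟩
    intro hmem
    rw [Sym2.eq_swap] at hmem
    have h1 := hpath.length_eq_one_of_mem_edges hmem
    rw [Walk.length_append, Walk.length_cons] at h1
    have h2 : p.length = 0 := by omega
    have h3 : q'.reverse.length = 0 := by omega
    have h4 := Walk.eq_of_length_eq_zero h2
    have h5 := Walk.eq_of_length_eq_zero h3
    apply hef
    rw [← g3, ← k3, h4, h5]
  · rw [wsign_cons, wsign_append, wsign_cons, wsign_eq, wsign_eq, hp, hq,
      lsign_reverse _ (fun a b => by rw [Sym2.eq_swap]), ← k3]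
    have : s(x2, x1) = e := by rw [Sym2.eq_swap]; exact g3
    rw [this]
    simp only [mul_left_comm, mul_assoc]

theorem exists_dart_of_consec {u v : V} (p : G.Walk u v) {x y : V} {A B : List V}
    (h : p.support = A ++ x :: y :: B) : ∃ d ∈ p.darts, d.fst = x ∧ d.snd = y := by
  induction p generalizing A with
  | nil =>
    exfalso
    have := congrArg List.length h
    simp at this
    omega
  | @cons u v w hadj p ih =>
    rw [Walk.support_cons] at h
    rcases A with _ | ⟨a, A⟩
    · simp only [List.nil_append, List.cons.injEq] at h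
      refine ⟨⟨(u, v), hadj⟩, by simp, h.1, ?_⟩
      have h2 := h.2
      rw [← Walk.cons_tail_support p] at h2
      simp only [List.cons.injEq] at h2
      exact h2.1
    · simp only [List.cons_append, List.cons.injEq] at h
      obtain ⟨d, hd, h1⟩ := ih h.2
      exact ⟨d, by rw [Walk.darts_cons]; exact List.mem_cons_of_mem _ hd, h1⟩

theorem consec_of_dart {u v : V} (p : G.Walk u v) {d : G.Dart} (hd : d ∈ p.darts) :
    ∃ A B, p.support = A ++ d.fst :: d.snd :: B := by
  induction p with
  | nil => simp at hd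
  | @cons u v w hadj p ih =>
    rw [Walk.darts_cons, List.mem_cons] at hd
    rcases hd with rfl | hd
    · refine ⟨[], p.support.tail, ?_⟩
      rw [Walk.support_cons, List.nil_append]
      conv_lhs => rw [← Walk.cons_tail_support p]
    · obtain ⟨A, B, h⟩ := ih hd
      exact ⟨u :: A, B, by rw [Walk.support_cons, h]; rfl⟩

/-- linkage from the normal form of a circle -/
theorem lk_of_normal {e f : Sym2 V} {a b c d : V} (hab : G.Adj a b) (p : G.Walk b c)
    (hcd : G.Adj c d) (q : G.Walk d a) (he : s(a, b) = e) (hf : s(c, d) = f)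
    (hcyc : (Walk.cons hab (p.append (Walk.cons hcd q))).IsCycle) :
    Lk G.Adj e f p.support q.support.reverse := by
  rw [Walk.cons_isCycle_iff, Walk.isPath_def, support_split] at hcyc
  refine ⟨p.isChain_adj_support, ?_, ?_, ?_, ?_⟩
  · rw [List.isChain_reverse]
    exact q.isChain_adj_support.imp fun _ _ h => h.symm
  · have hqn := hcyc.1
    rw [List.nodup_append] at hqn ⊢
    refine ⟨hqn.1, List.nodup_reverse.2 hqn.2.1, ?_⟩
    intro a ha b hb
    exact hqn.2.2 a ha b (List.mem_reverse.1 hb)
  · refine ⟨b, a, support_head? _, ?_, by rw [Sym2.eq_swap]; exact he⟩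
    rw [List.head?_reverse, support_getLast?]
  · refine ⟨c, d, support_getLast? _, ?_, hf⟩
    rw [List.getLast?_reverse, support_head?]

end NPP
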